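import Pool.Agent.Lib_helper80.GG.DDefs

set_option autoImplicit false

open Filter Topology Metric Set

namespace Pool.Agent.GG.PD

open Pool.Agent.BR

theorem d02_pd_an {f : V2 → ℂ} {z : V2} (hf : AnalyticAt ℂ f z) (j : Fin 2) :
    AnalyticAt ℂ (pd j f) z := by
  have h := hf.fderiv
  exact ((ContinuousLinearMap.apply ℂ ℂ (Pi.single j (1 : ℂ) : V2)).analyticAt _).comp h

theorem d02_dl {T : Fin 3 → V2 → ℂ} {z : V2} : dl T z =
    T 0 z * pd 0 (T 1) z * pd 1 (T 2) z - T 0 z * pd 1 (T 1) z * pd 0 (T 2) z -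
    pd 0 (T 0) z * T 1 z * pd 1 (T 2) z + pd 0 (T 0) z * pd 1 (T 1) z * T 2 z +
    pd 1 (T 0) z * T 1 z * pd 0 (T 2) z - pd 1 (T 0) z * pd 0 (T 1) z * T 2 z := by
  unfold dl
  rw [Matrix.det_fin_three]
  simp

theorem d02_mul {f g : V2 → ℂ} {z : V2} (hf : AnalyticAt ℂ f z) (hg : AnalyticAt ℂ g z)
    (d : Fin 2) : pd d (f * g) z = f z * pd d g z + g z * pd d f z := by
  unfold pd
  have h := hf.differentiableAt.hasFDerivAt.mul hg.differentiableAt.hasFDerivAt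
  have he : fderiv ℂ (f * g) z = _ := h.fderiv
  rw [he]
  rfl

theorem d02_add {f g : V2 → ℂ} {z : V2} (hf : AnalyticAt ℂ f z) (hg : AnalyticAt ℂ g z)
    (d : Fin 2) : pd d (f + g) z = pd d f z + pd d g z := by
  unfold pd
  have h := hf.differentiableAt.hasFDerivAt.add hg.differentiableAt.hasFDerivAt
  have he : fderiv ℂ (f + g) z = _ := h.fderiv
  rw [he]
  rfl

theorem d02_sub {f g : V2 → ℂ} {z : V2} (hf : AnalyticAt ℂ f z) (hg : AnalyticAt ℂ g z)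
    (d : Fin 2) : pd d (f - g) z = pd d f z - pd d g z := by
  unfold pd
  have h := hf.differentiableAt.hasFDerivAt.sub hg.differentiableAt.hasFDerivAt
  have he : fderiv ℂ (f - g) z = _ := h.fderiv
  rw [he]
  rfl

theorem d02_symm {f : V2 → ℂ} {z : V2} (hf : AnalyticAt ℂ f z) :
    pd 1 (pd 0 f) z = pd 0 (pd 1 f) z := by
  have h1 : ContDiffAt ℂ ⊤ f z := hf.contDiffAt
  have h2 : IsSymmSndFDerivAt ℂ f z := by
    refine ContDiffAt.isSymmSndFDerivAt (n := ⊤) h1 ?_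
    rw [minSmoothness_of_isRCLikeNormedField]
    exact le_top
  have h3 : ∀ j l : Fin 2, pd j (pd l f) z =
      fderiv ℂ (fderiv ℂ f) z (Pi.single j 1) (Pi.single l 1) := by
    intro j l
    have h4 : HasFDerivAt (fderiv ℂ f) (fderiv ℂ (fderiv ℂ f) z) z :=
      hf.fderiv.differentiableAt.hasFDerivAt
    have h5 := (ContinuousLinearMap.apply ℂ ℂ (Pi.single l (1 : ℂ) : V2)).hasFDerivAt.comp z h4
    unfold pd
    have h6 : fderiv ℂ (fun w => fderiv ℂ f w (Pi.single l 1)) z = _ := h5.fderiv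
    rw [h6]
    rfl
  rw [h3, h3]
  exact h2 _ _

theorem pd_dl_pr {f : Fin 3 → V2 → ℂ} {ξ : V2} (hf : ∀ l, AnalyticAt ℂ (f l) ξ) (d : Fin 2) :
    dl f ξ = dlj (fun l => jet2 (f l) ξ) ∧ pd d (dl f) ξ = ddl d (fun l => jet2 (f l) ξ) := by
  refine ⟨?_, ?_⟩
  · rw [d02_dl]
    unfold dlj
    rw [Matrix.det_fin_three]
    simp [jet2, rw1]
  · have e : dl f = f 0 * pd 0 (f 1) * pd 1 (f 2) - f 0 * pd 1 (f 1) * pd 0 (f 2) -
        pd 0 (f 0) * f 1 * pd 1 (f 2) + pd 0 (f 0) * pd 1 (f 1) * f 2 +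
        pd 1 (f 0) * f 1 * pd 0 (f 2) - pd 1 (f 0) * pd 0 (f 1) * f 2 := by
      funext z
      exact d02_dl
    have h := fun i j => d02_pd_an (hf i) j
    have a1 := ((hf 0).mul (h 1 0)).mul (h 2 1)
    have a2 := ((hf 0).mul (h 1 1)).mul (h 2 0)
    have a3 := ((h 0 0).mul (hf 1)).mul (h 2 1)
    have a4 := ((h 0 0).mul (h 1 1)).mul (hf 2)
    have a5 := ((h 0 1).mul (hf 1)).mul (h 2 0)
    have a6 := ((h 0 1).mul (h 1 0)).mul (hf 2)
    have m3 : ∀ {u v w : V2 → ℂ}, AnalyticAt ℂ u ξ → AnalyticAt ℂ v ξ → AnalyticAt ℂ w ξ →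
        pd d (u * v * w) ξ =
        u ξ * v ξ * pd d w ξ + w ξ * (u ξ * pd d v ξ + v ξ * pd d u ξ) := by
      intro u v w hu hv hw
      rw [d02_mul (hu.mul hv) hw, d02_mul hu hv]
      rfl
    rw [e]
    rw [d02_sub (((((a1.sub a2).sub a3).add a4).add a5)) a6,
      d02_add ((((a1.sub a2).sub a3).add a4)) a5, d02_add ((a1.sub a2).sub a3) a4,
      d02_sub (a1.sub a2) a3, d02_sub a1 a2,
      m3 (hf 0) (h 1 0) (h 2 1), m3 (hf 0) (h 1 1) (h 2 0), m3 (h 0 0) (hf 1) (h 2 1),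
      m3 (h 0 0) (h 1 1) (hf 2), m3 (h 0 1) (hf 1) (h 2 0), m3 (h 0 1) (h 1 0) (hf 2)]
    unfold ddl
    rw [Fin.sum_univ_three, Matrix.det_fin_three, Matrix.det_fin_three, Matrix.det_fin_three]
    fin_cases d
    · simp [jet2, rw1, drw]
      ring
    · simp [jet2, rw1, drw, d02_symm (hf 0), d02_symm (hf 1), d02_symm (hf 2)]
      ring

end Pool.Agent.GG.PD
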