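import Pool.Agent.Lib_helper80.GG.DDefs

/-! # GG, block D01 (helper69): jets of three functions, the fourth bad set -/

set_option autoImplicit false

open Filter Topology Metric Set

namespace Pool.Agent.GG.PD

open Pool.Agent.BR

/-- proportional vectors -/
theorem d01_prop (u v : Fin 3 → ℂ) (h01 : u 0 * v 1 = u 1 * v 0) (h02 : u 0 * v 2 = u 2 * v 0)
    (h12 : u 1 * v 2 = u 2 * v 1) : ∃ (w : Fin 3 → ℂ) (a b : ℂ), (∀ c, u c = a * w c) ∧
      ∀ c, v c = b * w c := by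
  by_cases h : ∀ c, u c = 0
  · exact ⟨v, 0, 1, fun c => by rw [h c, zero_mul], fun c => by rw [one_mul]⟩
  · push Not at h
    obtain ⟨c, hc⟩ := h
    refine ⟨u, 1, v c / u c, fun c' => by rw [one_mul], fun c' => ?_⟩
    have : v c' * u c = v c * u c' := by
      fin_cases c <;> fin_cases c' <;>
        simp only [Fin.zero_eta, Fin.mk_one, Fin.reduceFinMk] <;>
        first
          | ring1
          | linear_combination h01
          | linear_combination h02
          | linear_combination h12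
          | linear_combination -h01
          | linear_combination -h02
          | linear_combination -h12
    field_simp
    linear_combination this

/-- the two linear equations for the second order part -/
theorem d01_two {k1 k2 s3 s4 s5 : ℂ} (hk : k1 ≠ 0 ∨ k2 ≠ 0) (e0 : s3 * k1 + s4 * k2 = 0)
    (e1 : s4 * k1 + s5 * k2 = 0) :
    ∃ γ : ℂ, s3 = γ * k2 ^ 2 ∧ s4 = -(γ * k1 * k2) ∧ s5 = γ * k1 ^ 2 := by
  by_cases h : k1 = 0
  · have h2 : k2 ≠ 0 := hk.resolve_left (not_not.2 h)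
    subst h
    have h4 : s4 = 0 := by
      have : s4 * k2 = 0 := by linear_combination e0
      exact (mul_eq_zero.1 this).resolve_right h2
    have h5 : s5 = 0 := by
      have : s5 * k2 = 0 := by linear_combination e1
      exact (mul_eq_zero.1 this).resolve_right h2
    refine ⟨s3 / k2 ^ 2, by field_simp, by rw [h4]; ring, by rw [h5]; ring⟩
  · have h4 : s4 = -(s5 * k2) / k1 := by
      field_simp
      linear_combination e1
    have h3 : s3 = -(s4 * k2) / k1 := by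
      field_simp
      linear_combination e0
    refine ⟨s5 / k1 ^ 2, ?_, ?_, by field_simp⟩
    · rw [h3, h4]; field_simp
    · rw [h4]; field_simp

/-- the conclusion, for the rows `w`, `u`, `v` -/
theorem d01_core (w u v : Fin 6 → ℂ) (α β : ℂ) (w0 : w 0 = α * u 0 + β * v 0)
    (w1 : w 1 = α * u 1 + β * v 1) (w2 : w 2 = α * u 2 + β * v 2)
    (h1 : u 0 ≠ 0 ∨ v 0 ≠ 0)
    (hk : ¬ (u 0 * v 1 = u 1 * v 0 ∧ u 0 * v 2 = u 2 * v 0 ∧ u 1 * v 2 = u 2 * v 1))
    (e0 : (w 3 - α * u 3 - β * v 3) * (u 2 * v 0 - u 0 * v 2) +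
      (w 4 - α * u 4 - β * v 4) * (u 0 * v 1 - u 1 * v 0) = 0)
    (e1 : (w 4 - α * u 4 - β * v 4) * (u 2 * v 0 - u 0 * v 2) +
      (w 5 - α * u 5 - β * v 5) * (u 0 * v 1 - u 1 * v 0) = 0) :
    ∃ γ : ℂ, w = α • u + β • v + crs γ u v := by
  have hk' : (u 2 * v 0 - u 0 * v 2) ≠ 0 ∨ (u 0 * v 1 - u 1 * v 0) ≠ 0 := by
    by_contra hcon
    push Not at hcon
    obtain ⟨k1, k2⟩ := hcon
    have k0 : u 1 * v 2 - u 2 * v 1 ≠ 0 := by
      intro k0
      exact hk ⟨sub_eq_zero.1 k2, (sub_eq_zero.1 k1).symm, sub_eq_zero.1 k0⟩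
    rcases h1 with h | h
    · apply h
      have : u 0 * (u 1 * v 2 - u 2 * v 1) = 0 := by
        linear_combination (-u 1) * k1 - u 2 * k2
      exact (mul_eq_zero.1 this).resolve_right k0
    · apply h
      have : v 0 * (u 1 * v 2 - u 2 * v 1) = 0 := by
        linear_combination (-v 1) * k1 - v 2 * k2
      exact (mul_eq_zero.1 this).resolve_right k0
  obtain ⟨γ, g3, g4, g5⟩ := d01_two hk' e0 e1
  refine ⟨γ, ?_⟩
  funext c
  fin_cases c
  · simp [crs, w0]
  · simp [crs, w1]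
  · simp [crs, w2]
  · simp [crs]
    linear_combination g3
  · simp [crs]
    linear_combination g4
  · simp [crs]
    linear_combination g5

theorem d01_three (l m : Fin 3) : l = m ∨ l = m + 1 ∨ l = m + 2 := by
  revert l m; decide

theorem d01_ne (m : Fin 3) : m + 1 ≠ m ∧ m + 2 ≠ m ∧ m + 2 ≠ m + 1 := by
  revert m; decide

theorem d01_rel {x y z : ℂ} (hx : x ≠ 0) (w u v : Fin 6 → ℂ)
    (h0 : x * w 0 + y * u 0 + z * v 0 = 0) (h1 : x * w 1 + y * u 1 + z * v 1 = 0)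
    (h2 : x * w 2 + y * u 2 + z * v 2 = 0) :
    ∃ α β : ℂ, w 0 = α * u 0 + β * v 0 ∧ w 1 = α * u 1 + β * v 1 ∧ w 2 = α * u 2 + β * v 2 := by
  refine ⟨-(y / x), -(z / x), ?_, ?_, ?_⟩
  · field_simp
    linear_combination h0
  · field_simp
    linear_combination h1
  · field_simp
    linear_combination h2

theorem d01_bd4 {J : Fin 3 → Fin 6 → ℂ} (m : Fin 3) {α β γ : ℂ}
    (h : J m = α • J (m + 1) + β • J (m + 2) + crs γ (J (m + 1)) (J (m + 2))) :
    ∃ m θ, J = bd4 m θ := by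
  refine ⟨m, (J (m + 1), J (m + 2), α, β, γ), ?_⟩
  funext l
  obtain ⟨n1, n2, n3⟩ := d01_ne m
  rcases d01_three l m with rfl | rfl | rfl
  · simp only [bd4, if_true]
    exact h
  · simp only [bd4, if_neg n1, if_true]
  · simp only [bd4, if_neg n2, if_neg n3]

theorem bad_four_pr {J : Fin 3 → Fin 6 → ℂ} (h1 : ∃ l, J l 0 ≠ 0)
    (h2 : ∀ θ, J ≠ bd2 θ) (h0 : dlj J = 0) (hd : ∀ d, ddl d J = 0) : ∃ m θ, J = bd4 m θ := by
  obtain ⟨x, hx0, hx⟩ := Matrix.exists_vecMul_eq_zero_iff.2 h0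
  -- the relation
  have hrel : ∀ c : Fin 3, x 0 * rw1 (J 0) c + x 1 * rw1 (J 1) c + x 2 * rw1 (J 2) c = 0 := by
    intro c
    have := congrFun hx c
    simpa [Matrix.vecMul, dotProduct, Fin.sum_univ_three] using this
  have r0 := hrel 0
  have r1 := hrel 1
  have r2 := hrel 2
  simp only [rw1, Matrix.cons_val_zero, Matrix.cons_val_one, Matrix.cons_val] at r0 r1 r2
  have hd0 := hd 0
  have hd1 := hd 1
  -- proportional rows
  have hbd : ∀ (w : Fin 3 → ℂ) (a : Fin 3 → ℂ), (∀ l, J l 0 = a l * w 0) →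
      (∀ l, J l 1 = a l * w 1) → (∀ l, J l 2 = a l * w 2) → False := by
    intro w a e0 e1 e2
    refine h2 (a, w, fun l => ![J l 3, J l 4, J l 5]) ?_
    funext l c
    fin_cases c
    · simp [bd2, e0 l]
    · simp [bd2, e1 l]
    · simp [bd2, e2 l]
    · simp [bd2]
    · simp [bd2]
    · simp [bd2]
  have hnp : ∀ (m : Fin 3) (α β : ℂ), (∀ c : Fin 3, rw1 (J m) c =
      α * rw1 (J (m + 1)) c + β * rw1 (J (m + 2)) c) →
      ¬ (J (m + 1) 0 * J (m + 2) 1 = J (m + 1) 1 * J (m + 2) 0 ∧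
        J (m + 1) 0 * J (m + 2) 2 = J (m + 1) 2 * J (m + 2) 0 ∧
        J (m + 1) 1 * J (m + 2) 2 = J (m + 1) 2 * J (m + 2) 1) := by
    rintro m α β hm ⟨c01, c02, c12⟩
    obtain ⟨w, a, b, ha, hb⟩ := d01_prop (rw1 (J (m + 1))) (rw1 (J (m + 2)))
      (by simpa [rw1] using c01) (by simpa [rw1] using c02) (by simpa [rw1] using c12)
    have key : ∀ l c, rw1 (J l) c = (if l = m then α * a + β * b else if l = m + 1 then a else b) *
        w c := by
      intro l c
      have hl : l = m ∨ l = m + 1 ∨ l = m + 2 := d01_three l m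
      have n1 : m + 1 ≠ m := (d01_ne m).1
      have n2 : m + 2 ≠ m := (d01_ne m).2.1
      have n3 : m + 2 ≠ m + 1 := (d01_ne m).2.2
      rcases hl with rfl | rfl | rfl
      · rw [if_pos rfl, hm c, ha c, hb c]; ring
      · rw [if_neg n1, if_pos rfl, ha c]
      · rw [if_neg n2, if_neg n3, hb c]
    exact hbd w _ (fun l => key l 0) (fun l => key l 1) (fun l => key l 2)
  obtain ⟨m, hm⟩ : ∃ m, x m ≠ 0 := by
    by_contra hcon
    push Not at hcon
    exact hx0 (funext hcon)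
  simp only [ddl, Fin.sum_univ_three, Matrix.det_fin_three, drw, rw1, Matrix.of_apply,
    Fin.isValue, Matrix.cons_val_zero, Matrix.cons_val_one, Matrix.cons_val, if_true,
    show (0 : Fin 3) ≠ 1 from by decide, show (0 : Fin 3) ≠ 2 from by decide,
    show (1 : Fin 3) ≠ 0 from by decide, show (1 : Fin 3) ≠ 2 from by decide,
    show (2 : Fin 3) ≠ 0 from by decide, show (2 : Fin 3) ≠ 1 from by decide,
    show (1 : Fin 2) ≠ 0 from by decide, if_false] at hd0 hd1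
  have hv : ∀ m : Fin 3, ∀ α β : ℂ, J m 0 = α * J (m + 1) 0 + β * J (m + 2) 0 →
      J (m + 1) 0 ≠ 0 ∨ J (m + 2) 0 ≠ 0 := by
    intro m α β h
    by_contra hcon
    push Not at hcon
    obtain ⟨l, hl⟩ := h1
    apply hl
    rcases d01_three l m with rfl | rfl | rfl
    · rw [h, hcon.1, hcon.2]; ring
    · exact hcon.1
    · exact hcon.2
  have hfin : ∀ (m : Fin 3) (α β : ℂ), J m 0 = α * J (m + 1) 0 + β * J (m + 2) 0 →
      J m 1 = α * J (m + 1) 1 + β * J (m + 2) 1 → J m 2 = α * J (m + 1) 2 + β * J (m + 2) 2 →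
      (J m 3 - α * J (m + 1) 3 - β * J (m + 2) 3) *
        (J (m + 1) 2 * J (m + 2) 0 - J (m + 1) 0 * J (m + 2) 2) +
      (J m 4 - α * J (m + 1) 4 - β * J (m + 2) 4) *
        (J (m + 1) 0 * J (m + 2) 1 - J (m + 1) 1 * J (m + 2) 0) = 0 →
      (J m 4 - α * J (m + 1) 4 - β * J (m + 2) 4) *
        (J (m + 1) 2 * J (m + 2) 0 - J (m + 1) 0 * J (m + 2) 2) +
      (J m 5 - α * J (m + 1) 5 - β * J (m + 2) 5) *
        (J (m + 1) 0 * J (m + 2) 1 - J (m + 1) 1 * J (m + 2) 0) = 0 →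
      ∃ m θ, J = bd4 m θ := by
    intro m α β w0 w1 w2 e0 e1
    obtain ⟨γ, hγ⟩ := d01_core (J m) (J (m + 1)) (J (m + 2)) α β w0 w1 w2 (hv m α β w0)
      (hnp m α β (fun c => by fin_cases c <;> simpa [rw1])) e0 e1
    exact d01_bd4 m hγ
  fin_cases m
  · obtain ⟨α, β, w0, w1, w2⟩ := d01_rel (x := x 0) (y := x 1) (z := x 2) hm (J 0) (J 1) (J 2) r0 r1 r2
    refine hfin 0 α β w0 w1 w2 ?_ ?_
    · rw [w0, w1, w2] at hd0
      show (J 0 3 - α * J 1 3 - β * J 2 3) * (J 1 2 * J 2 0 - J 1 0 * J 2 2) +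
        (J 0 4 - α * J 1 4 - β * J 2 4) * (J 1 0 * J 2 1 - J 1 1 * J 2 0) = 0
      linear_combination hd0
    · rw [w0, w1, w2] at hd1
      show (J 0 4 - α * J 1 4 - β * J 2 4) * (J 1 2 * J 2 0 - J 1 0 * J 2 2) +
        (J 0 5 - α * J 1 5 - β * J 2 5) * (J 1 0 * J 2 1 - J 1 1 * J 2 0) = 0
      linear_combination hd1
  · obtain ⟨α, β, w0, w1, w2⟩ := d01_rel (x := x 1) (y := x 2) (z := x 0) hm (J 1) (J 2) (J 0)
      (by linear_combination r0) (by linear_combination r1) (by linear_combination r2)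
    refine hfin 1 α β w0 w1 w2 ?_ ?_
    · rw [w0, w1, w2] at hd0
      show (J 1 3 - α * J 2 3 - β * J 0 3) * (J 2 2 * J 0 0 - J 2 0 * J 0 2) +
        (J 1 4 - α * J 2 4 - β * J 0 4) * (J 2 0 * J 0 1 - J 2 1 * J 0 0) = 0
      linear_combination hd0
    · rw [w0, w1, w2] at hd1
      show (J 1 4 - α * J 2 4 - β * J 0 4) * (J 2 2 * J 0 0 - J 2 0 * J 0 2) +
        (J 1 5 - α * J 2 5 - β * J 0 5) * (J 2 0 * J 0 1 - J 2 1 * J 0 0) = 0
      linear_combination hd1
  · obtain ⟨α, β, w0, w1, w2⟩ := d01_rel (x := x 2) (y := x 0) (z := x 1) hm (J 2) (J 0) (J 1)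
      (by linear_combination r0) (by linear_combination r1) (by linear_combination r2)
    refine hfin 2 α β w0 w1 w2 ?_ ?_
    · rw [w0, w1, w2] at hd0
      show (J 2 3 - α * J 0 3 - β * J 1 3) * (J 0 2 * J 1 0 - J 0 0 * J 1 2) +
        (J 2 4 - α * J 0 4 - β * J 1 4) * (J 0 0 * J 1 1 - J 0 1 * J 1 0) = 0
      linear_combination hd0
    · rw [w0, w1, w2] at hd1
      show (J 2 4 - α * J 0 4 - β * J 1 4) * (J 0 2 * J 1 0 - J 0 0 * J 1 2) +
        (J 2 5 - α * J 0 5 - β * J 1 5) * (J 0 0 * J 1 1 - J 0 1 * J 1 0) = 0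
      linear_combination hd1

end Pool.Agent.GG.PD
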