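import Pool.Agent.Lib_helper80.GG.DDefs

set_option autoImplicit false
set_option linter.unusedVariables false

open Filter Topology Metric Set
open scoped Manifold ContDiff

namespace Pool.Agent.GG.PD

open Pool.Agent.BR

private theorem d03_pd_an {f : V2 → ℂ} {ξ : V2} (hf : AnalyticAt ℂ f ξ) (d : Fin 2) :
    AnalyticAt ℂ (pd d f) ξ := by
  have h1 := hf.fderiv
  exact ((ContinuousLinearMap.apply ℂ ℂ (Pi.single d (1 : ℂ) : V2)).analyticAt _).comp h1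

private theorem d03_jet_an {f : V2 → ℂ} {ξ : V2} (hf : AnalyticAt ℂ f ξ) :
    AnalyticAt ℂ (jet2 f) ξ := by
  rw [analyticAt_pi_iff]
  intro i
  fin_cases i
  · exact hf
  · exact d03_pd_an hf 0
  · exact d03_pd_an hf 1
  · exact d03_pd_an (d03_pd_an hf 0) 0
  · exact d03_pd_an (d03_pd_an hf 1) 0
  · exact d03_pd_an (d03_pd_an hf 1) 1

/-- the continuous linear map `c ↦ JL f ξ c` -/
private noncomputable def d03L {M : ℕ} (f : Fin M → V2 → ℂ) (ξ : V2) :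
    (Fin M → ℂ) →L[ℂ] (Fin 6 → ℂ) :=
  ∑ j, (ContinuousLinearMap.proj (R := ℂ) (φ := fun _ : Fin M => ℂ) j).smulRight (jet2 (f j) ξ)

private theorem d03L_apply {M : ℕ} (f : Fin M → V2 → ℂ) (ξ : V2) (c : Fin M → ℂ) :
    d03L f ξ c = JL f ξ c := by
  unfold d03L JL
  rw [_root_.sum_apply]
  rfl

private theorem d03L_an {M : ℕ} {f : Fin M → V2 → ℂ} {ξ : V2} (hf : ∀ j, AnalyticAt ℂ (f j) ξ) :
    AnalyticAt ℂ (d03L f) ξ := by
  unfold d03L
  have h : ∀ j ∈ (Finset.univ : Finset (Fin M)), AnalyticAt ℂ (fun ξ =>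
      (ContinuousLinearMap.proj (R := ℂ) (φ := fun _ : Fin M => ℂ) j).smulRight
        (jet2 (f j) ξ)) ξ := by
    intro j _
    exact ((ContinuousLinearMap.smulRightL ℂ (Fin M → ℂ) (Fin 6 → ℂ)
      (ContinuousLinearMap.proj (R := ℂ) (φ := fun _ : Fin M => ℂ) j)).analyticAt _).comp
        (d03_jet_an (hf j))
  exact Finset.analyticAt_fun_sum _ h

theorem bad_thin_pr {M : ℕ} {P : Type} [NormedAddCommGroup P] [NormedSpace ℂ P]
    [FiniteDimensional ℂ P]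
    (hP : Module.finrank ℂ P ≤ 15) {β : P → Fin 3 → Fin 6 → ℂ} (hβ : ContDiff ℂ 1 β)
    {f : Fin M → V2 → ℂ} {ξ₀ : V2} (hf : ∀ j, AnalyticAt ℂ (f j) ξ₀)
    (hs : ∀ v, ∃ c, JL f ξ₀ c = v) :
    ∃ ε > 0, Thin {c : Fin 3 → Fin M → ℂ | ∃ ξ ∈ ball ξ₀ ε, ∃ θ : P, (fun l => JL f ξ (c l)) = β θ} := by
  have hsurj : Function.Surjective (d03L f ξ₀ : (Fin M → ℂ) →ₗ[ℂ] (Fin 6 → ℂ)) := by
    intro v
    obtain ⟨c, hc⟩ := hs v
    exact ⟨c, by simpa [d03L_apply] using hc⟩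
  obtain ⟨R₀, hR₀⟩ := LinearMap.exists_rightInverse_of_surjective
    (d03L f ξ₀ : (Fin M → ℂ) →ₗ[ℂ] (Fin 6 → ℂ)) (LinearMap.range_eq_top.2 hsurj)
  set R : (Fin 6 → ℂ) →L[ℂ] (Fin M → ℂ) := LinearMap.toContinuousLinearMap R₀ with hR
  have hRL : ∀ v, d03L f ξ₀ (R v) = v := by
    intro v
    have := LinearMap.congr_fun hR₀ v
    simpa [hR] using this
  set K : Submodule ℂ (Fin M → ℂ) := LinearMap.ker (d03L f ξ₀ : (Fin M → ℂ) →ₗ[ℂ] (Fin 6 → ℂ))
    with hK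
  have hKd : Module.finrank ℂ K + 6 = M := by
    have := LinearMap.finrank_range_add_finrank_ker
      (d03L f ξ₀ : (Fin M → ℂ) →ₗ[ℂ] (Fin 6 → ℂ))
    rw [LinearMap.range_eq_top.2 hsurj] at this
    simp only [finrank_top, Module.finrank_fin_fun] at this
    rw [← hK] at this
    omega
  -- the map `A ξ = L ξ ∘ R`
  set Am : V2 → ((Fin 6 → ℂ) →L[ℂ] (Fin 6 → ℂ)) := fun ξ => (d03L f ξ).comp R with hAm
  have hAm0 : Am ξ₀ = 1 := by
    ext1 v
    simp [hAm, hRL]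
  have hAn : ∀ {ξ : V2}, (∀ j, AnalyticAt ℂ (f j) ξ) → AnalyticAt ℂ Am ξ := by
    intro ξ h
    have h1 := d03L_an h
    exact (((ContinuousLinearMap.compL ℂ (Fin 6 → ℂ) (Fin M → ℂ) (Fin 6 → ℂ)).flip
      R).analyticAt _).comp h1
  have hev1 : ∀ᶠ ξ in 𝓝 ξ₀, ∀ j, AnalyticAt ℂ (f j) ξ := by
    rw [eventually_all]
    exact fun j => (hf j).eventually_analyticAt
  have hev2 : ∀ᶠ ξ in 𝓝 ξ₀, IsUnit (Am ξ) := by
    have hc : ContinuousAt Am ξ₀ := (hAn hf).continuousAt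
    have : {x : (Fin 6 → ℂ) →L[ℂ] (Fin 6 → ℂ) | IsUnit x} ∈ 𝓝 (Am ξ₀) := by
      rw [hAm0]
      exact Units.isOpen.mem_nhds isUnit_one
    exact hc this
  obtain ⟨ε, hε, hball⟩ := Metric.eventually_nhds_iff_ball.1 (hev1.and hev2)
  refine ⟨ε, hε, ?_⟩
  -- the map
  set Φ : V2 × P × (Fin 3 → K) → (Fin 3 → Fin M → ℂ) := fun x l =>
    R (Ring.inverse (Am x.1) (β x.2.1 l - d03L f x.1 (x.2.2 l : Fin M → ℂ))) +
      (x.2.2 l : Fin M → ℂ) with hΦ
  set D : Set (V2 × P × (Fin 3 → K)) := (ball ξ₀ ε) ×ˢ (univ : Set (P × (Fin 3 → K))) with hD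
  have hDc : Convex ℝ D := (convex_ball ξ₀ ε).prod convex_univ
  have hΦd : ContDiffOn ℂ 1 Φ D := by
    intro x hx
    have hx1 : x.1 ∈ ball ξ₀ ε := hx.1
    obtain ⟨ha, hu⟩ := hball x.1 hx1
    apply ContDiffAt.contDiffWithinAt
    rw [contDiffAt_pi]
    intro l
    have h1 : ContDiffAt ℂ 1 (fun x : V2 × P × (Fin 3 → K) => Am x.1) x :=
      ContDiffAt.fun_comp x ((hAn ha).contDiffAt) contDiffAt_fst
    have h2 : ContDiffAt ℂ 1 (fun x : V2 × P × (Fin 3 → K) => Ring.inverse (Am x.1)) x := by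
      obtain ⟨u, hu'⟩ := hu
      have h3 : ContDiffAt ℂ 1 (Ring.inverse : ((Fin 6 → ℂ) →L[ℂ] (Fin 6 → ℂ)) → _) (Am x.1) := by
        rw [← hu']
        exact contDiffAt_ringInverse ℂ u
      exact ContDiffAt.fun_comp x h3 h1
    have h4 : ContDiffAt ℂ 1 (fun x : V2 × P × (Fin 3 → K) => d03L f x.1) x :=
      ContDiffAt.fun_comp x ((d03L_an ha).contDiffAt) contDiffAt_fst
    have h5 : ContDiffAt ℂ 1 (fun x : V2 × P × (Fin 3 → K) => (x.2.2 l : Fin M → ℂ)) x := by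
      have : (fun x : V2 × P × (Fin 3 → K) => (x.2.2 l : Fin M → ℂ)) =
          fun x => ((K.subtypeL).comp ((ContinuousLinearMap.proj (R := ℂ)
            (φ := fun _ : Fin 3 => K) l).comp ((ContinuousLinearMap.snd ℂ P (Fin 3 → K)).comp
              (ContinuousLinearMap.snd ℂ V2 (P × (Fin 3 → K)))))) x := rfl
      rw [this]
      exact ContinuousLinearMap.contDiff _ |>.contDiffAt
    have h6 : ContDiffAt ℂ 1 (fun x : V2 × P × (Fin 3 → K) => β x.2.1 l) x := by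
      have h7 : ContDiff ℂ 1 (fun x : V2 × P × (Fin 3 → K) => β x.2.1) :=
        hβ.comp (contDiff_fst.comp contDiff_snd)
      exact ((contDiff_pi.1 h7) l).contDiffAt
    have h8 : ContDiffAt ℂ 1 (fun x : V2 × P × (Fin 3 → K) =>
        β x.2.1 l - d03L f x.1 (x.2.2 l : Fin M → ℂ)) x := h6.sub (h4.clm_apply h5)
    have h9 : ContDiffAt ℂ 1 (fun x : V2 × P × (Fin 3 → K) =>
        Ring.inverse (Am x.1) (β x.2.1 l - d03L f x.1 (x.2.2 l : Fin M → ℂ))) x :=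
      h2.clm_apply h8
    exact (R.contDiff.contDiffAt.comp x h9).add h5
  have hsub : {c : Fin 3 → Fin M → ℂ | ∃ ξ ∈ ball ξ₀ ε, ∃ θ : P,
      (fun l => JL f ξ (c l)) = β θ} ⊆ Φ '' D := by
    rintro c ⟨ξ, hξ, θ, hθ⟩
    obtain ⟨ha, hu⟩ := hball ξ hξ
    have hk : ∀ l, c l - R (d03L f ξ₀ (c l)) ∈ K := by
      intro l
      rw [hK, LinearMap.mem_ker]
      simp [hRL]
    refine ⟨(ξ, θ, fun l => ⟨c l - R (d03L f ξ₀ (c l)), hk l⟩), ⟨hξ, mem_univ _⟩, ?_⟩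
    funext l
    have h1 : β θ l = d03L f ξ (c l) := by
      rw [d03L_apply, ← hθ]
    have h2 : β θ l - d03L f ξ (c l - R (d03L f ξ₀ (c l))) = Am ξ (d03L f ξ₀ (c l)) := by
      rw [h1, map_sub]
      simp [hAm]
    simp only [hΦ]
    rw [h2]
    have h3 : Ring.inverse (Am ξ) (Am ξ (d03L f ξ₀ (c l))) = d03L f ξ₀ (c l) := by
      have := Ring.inverse_mul_cancel (Am ξ) hu
      calc Ring.inverse (Am ξ) (Am ξ (d03L f ξ₀ (c l)))
          = (Ring.inverse (Am ξ) * Am ξ) (d03L f ξ₀ (c l)) := rfl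
        _ = _ := by rw [this]; rfl
    rw [h3]
    abel
  unfold Thin
  have hdim : dimH {c : Fin 3 → Fin M → ℂ | ∃ ξ ∈ ball ξ₀ ε, ∃ θ : P,
      (fun l => JL f ξ (c l)) = β θ} ≤ Module.finrank ℝ (V2 × P × (Fin 3 → K)) := by
    calc dimH _ ≤ dimH (Φ '' D) := dimH_mono hsub
      _ ≤ dimH D := (hΦd.restrict_scalars ℝ).dimH_image_le hDc subset_rfl
      _ ≤ dimH (univ : Set (V2 × P × (Fin 3 → K))) := dimH_mono (subset_univ _)
      _ = _ := Real.dimH_univ_eq_finrank _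
  have hfr : Module.finrank ℝ (V2 × P × (Fin 3 → K)) + 1 ≤
      Module.finrank ℝ (Fin 3 → Fin M → ℂ) := by
    have e1 : Module.finrank ℝ (V2 × P × (Fin 3 → K)) =
        2 * Module.finrank ℂ (V2 × P × (Fin 3 → K)) := finrank_real_of_complex _
    have e2 : Module.finrank ℝ (Fin 3 → Fin M → ℂ) =
        2 * Module.finrank ℂ (Fin 3 → Fin M → ℂ) := finrank_real_of_complex _
    have e3 : Module.finrank ℂ V2 = 2 := Module.finrank_fin_fun ℂ
    have e4 : Module.finrank ℂ (Fin 3 → K) = 3 * Module.finrank ℂ K := by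
      rw [Module.finrank_pi_fintype]
      simp
    have e5 : Module.finrank ℂ (Fin 3 → Fin M → ℂ) = 3 * M := by
      rw [Module.finrank_pi_fintype]
      simp
    rw [e1, e2, Module.finrank_prod, Module.finrank_prod, e3, e4, e5]
    omega
  calc _ ≤ ((Module.finrank ℝ (V2 × P × (Fin 3 → K)) : ℕ) : ENNReal) + 1 := by gcongr
    _ ≤ _ := by exact_mod_cast hfr

end Pool.Agent.GG.PD
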