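import Pool.Agent.Lib_helper80.GG.DDefs

/-! GG, block D04: countable unions of thin sets -/

set_option autoImplicit false

open Filter Topology Metric Set

namespace Pool.Agent.GG.PD

open Pool.Agent.BR

theorem thin_union_pr {F : Type} [NormedAddCommGroup F] [NormedSpace ℂ F] [FiniteDimensional ℂ F]
    {ι : Type} [Countable ι] {S : ι → Set F} (hS : ∀ i, Thin (S i)) : ∃ x, ∀ i, x ∉ S i := by
  rcases isEmpty_or_nonempty ι with hι | ⟨⟨i₀⟩⟩
  · exact ⟨0, fun i => isEmptyElim i⟩
  haveI : FiniteDimensional ℝ F := FiniteDimensional.complexToReal F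
  have h0 : dimH (S i₀) + 1 ≤ Module.finrank ℝ F := hS i₀
  have hn : ((Module.finrank ℝ F : ℕ) : ENNReal) ≠ 0 := by
    intro h
    rw [h] at h0
    have : (1 : ENNReal) ≤ 0 := le_trans (le_add_self) h0
    simp at this
  have hlt : dimH (⋃ i, S i) < (Module.finrank ℝ F : ℕ) := by
    refine lt_of_le_of_lt (b := ((Module.finrank ℝ F : ℕ) : ENNReal) - 1) ?_ ?_
    · rw [dimH_iUnion]
      refine iSup_le fun i => ?_
      have h1 : dimH (S i) + 1 ≤ Module.finrank ℝ F := hS i
      exact ENNReal.le_sub_of_add_le_right ENNReal.one_ne_top h1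
    · exact ENNReal.sub_lt_self (ENNReal.natCast_ne_top _) hn one_ne_zero
  have hd := dense_compl_of_dimH_lt_finrank hlt
  obtain ⟨x, hx⟩ := hd.nonempty
  refine ⟨x, fun i hi => hx (mem_iUnion.2 ⟨i, hi⟩)⟩

end Pool.Agent.GG.PD
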