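import Pool.Agent.Lib_helper80.GG.DDefs

/-! GG, block D05: two-jets of combinations -/

set_option autoImplicit false

open Filter Topology Metric Set

namespace Pool.Agent.GG.PD

open Pool.Agent.BR

theorem d05_an {f : V2 → ℂ} {z : V2} (hf : AnalyticAt ℂ f z) (j : Fin 2) :
    AnalyticAt ℂ (pd j f) z := by
  unfold pd
  exact (ContinuousLinearMap.apply ℂ ℂ (Pi.single j (1 : ℂ) : V2)).analyticAt _ |>.comp hf.fderiv

theorem d05_one {M : ℕ} {f : Fin M → V2 → ℂ} {ξ : V2} (hf : ∀ j, AnalyticAt ℂ (f j) ξ)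
    (c : Fin M → ℂ) (k : Fin 2) :
    pd k (fun η => ∑ j, c j * f j η) ξ = ∑ j, c j * pd k (f j) ξ := by
  have h : HasFDerivAt (fun η => ∑ j, c j * f j η) (∑ j, c j • fderiv ℂ (f j) ξ) ξ := by
    apply HasFDerivAt.fun_sum
    intro j _
    exact (hf j).differentiableAt.hasFDerivAt.const_mul (c j)
  unfold pd
  rw [h.fderiv]
  simp

theorem d05_two {M : ℕ} {f : Fin M → V2 → ℂ} {ξ : V2} (hf : ∀ j, AnalyticAt ℂ (f j) ξ)
    (c : Fin M → ℂ) (d k : Fin 2) :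
    pd d (pd k (fun η => ∑ j, c j * f j η)) ξ = ∑ j, c j * pd d (pd k (f j)) ξ := by
  have h1 : ∀ᶠ η in 𝓝 ξ, ∀ j, AnalyticAt ℂ (f j) η := by
    rw [Filter.eventually_all]
    intro j
    exact (hf j).eventually_analyticAt
  have h2 : pd k (fun η => ∑ j, c j * f j η) =ᶠ[𝓝 ξ] fun η => ∑ j, c j * pd k (f j) η := by
    filter_upwards [h1] with η hη
    exact d05_one hη c k
  have h3 : pd d (pd k (fun η => ∑ j, c j * f j η)) ξ =
      pd d (fun η => ∑ j, c j * pd k (f j) η) ξ := by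
    show fderiv ℂ (pd k (fun η => ∑ j, c j * f j η)) ξ (Pi.single d (1 : ℂ)) =
      fderiv ℂ (fun η => ∑ j, c j * pd k (f j) η) ξ (Pi.single d (1 : ℂ))
    rw [h2.fderiv_eq]
  rw [h3]
  exact d05_one (fun j => d05_an (hf j) k) c d

/-- BLOCK D05. -/
theorem jet2_sum_pr {M : ℕ} {f : Fin M → V2 → ℂ} {ξ : V2} (hf : ∀ j, AnalyticAt ℂ (f j) ξ)
    (c : Fin M → ℂ) : jet2 (fun η => ∑ j, c j * f j η) ξ = JL f ξ c := by
  funext i
  unfold JL
  rw [Finset.sum_apply]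
  fin_cases i
  · simp [jet2]
  · simp [jet2, d05_one hf c 0]
  · simp [jet2, d05_one hf c 1]
  · simp [jet2, d05_two hf c 0 0]
  · simp [jet2, d05_two hf c 0 1]
  · simp [jet2, d05_two hf c 1 1]

end Pool.Agent.GG.PD

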