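import Pool.Agent.Lib_helper80.GG.DDefs
import Pool.Agent.Lib_helper80.GG.B.D01
import Pool.Agent.Lib_helper80.GG.B.D03
import Pool.Agent.Lib_helper80.GG.B.D04
import Pool.Agent.Lib_helper80.GG.B.D05

/-! # Block D06 of project GG (helper80): general position -/

set_option autoImplicit false

open Filter Topology Metric Set

namespace Pool.Agent.GG.PD

open Pool.Agent.BR

theorem d06_mono {F : Type} [NormedAddCommGroup F] [NormedSpace ℂ F] {S S' : Set F} (h : Thin S)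
    (hS : S' ⊆ S) : Thin S' :=
  le_trans (add_le_add_left (dimH_mono hS) 1) h

/-- the bad sets -/
def d06_bd : Fin 6 → Set (Fin 3 → Fin 6 → ℂ) :=
  ![range bd1, range bd2, range bd3, range (bd4 0), range (bd4 1), range (bd4 2)]

theorem d06_c1 : ContDiff ℂ 1 bd1 := by
  refine contDiff_pi.2 fun l => contDiff_pi.2 fun p => ?_
  fin_cases p <;> simp [bd1] <;> fun_prop

theorem d06_c2 : ContDiff ℂ 1 bd2 := by
  refine contDiff_pi.2 fun l => contDiff_pi.2 fun p => ?_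
  fin_cases p <;> simp [bd2] <;> fun_prop

theorem d06_c3 : ContDiff ℂ 1 bd3 := by
  refine contDiff_pi.2 fun l => contDiff_pi.2 fun p => ?_
  fin_cases l <;> fin_cases p <;> simp [bd3] <;> fun_prop

theorem d06_c4 (m : Fin 3) : ContDiff ℂ 1 (bd4 m) := by
  refine contDiff_pi.2 fun l => contDiff_pi.2 fun p => ?_
  by_cases h1 : l = m
  · fin_cases p <;> simp [bd4, h1, crs] <;> fun_prop
  · by_cases h2 : l = m + 1
    · simp only [bd4, if_neg h1, if_pos h2]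
      fun_prop
    · simp only [bd4, if_neg h1, if_neg h2]
      fun_prop

theorem d06_gen {J : Fin 3 → Fin 6 → ℂ} (h : ∀ k, J ∉ d06_bd k) : Gen1 J := by
  have g1 : ∃ l, J l 0 ≠ 0 := by
    by_contra hcon
    push Not at hcon
    refine h 0 ⟨fun l => ![J l 1, J l 2, J l 3, J l 4, J l 5], ?_⟩
    funext l p
    fin_cases p <;> simp [bd1, hcon l]
  have rk : ∀ θ, J ≠ bd2 θ := fun θ e => h 1 ⟨θ, e.symm⟩
  refine ⟨g1, rk, ?_, ?_⟩
  · intro h0
    by_contra hcon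
    push Not at hcon
    refine h 2 ⟨(![J 0 3, J 0 4, J 0 5], J 1, J 2), ?_⟩
    funext l p
    fin_cases l
    · fin_cases p <;> simp [bd3, h0, hcon.1, hcon.2]
    · simp [bd3]
    · simp [bd3]
  · intro h0
    by_contra hcon
    push Not at hcon
    obtain ⟨m, θ, e⟩ := bad_four_pr g1 rk h0 (fun d => by
      fin_cases d
      · exact hcon.1
      · exact hcon.2)
    fin_cases m
    · exact h 3 ⟨θ, e.symm⟩
    · exact h 4 ⟨θ, e.symm⟩
    · exact h 5 ⟨θ, e.symm⟩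

theorem d06_loc {M : ℕ} {f : Fin M → V2 → ℂ} {ξ₀ : V2} (hf : ∀ j, AnalyticAt ℂ (f j) ξ₀)
    (hs : ∀ v, ∃ c, JL f ξ₀ c = v) :
    ∃ ε > 0, ∀ k, Thin {c : Fin 3 → Fin M → ℂ | ∃ ξ ∈ ball ξ₀ ε,
      (fun l => JL f ξ (c l)) ∈ d06_bd k} := by
  have key : ∀ k, ∃ ε > 0, Thin {c : Fin 3 → Fin M → ℂ | ∃ ξ ∈ ball ξ₀ ε,
      (fun l => JL f ξ (c l)) ∈ d06_bd k} := by
    intro k
    have aux : ∀ {P : Type} [NormedAddCommGroup P] [NormedSpace ℂ P] [FiniteDimensional ℂ P]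
        (_ : Module.finrank ℂ P ≤ 15) {β : P → Fin 3 → Fin 6 → ℂ} (_ : ContDiff ℂ 1 β),
        ∃ ε > 0, Thin {c : Fin 3 → Fin M → ℂ | ∃ ξ ∈ ball ξ₀ ε,
          (fun l => JL f ξ (c l)) ∈ range β} := by
      intro P _ _ _ hP β hβ
      obtain ⟨ε, hε, h⟩ := bad_thin_pr hP hβ hf hs
      refine ⟨ε, hε, d06_mono h ?_⟩
      rintro c ⟨ξ, hξ, θ, hθ⟩
      exact ⟨ξ, hξ, θ, hθ.symm⟩
    fin_cases k
    · exact aux (by simp [Module.finrank_pi_fintype]) d06_c1
    · exact aux (by simp [Module.finrank_pi_fintype]) d06_c2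
    · exact aux (by simp) d06_c3
    · exact aux (by simp) (d06_c4 0)
    · exact aux (by simp) (d06_c4 1)
    · exact aux (by simp) (d06_c4 2)
  have h1 : ∀ k, ∀ᶠ ε in 𝓝[>] (0 : ℝ), Thin {c : Fin 3 → Fin M → ℂ | ∃ ξ ∈ ball ξ₀ ε,
      (fun l => JL f ξ (c l)) ∈ d06_bd k} := by
    intro k
    obtain ⟨ε, hε, h⟩ := key k
    filter_upwards [Ioo_mem_nhdsGT hε] with r hr
    refine d06_mono h ?_
    rintro c ⟨ξ, hξ, h2⟩
    exact ⟨ξ, ball_subset_ball hr.2.le hξ, h2⟩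
  obtain ⟨ε, h2, h3⟩ := ((eventually_all.2 h1).and self_mem_nhdsWithin).exists
  exact ⟨ε, h3, h2⟩

section surface

variable {X : Type} [MetricSpace X] {A : Cha V2 X} {b : ℕ}

theorem exists_gen_pr [CompactSpace X] {M : ℕ} {a : Fin M → A.ι → X → ℂ} (ha : VV A b M a) :
    ∃ c : Fin 3 → Fin M → ℂ, ∀ i, ∀ x ∈ (A.ch i).source,
      Gen1 (fun l => jet2 (lz A i (cmb a (c l) i)) (A.ch i x)) := by
  have hloc : ∀ (i : A.ι) (x : X), x ∈ (A.ch i).source → ∃ ε > 0, ∀ k,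
      Thin {c : Fin 3 → Fin M → ℂ | ∃ ξ ∈ ball (A.ch i x) ε,
        (fun l => JL (fun j => lz A i (a j i)) ξ (c l)) ∈ d06_bd k} := by
    intro i x hx
    refine d06_loc (fun j => (ha.ps j).an i x hx) ?_
    intro v
    obtain ⟨c, h0, h1, h2, h3, h4, h5⟩ := ha.jet i x hx v
    refine ⟨c, ?_⟩
    funext p
    have e0 : ∀ j, lz A i (a j i) (A.ch i x) = a j i x := by
      intro j
      show a j i ((A.ch i).symm (A.ch i x)) = a j i x
      rw [(A.ch i).left_inv hx]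
    simp only [JL, Finset.sum_apply, Pi.smul_apply, smul_eq_mul]
    fin_cases p
    · simpa [jet2, e0] using h0
    · simpa [jet2, ds] using h1
    · simpa [jet2, ds] using h2
    · simpa [jet2] using h3
    · simpa [jet2] using h4
    · simpa [jet2] using h5
  choose! ε hε hth using hloc
  have hcov : ∀ i : A.ι, ∃ t ⊆ (A.ch i).source, t.Countable ∧ (A.ch i).source ⊆
      ⋃ x ∈ t, (A.ch i).source ∩ (A.ch i) ⁻¹' ball (A.ch i x) (ε i x) := by
    intro i
    refine TopologicalSpace.countable_cover_nhdsWithin ?_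
    intro x hx
    refine mem_nhdsWithin_of_mem_nhds ?_
    exact inter_mem ((A.ch i).open_source.mem_nhds hx)
      (((A.ch i).continuousAt hx).preimage_mem_nhds (ball_mem_nhds _ (hε i x hx)))
  choose t hts htc htcov using hcov
  have hfin := A.fin
  have : ∀ i, Countable (t i) := fun i => (htc i).to_subtype
  obtain ⟨c, hc⟩ := thin_union_pr (F := Fin 3 → Fin M → ℂ) (ι := (Σ i : A.ι, t i) × Fin 6)
    (S := fun q => {c : Fin 3 → Fin M → ℂ | ∃ ξ ∈ ball (A.ch q.1.1 q.1.2) (ε q.1.1 q.1.2),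
        (fun l => JL (fun j => lz A q.1.1 (a j q.1.1)) ξ (c l)) ∈ d06_bd q.2})
    (fun q => hth q.1.1 q.1.2 (hts q.1.1 q.1.2.2) q.2)
  refine ⟨c, fun i x hx => ?_⟩
  have hx' := htcov i hx
  simp only [mem_iUnion] at hx'
  obtain ⟨y, hy, hxy⟩ := hx'
  have e : (fun l => jet2 (lz A i (cmb a (c l) i)) (A.ch i x)) =
      fun l => JL (fun j => lz A i (a j i)) (A.ch i x) (c l) := by
    funext l
    exact jet2_sum_pr (f := fun j => lz A i (a j i)) (fun j => (ha.ps j).an i x hx) (c l)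
  rw [e]
  refine d06_gen fun k hk => ?_
  exact hc (⟨i, ⟨y, hy⟩⟩, k) ⟨A.ch i x, hxy.2, hk⟩

end surface

end Pool.Agent.GG.PD
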