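import Pool.Agent.Lib_helper80.GG.DDefs

/-! # GG, block D07: sections, combinations and zeros (helper20) -/

set_option autoImplicit false

open Filter Topology Metric Set
open scoped Manifold ContDiff

namespace Pool.Agent.GG.PD

open Pool.Agent.BR

section surface

variable {X : Type} [MetricSpace X] {A : Cha V2 X} {b : ℕ}

theorem ps_cmb_pr {M : ℕ} {a : Fin M → A.ι → X → ℂ} (ha : ∀ j, IS.PS A b (a j)) (c : Fin M → ℂ) :
    IS.PS A b (cmb a c) := by
  refine ⟨fun i x hx => ?_, fun i j x hi hj => ?_⟩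
  · show AnalyticAt ℂ (fun ξ => ∑ l, c l * a l i ((A.ch i).symm ξ)) (A.ch i x)
    apply Finset.analyticAt_fun_sum
    intro l _
    exact analyticAt_const.mul ((ha l).an i x hx)
  · show ∑ l, c l * a l i x = IS.jac A i j x ^ b * ∑ l, c l * a l j x
    rw [Finset.mul_sum]
    refine Finset.sum_congr rfl fun l _ => ?_
    rw [(ha l).tr i j x hi hj]
    ring

theorem ps_sc_pr {w : ℕ} {s : A.ι → X → ℂ} (hs : IS.PS A w s) : Sc A s := by
  refine ⟨fun i x hx => hs.an i x hx, fun i j x hi hj h => ?_⟩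
  rw [hs.tr i j x hi hj, h, mul_zero]

theorem mem_zs_pr {s : A.ι → X → ℂ} (hs : Sc A s) {i : A.ι} {x : X} (hx : x ∈ (A.ch i).source) :
    x ∈ ZS A s ↔ s i x = 0 := by
  constructor
  · intro h
    exact h i hx
  · intro h j hj
    exact hs.zr j i x hj hx h

theorem isClosed_zs_pr {s : A.ι → X → ℂ} (hs : Sc A s) : IsClosed (ZS A s) := by
  rw [← isOpen_compl_iff, isOpen_iff_mem_nhds]
  intro x hx
  have hx' : ¬ ∀ i, x ∈ (A.ch i).source → s i x = 0 := hx
  push Not at hx'
  obtain ⟨i, hi, hne⟩ := hx'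
  have h1 : ContinuousAt (fun y => lz A i (s i) (A.ch i y)) x :=
    (hs.an i x hi).continuousAt.comp_of_eq ((A.ch i).continuousAt hi) rfl
  have h2 : lz A i (s i) (A.ch i x) ≠ 0 := by
    show s i ((A.ch i).symm (A.ch i x)) ≠ 0
    rw [(A.ch i).left_inv hi]
    exact hne
  filter_upwards [h1.eventually_ne h2, (A.ch i).open_source.mem_nhds hi] with y hy hys hz
  apply hy
  show s i ((A.ch i).symm (A.ch i y)) = 0
  rw [(A.ch i).left_inv hys]
  exact hz i hys

end surface


end Pool.Agent.GG.PD
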