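import Pool.Agent.Lib_helper80.GG.DDefs

set_option autoImplicit false
set_option linter.unusedSectionVars false

open Filter Topology Metric Set

namespace Pool.Agent.GG.PD

open Pool.Agent.BR

theorem d08_pd_an {f : V2 → ℂ} {z : V2} (hf : AnalyticAt ℂ f z) (j : Fin 2) :
    AnalyticAt ℂ (pd j f) z := by
  have h := hf.fderiv
  exact ((ContinuousLinearMap.apply ℂ ℂ (Pi.single j (1 : ℂ) : V2)).analyticAt _).comp h

theorem d08_dl {T : Fin 3 → V2 → ℂ} {z : V2} : dl T z =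
    T 0 z * pd 0 (T 1) z * pd 1 (T 2) z - T 0 z * pd 1 (T 1) z * pd 0 (T 2) z -
    pd 0 (T 0) z * T 1 z * pd 1 (T 2) z + pd 0 (T 0) z * pd 1 (T 1) z * T 2 z +
    pd 1 (T 0) z * T 1 z * pd 0 (T 2) z - pd 1 (T 0) z * pd 0 (T 1) z * T 2 z := by
  unfold dl
  rw [Matrix.det_fin_three]
  simp

theorem d08_dl_an {T : Fin 3 → V2 → ℂ} {z : V2} (hT : ∀ j, AnalyticAt ℂ (T j) z) :
    AnalyticAt ℂ (dl T) z := by
  have e : dl T = fun z => T 0 z * pd 0 (T 1) z * pd 1 (T 2) z -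
      T 0 z * pd 1 (T 1) z * pd 0 (T 2) z -
      pd 0 (T 0) z * T 1 z * pd 1 (T 2) z + pd 0 (T 0) z * pd 1 (T 1) z * T 2 z +
      pd 1 (T 0) z * T 1 z * pd 0 (T 2) z - pd 1 (T 0) z * pd 0 (T 1) z * T 2 z := by
    funext z
    exact d08_dl
  rw [e]
  have h := fun i j => d08_pd_an (hT i) j
  exact ((((((hT 0).mul (h 1 0)).mul (h 2 1)).sub (((hT 0).mul (h 1 1)).mul (h 2 0))).sub
    (((h 0 0).mul (hT 1)).mul (h 2 1))).add (((h 0 0).mul (h 1 1)).mul (hT 2))).add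
    (((h 0 1).mul (hT 1)).mul (h 2 0)) |>.sub (((h 0 1).mul (h 1 0)).mul (hT 2))

theorem d08_lin (L : V2 →L[ℂ] ℂ) (v : V2) :
    L v = v 0 * L (Pi.single 0 1) + v 1 * L (Pi.single 1 1) := by
  have e : v = v 0 • (Pi.single 0 (1 : ℂ) : V2) + v 1 • (Pi.single 1 (1 : ℂ) : V2) := by
    ext j
    fin_cases j <;> simp
  conv_lhs => rw [e]
  rw [map_add, map_smul, map_smul, smul_eq_mul, smul_eq_mul]

theorem d08_det (L : V2 →L[ℂ] V2) : LinearMap.det (L : V2 →ₗ[ℂ] V2) =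
    L (Pi.single 0 1) 0 * L (Pi.single 1 1) 1 - L (Pi.single 1 1) 0 * L (Pi.single 0 1) 1 := by
  rw [← LinearMap.det_toMatrix', Matrix.det_fin_two]
  simp [LinearMap.toMatrix'_apply]

section surface

variable {X : Type} [MetricSpace X] {A : Cha V2 X} {b : ℕ}
  {T : Fin 3 → A.ι → X → ℂ}

theorem d08_lz (i : A.ι) {x : X} (hx : x ∈ (A.ch i).source) :
    lz A i (dlt A T i) =ᶠ[𝓝 (A.ch i x)] dl (lT A T i) := by
  have h1 : (A.ch i).target ∈ 𝓝 (A.ch i x) :=
    (A.ch i).open_target.mem_nhds ((A.ch i).map_source hx)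
  filter_upwards [h1] with z hz
  show dl (lT A T i) (A.ch i ((A.ch i).symm z)) = dl (lT A T i) z
  rw [(A.ch i).right_inv hz]

theorem d08_lT_an (hT : ∀ j, IS.PS A b (T j)) {i : A.ι} {x : X} (hx : x ∈ (A.ch i).source)
    (p : Fin 3) : AnalyticAt ℂ (lT A T i p) (A.ch i x) := (hT p).an i x hx

theorem ps_dlt_pr (hT : ∀ j, IS.PS A b (T j)) : IS.PS A (3 * b + 1) (dlt A T) := by
  constructor
  · intro i x hx
    exact (d08_dl_an (fun p => d08_lT_an hT hx p)).congr (d08_lz i hx).symm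
  · intro i j x hi hj
    set ξ := A.ch i x with hξ
    set Φ : V2 → V2 := fun η => A.ch j ((A.ch i).symm η) with hΦ
    have hΦa : AnalyticAt ℂ Φ ξ := A.trans i j x hi hj
    have hxi : (A.ch i).symm ξ = x := (A.ch i).left_inv hi
    have hΦξ : Φ ξ = A.ch j x := by rw [hΦ]; simp only [hxi]
    set φ : Fin 2 → Fin 2 → V2 → ℂ := fun r q η => fderiv ℂ Φ η (Pi.single q 1) r with hφ
    have hφa : ∀ r q, AnalyticAt ℂ (φ r q) ξ := by
      intro r q
      have h1 := hΦa.fderiv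
      have h2 : AnalyticAt ℂ (fun η => fderiv ℂ Φ η (Pi.single q (1 : ℂ) : V2)) ξ :=
        ((ContinuousLinearMap.apply ℂ V2 (Pi.single q (1 : ℂ) : V2)).analyticAt _).comp h1
      exact ((ContinuousLinearMap.proj (R := ℂ) (φ := fun _ : Fin 2 => ℂ) r).analyticAt _).comp h2
    set J : V2 → ℂ := fun η => φ 0 0 η * φ 1 1 η - φ 0 1 η * φ 1 0 η with hJ
    have hJa : AnalyticAt ℂ J ξ :=
      ((hφa 0 0).mul (hφa 1 1)).sub ((hφa 0 1).mul (hφa 1 0))
    have hJx : IS.jac A i j x = J ξ := by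
      unfold IS.jac IS.dtr
      rw [d08_det]
    have hlT : ∀ p, lT A T i p =ᶠ[𝓝 ξ] fun η => J η ^ b * lT A T j p (Φ η) := by
      intro p
      have h1 : (A.ch i).target ∈ 𝓝 ξ :=
        (A.ch i).open_target.mem_nhds ((A.ch i).map_source hi)
      have h2 : (A.ch i).symm ⁻¹' (A.ch j).source ∈ 𝓝 ξ := by
        have h3 := (A.ch i).continuousAt_symm ((A.ch i).map_source hi)
        refine h3.preimage_mem_nhds ((A.ch j).open_source.mem_nhds ?_)
        rw [← hξ, hxi]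
        exact hj
      filter_upwards [h1, h2] with η h3 h4
      have h5 : (A.ch i).symm η ∈ (A.ch i).source := (A.ch i).map_target h3
      have h6 : A.ch i ((A.ch i).symm η) = η := (A.ch i).right_inv h3
      have h7 := (hT p).tr i j _ h5 h4
      have h8 : IS.jac A i j ((A.ch i).symm η) = J η := by
        unfold IS.jac IS.dtr
        rw [d08_det, h6]
      show T p i ((A.ch i).symm η) = J η ^ b * T p j ((A.ch j).symm (A.ch j ((A.ch i).symm η)))
      rw [h7, h8, (A.ch j).left_inv h4]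
    have hval : ∀ p, lT A T i p ξ = J ξ ^ b * lT A T j p (A.ch j x) := fun p => by
      rw [(hlT p).eq_of_nhds, hΦξ]
    have hder : ∀ p q, pd q (lT A T i p) ξ = pd q (fun η => J η ^ b) ξ * lT A T j p (A.ch j x) +
        J ξ ^ b * (φ 0 q ξ * pd 0 (lT A T j p) (A.ch j x) +
          φ 1 q ξ * pd 1 (lT A T j p) (A.ch j x)) := by
      intro p q
      have ha : AnalyticAt ℂ (lT A T j p) (Φ ξ) := by rw [hΦξ]; exact d08_lT_an hT hj p
      have hc : HasFDerivAt (fun η => lT A T j p (Φ η))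
          ((fderiv ℂ (lT A T j p) (Φ ξ)).comp (fderiv ℂ Φ ξ)) ξ :=
        ha.differentiableAt.hasFDerivAt.comp ξ hΦa.differentiableAt.hasFDerivAt
      have hJb : HasFDerivAt (fun η => J η ^ b) (fderiv ℂ (fun η => J η ^ b) ξ) ξ :=
        (hJa.pow b).differentiableAt.hasFDerivAt
      have hm := hJb.mul hc
      unfold pd
      rw [(hlT p).fderiv_eq]
      have he : fderiv ℂ (fun η => J η ^ b * lT A T j p (Φ η)) ξ = _ := hm.fderiv
      rw [he]
      show J ξ ^ b * (fderiv ℂ (lT A T j p) (Φ ξ) (fderiv ℂ Φ ξ (Pi.single q 1))) +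
        lT A T j p (Φ ξ) * (fderiv ℂ (fun η => J η ^ b) ξ (Pi.single q 1)) = _
      rw [d08_lin (fderiv ℂ (lT A T j p) (Φ ξ)) (fderiv ℂ Φ ξ (Pi.single q 1)), hΦξ]
      ring
    show dl (lT A T i) ξ = IS.jac A i j x ^ (3 * b + 1) * dl (lT A T j) (A.ch j x)
    rw [hJx, d08_dl, d08_dl]
    simp only [hval, hder]
    have hJξ : J ξ = φ 0 0 ξ * φ 1 1 ξ - φ 0 1 ξ * φ 1 0 ξ := rfl
    rw [pow_succ, pow_mul' (J ξ) 3 b]
    generalize J ξ ^ b = u at *
    rw [hJξ]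
    ring

end surface


end Pool.Agent.GG.PD
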