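import Pool.Agent.Lib_helper80.GG.DDefs

set_option autoImplicit false
set_option linter.unusedSectionVars false

open Filter Topology Metric Set

namespace Pool.Agent.GG.PD

open Pool.Agent.BR

theorem d09_pd_an {f : V2 → ℂ} {z : V2} (hf : AnalyticAt ℂ f z) (j : Fin 2) :
    AnalyticAt ℂ (pd j f) z := by
  have h := hf.fderiv
  exact ((ContinuousLinearMap.apply ℂ ℂ (Pi.single j (1 : ℂ) : V2)).analyticAt _).comp h

theorem d09_dl {T : Fin 3 → V2 → ℂ} {z : V2} : dl T z =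
    T 0 z * pd 0 (T 1) z * pd 1 (T 2) z - T 0 z * pd 1 (T 1) z * pd 0 (T 2) z -
    pd 0 (T 0) z * T 1 z * pd 1 (T 2) z + pd 0 (T 0) z * pd 1 (T 1) z * T 2 z +
    pd 1 (T 0) z * T 1 z * pd 0 (T 2) z - pd 1 (T 0) z * pd 0 (T 1) z * T 2 z := by
  unfold dl
  rw [Matrix.det_fin_three]
  simp

theorem d09_dl_an {T : Fin 3 → V2 → ℂ} {z : V2} (hT : ∀ j, AnalyticAt ℂ (T j) z) :
    AnalyticAt ℂ (dl T) z := by
  have e : dl T = fun z => T 0 z * pd 0 (T 1) z * pd 1 (T 2) z -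
      T 0 z * pd 1 (T 1) z * pd 0 (T 2) z -
      pd 0 (T 0) z * T 1 z * pd 1 (T 2) z + pd 0 (T 0) z * pd 1 (T 1) z * T 2 z +
      pd 1 (T 0) z * T 1 z * pd 0 (T 2) z - pd 1 (T 0) z * pd 0 (T 1) z * T 2 z := by
    funext z
    exact d09_dl
  rw [e]
  have h := fun i j => d09_pd_an (hT i) j
  exact ((((((hT 0).mul (h 1 0)).mul (h 2 1)).sub (((hT 0).mul (h 1 1)).mul (h 2 0))).sub
    (((h 0 0).mul (hT 1)).mul (h 2 1))).add (((h 0 0).mul (h 1 1)).mul (hT 2))).add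
    (((h 0 1).mul (hT 1)).mul (h 2 0)) |>.sub (((h 0 1).mul (h 1 0)).mul (hT 2))

/-- linear combinations of three functions -/
theorem d09_cmb {T : Fin 3 → V2 → ℂ} {z : V2} (hT : ∀ j, AnalyticAt ℂ (T j) z)
    (a : Fin 3 → Fin 3 → ℂ) :
    dl (fun p w => ∑ j, a p j * T j w) z = Matrix.det (Matrix.of a) * dl T z := by
  unfold dl
  rw [← Matrix.det_mul]
  congr 1
  have hd : ∀ p q, pd q (fun w => ∑ j, a p j * T j w) z = ∑ j, a p j * pd q (T j) z := by
    intro p q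
    unfold pd
    have h1 : HasFDerivAt (fun w => ∑ j, a p j * T j w) (∑ j, a p j • fderiv ℂ (T j) z) z :=
      HasFDerivAt.fun_sum fun j _ => (hT j).differentiableAt.hasFDerivAt.const_mul (a p j)
    rw [h1.fderiv]
    simp
  ext p q
  rw [Matrix.mul_apply, Matrix.of_apply, hd, hd]
  fin_cases q <;> simp

section surface

variable {X : Type} [MetricSpace X] {A : Cha V2 X} {b : ℕ}

theorem d09_first {T : Fin 3 → A.ι → X → ℂ} (hT : ∀ j, IS.PS A b (T j)) (a : Fin 3 → Fin 3 → ℂ)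
    {i : A.ι} {x : X} (hx : x ∈ (A.ch i).source) :
    dlt A (fun p => cmb T (a p)) i x = Matrix.det (Matrix.of a) * dlt A T i x :=
  d09_cmb (T := lT A T i) (fun j => (hT j).an i x hx) a

theorem dlt_cmb_pr {T : Fin 3 → A.ι → X → ℂ} (hT : ∀ j, IS.PS A b (T j)) (a : Fin 3 → Fin 3 → ℂ)
    {i : A.ι} {x : X} (hx : x ∈ (A.ch i).source) :
    dlt A (fun p => cmb T (a p)) i x = Matrix.det (Matrix.of a) * dlt A T i x ∧
      ∀ j, ds A (dlt A (fun p => cmb T (a p))) j i x =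
        Matrix.det (Matrix.of a) * ds A (dlt A T) j i x := by
  refine ⟨d09_first hT a hx, fun j => ?_⟩
  have h1 : (A.ch i).target ∈ 𝓝 (A.ch i x) :=
    (A.ch i).open_target.mem_nhds ((A.ch i).map_source hx)
  have h2 : lz A i (dlt A (fun p => cmb T (a p)) i) =ᶠ[𝓝 (A.ch i x)]
      fun z => Matrix.det (Matrix.of a) * lz A i (dlt A T i) z := by
    filter_upwards [h1] with z hz
    exact d09_first hT a ((A.ch i).map_target hz)
  have h3 : lz A i (dlt A T i) =ᶠ[𝓝 (A.ch i x)] dl (lT A T i) := by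
    filter_upwards [h1] with z hz
    show dl (lT A T i) (A.ch i ((A.ch i).symm z)) = dl (lT A T i) z
    rw [(A.ch i).right_inv hz]
  have h4 : AnalyticAt ℂ (lz A i (dlt A T i)) (A.ch i x) :=
    (d09_dl_an fun p => (hT p).an i x hx).congr h3.symm
  unfold ds pd
  rw [h2.fderiv_eq]
  have h5 := h4.differentiableAt.hasFDerivAt.const_mul (Matrix.det (Matrix.of a))
  rw [h5.fderiv]
  rfl

end surface

end Pool.Agent.GG.PD
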