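import Pool.Agent.Lib_helper80.GG.DDefs

/-! # GG D10: parametrization of a smooth curve (helper30) -/

set_option autoImplicit false
set_option linter.unusedVariables false
set_option linter.unusedSectionVars false

open Filter Topology Metric Set

namespace Pool.Agent.GG.PD

open Pool.Agent.BR

theorem d10_an_cons {G : Type} [NormedAddCommGroup G] [NormedSpace ℂ G] {f h : G → ℂ} {x : G}
    (hf : AnalyticAt ℂ f x) (hh : AnalyticAt ℂ h x) :
    AnalyticAt ℂ (fun ξ => (![f ξ, h ξ] : V2)) x := by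
  refine AnalyticAt.pi fun i => ?_
  fin_cases i
  · simpa using hf
  · simpa using hh

/-- BLOCK D10. -/
theorem disc_at_pr {g : V2 → ℂ} {ξ₀ : V2} (hg : AnalyticAt ℂ g ξ₀) (h0 : g ξ₀ = 0)
    (hd : ∃ j, pd j g ξ₀ ≠ 0) :
    ∃ (γ : ℂ → V2) (π : V2 → ℂ), AnalyticAt ℂ γ 0 ∧ γ 0 = ξ₀ ∧ deriv γ 0 ≠ 0 ∧
      AnalyticAt ℂ π ξ₀ ∧ π ξ₀ = 0 ∧ (∀ᶠ τ in 𝓝 (0 : ℂ), g (γ τ) = 0 ∧ π (γ τ) = τ) ∧
      ∀ᶠ ξ in 𝓝 ξ₀, g ξ = 0 → γ (π ξ) = ξ := by
  obtain ⟨j, hj⟩ := hd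
  obtain ⟨k, hk⟩ : ∃ k : Fin 2, ∀ l, l = j ∨ l = k := by
    fin_cases j
    · exact ⟨1, fun l => by fin_cases l <;> simp⟩
    · exact ⟨0, fun l => by fin_cases l <;> simp⟩
  have hpr : AnalyticAt ℂ (fun ξ : V2 => ξ k - ξ₀ k) ξ₀ :=
    ((ContinuousLinearMap.proj (R := ℂ) (φ := fun _ : Fin 2 => ℂ) k).analyticAt _).sub
      analyticAt_const
  set G : V2 → V2 := fun ξ => ![ξ k - ξ₀ k, g ξ] with hG
  have hGa : AnalyticAt ℂ G ξ₀ := d10_an_cons hpr hg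
  have hG0 : G ξ₀ = ![0, 0] := by
    simp only [hG, sub_self, h0]
  have hfd : ∀ v, fderiv ℂ G ξ₀ v = ![v k, fderiv ℂ g ξ₀ v] := by
    intro v
    have e : ∀ i, fderiv ℂ G ξ₀ v i = fderiv ℂ (fun ξ => G ξ i) ξ₀ v := by
      intro i
      have := hasFDerivAt_pi'.1 hGa.differentiableAt.hasFDerivAt i
      rw [this.fderiv]
      rfl
    funext i
    rw [e i]
    fin_cases i
    · have h1 : HasFDerivAt (fun ξ : V2 => ξ k - ξ₀ k)
          (ContinuousLinearMap.proj (R := ℂ) (φ := fun _ : Fin 2 => ℂ) k) ξ₀ :=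
        ((ContinuousLinearMap.proj (R := ℂ) (φ := fun _ : Fin 2 => ℂ) k).hasFDerivAt).sub_const
          (ξ₀ k)
      change fderiv ℂ (fun ξ : V2 => ξ k - ξ₀ k) ξ₀ v = v k
      rw [h1.fderiv]
      rfl
    · rfl
  have hinj : ∀ v, fderiv ℂ G ξ₀ v = 0 → v = 0 := by
    intro v hv
    rw [hfd] at hv
    have h1 : v k = 0 := congrFun hv 0
    have h2 : fderiv ℂ g ξ₀ v = 0 := congrFun hv 1
    have h3 : v = v j • (Pi.single j (1 : ℂ)) := by
      funext l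
      rcases hk l with h | h
      · rw [h]; simp
      · by_cases h4 : l = j
        · rw [h4]; simp
        · rw [h, h1]
          rw [h] at h4
          simp [Pi.single_eq_of_ne h4]
    rw [h3, map_smul, smul_eq_mul] at h2
    rcases mul_eq_zero.1 h2 with h4 | h4
    · rw [h3, h4, zero_smul]
    · exact absurd h4 hj
  have hker : LinearMap.ker (fderiv ℂ G ξ₀ : V2 →ₗ[ℂ] V2) = ⊥ := by
    rw [LinearMap.ker_eq_bot']
    exact hinj
  let L : V2 ≃L[ℂ] V2 := (LinearEquiv.ofInjectiveEndo (fderiv ℂ G ξ₀ : V2 →ₗ[ℂ] V2)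
    (LinearMap.ker_eq_bot.1 hker)).toContinuousLinearEquiv
  have hL : fderiv ℂ G ξ₀ = (L : V2 →L[ℂ] V2) := by
    ext v : 1
    rfl
  have hs : HasStrictFDerivAt G (L : V2 →L[ℂ] V2) ξ₀ := by
    rw [← hL]
    exact hGa.hasStrictFDerivAt
  set Φ := hs.toOpenPartialHomeomorph G with hΦ
  have hΦG : ∀ ξ, Φ ξ = G ξ := fun ξ => rfl
  have hsrc : ξ₀ ∈ Φ.source := hs.mem_toOpenPartialHomeomorph_source
  have hsy : AnalyticAt ℂ Φ.symm (G ξ₀) := Φ.analyticAt_symm' hsrc hGa hL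
  have hγ : AnalyticAt ℂ (fun τ : ℂ => Φ.symm (![τ, 0] : V2)) 0 := by
    refine AnalyticAt.fun_comp (g := fun w => Φ.symm w) ?_ (d10_an_cons analyticAt_id analyticAt_const)
    have e : (![(0 : ℂ), 0] : V2) = G ξ₀ := hG0.symm
    change AnalyticAt ℂ Φ.symm (![(0 : ℂ), 0] : V2)
    rw [e]
    exact hsy
  have hγ0 : Φ.symm (![(0 : ℂ), 0] : V2) = ξ₀ := by
    rw [← hG0, ← hΦG]
    exact Φ.left_inv hsrc
  have hev : ∀ᶠ τ in 𝓝 (0 : ℂ), g (Φ.symm (![τ, 0] : V2)) = 0 ∧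
      (Φ.symm (![τ, 0] : V2)) k - ξ₀ k = τ := by
    have hc : ContinuousAt (fun τ : ℂ => (![τ, 0] : V2)) 0 :=
      (d10_an_cons analyticAt_id analyticAt_const).continuousAt
    have ht : (![(0 : ℂ), 0] : V2) ∈ Φ.target := by
      rw [← hG0, ← hΦG]
      exact Φ.map_source hsrc
    filter_upwards [hc.preimage_mem_nhds (Φ.open_target.mem_nhds ht)] with τ hτ
    have h1 : G (Φ.symm (![τ, 0] : V2)) = ![τ, 0] := by
      rw [← hΦG]
      exact Φ.right_inv hτ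
    exact ⟨congrFun h1 1, congrFun h1 0⟩
  refine ⟨fun τ => Φ.symm (![τ, 0] : V2), fun ξ => ξ k - ξ₀ k, hγ, hγ0, ?_, hpr, sub_self _,
    hev, ?_⟩
  · intro hz
    have h1 : HasDerivAt (fun τ : ℂ => Φ.symm (![τ, 0] : V2)) 0 0 := by
      rw [← hz]
      exact hγ.differentiableAt.hasDerivAt
    have h2 : HasDerivAt (fun τ : ℂ => (Φ.symm (![τ, 0] : V2)) k) 0 0 := by
      have := hasDerivAt_pi.1 h1 k
      simpa using this
    have h3 : HasDerivAt (fun τ : ℂ => (Φ.symm (![τ, 0] : V2)) k - ξ₀ k) 0 0 := h2.sub_const _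
    have h4 : HasDerivAt (fun τ : ℂ => τ) 0 0 :=
      h3.congr_of_eventuallyEq (hev.mono fun τ hτ => hτ.2.symm)
    exact one_ne_zero ((hasDerivAt_id (0 : ℂ)).unique h4)
  · filter_upwards [Φ.open_source.mem_nhds hsrc] with ξ hξ h
    have : (![ξ k - ξ₀ k, 0] : V2) = Φ ξ := by
      rw [hΦG, hG]
      simp only [h]
    rw [this]
    exact Φ.left_inv hξ

end Pool.Agent.GG.PD
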