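import Pool.Agent.Lib_helper80.GG.DDefs
import Pool.Agent.Lib_helper80.GG.B.D10

/-! # GG, block D11: the alternative along a smooth curve (helper20) -/

set_option autoImplicit false

open Filter Topology Metric Set
open scoped Manifold ContDiff

namespace Pool.Agent.GG.PD

open Pool.Agent.BR

theorem iso_alt_pr {g f : V2 → ℂ} {ξ₀ : V2} (hg : AnalyticAt ℂ g ξ₀) (h0 : g ξ₀ = 0)
    (hd : ∃ j, pd j g ξ₀ ≠ 0) (hf : AnalyticAt ℂ f ξ₀) :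
    (∀ᶠ ξ in 𝓝 ξ₀, g ξ = 0 → f ξ = 0) ∨ ∀ᶠ ξ in 𝓝[≠] ξ₀, g ξ = 0 → f ξ ≠ 0 := by
  obtain ⟨γ, π, hγ, hγ0, -, hπ, hπ0, -, h2⟩ := disc_at_pr hg h0 hd
  have hfγ : AnalyticAt ℂ (fun τ => f (γ τ)) 0 := hf.comp_of_eq hγ hγ0
  have hπc : Tendsto π (𝓝 ξ₀) (𝓝 0) := by
    have := hπ.continuousAt.tendsto
    rwa [hπ0] at this
  rcases hfγ.eventually_eq_zero_or_eventually_ne_zero with h | h
  · left
    filter_upwards [hπc.eventually h, h2] with ξ h3 h4 h5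
    have h6 := h4 h5
    rw [← h6]
    exact h3
  · right
    rw [eventually_nhdsWithin_iff] at h ⊢
    filter_upwards [hπc.eventually h, h2] with ξ h3 h4 hne h5
    have h6 := h4 h5
    have h7 : π ξ ≠ 0 := by
      intro h8
      rw [h8, hγ0] at h6
      exact hne h6.symm
    rw [← h6]
    exact h3 h7

theorem acc_zero_pr {g : V2 → ℂ} {ξ₀ : V2} (hg : AnalyticAt ℂ g ξ₀) (h0 : g ξ₀ = 0)
    (hd : ∃ j, pd j g ξ₀ ≠ 0) : ∃ᶠ ξ in 𝓝[≠] ξ₀, g ξ = 0 := by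
  obtain ⟨γ, π, hγ, hγ0, -, hπ, hπ0, h1, -⟩ := disc_at_pr hg h0 hd
  have hγc : Tendsto γ (𝓝 0) (𝓝 ξ₀) := by
    have := hγ.continuousAt.tendsto
    rwa [hγ0] at this
  have hne : ∀ᶠ τ in 𝓝[≠] (0 : ℂ), γ τ ≠ ξ₀ := by
    rw [eventually_nhdsWithin_iff]
    filter_upwards [h1] with τ h3 h4 h5
    apply h4
    show τ = 0
    rw [← h3.2, h5, hπ0]
  have ht : Tendsto γ (𝓝[≠] 0) (𝓝[≠] ξ₀) :=
    tendsto_nhdsWithin_iff.2 ⟨hγc.mono_left nhdsWithin_le_nhds, hne⟩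
  have hz : ∀ᶠ τ in 𝓝[≠] (0 : ℂ), g (γ τ) = 0 :=
    nhdsWithin_le_nhds (h1.mono fun τ h => h.1)
  exact ht.frequently hz.frequently


end Pool.Agent.GG.PD
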