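import Pool.Agent.Lib_helper80.GG.DDefs
import Pool.Agent.Lib_helper80.GG.B.D07
import Pool.Agent.Lib_helper80.GG.B.D11

/-! # Block D12 of project GG (helper80): the alternative on the surface -/

set_option autoImplicit false

open Filter Topology Metric Set

namespace Pool.Agent.GG.PD

open Pool.Agent.BR

section surface

variable {X : Type} [MetricSpace X] {A : Cha V2 X} {b : ℕ}

theorem d12_tend {i : A.ι} {x : X} (hi : x ∈ (A.ch i).source) :
    Tendsto (A.ch i) (𝓝[≠] x) (𝓝[≠] (A.ch i x)) := by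
  refine tendsto_nhdsWithin_iff.2 ⟨((A.ch i).continuousAt hi).tendsto.mono_left nhdsWithin_le_nhds, ?_⟩
  rw [eventually_nhdsWithin_iff]
  filter_upwards [(A.ch i).open_source.mem_nhds hi] with y hy hne h
  exact hne ((A.ch i).injOn hy hi h)

theorem d12_tend' {i : A.ι} {x : X} (hi : x ∈ (A.ch i).source) :
    Tendsto (A.ch i).symm (𝓝[≠] (A.ch i x)) (𝓝[≠] x) := by
  have ht : A.ch i x ∈ (A.ch i).target := (A.ch i).map_source hi
  have h1 := (A.ch i).symm.continuousAt (x := A.ch i x) ht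
  have h2 : Tendsto (A.ch i).symm (𝓝 (A.ch i x)) (𝓝 x) := by
    have := h1.tendsto
    rwa [(A.ch i).left_inv hi] at this
  refine tendsto_nhdsWithin_iff.2 ⟨h2.mono_left nhdsWithin_le_nhds, ?_⟩
  rw [eventually_nhdsWithin_iff]
  filter_upwards [(A.ch i).open_target.mem_nhds ht] with ξ hξ hne h
  have h' : (A.ch i).symm ξ = x := h
  apply hne
  show ξ = A.ch i x
  rw [← h', (A.ch i).right_inv hξ]

theorem d12_lz {s : X → ℂ} {i : A.ι} {y : X} (hy : y ∈ (A.ch i).source) :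
    lz A i s (A.ch i y) = s y := by
  show s ((A.ch i).symm (A.ch i y)) = s y
  rw [(A.ch i).left_inv hy]

theorem vn_alt_pr {σ s : A.ι → X → ℂ} (hσ : Sm A σ) (hs : Sc A s) {x : X} (hx : x ∈ ZS A σ) :
    VN A σ s x ∨ ∀ᶠ y in 𝓝[≠] x, y ∈ ZS A σ → y ∉ ZS A s := by
  obtain ⟨i, hi⟩ := A.cover x
  have hi : x ∈ (A.ch i).source := A.W_sub i (subset_closure hi)
  have h0 : lz A i (σ i) (A.ch i x) = 0 := by rw [d12_lz hi]; exact hx i hi
  rcases iso_alt_pr (hσ.sc.an i x hi) h0 (hσ.sm i x hi (hx i hi)) (hs.an i x hi) with h | h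
  · left
    filter_upwards [((A.ch i).continuousAt hi).tendsto.eventually h,
      (A.ch i).open_source.mem_nhds hi] with y hy hys hyσ
    rw [mem_zs_pr hs hys]
    rw [d12_lz hys, d12_lz hys] at hy
    exact hy (hyσ i hys)
  · right
    have hsrc : ∀ᶠ y in 𝓝[≠] x, y ∈ (A.ch i).source :=
      nhdsWithin_le_nhds ((A.ch i).open_source.mem_nhds hi)
    filter_upwards [(d12_tend hi).eventually h, hsrc] with y hy hys hyσ hyz
    rw [d12_lz hys, d12_lz hys] at hy
    exact hy (hyσ i hys) (hyz i hys)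

theorem acc_zs_pr {σ : A.ι → X → ℂ} (hσ : Sm A σ) {x : X} (hx : x ∈ ZS A σ) :
    ∃ᶠ y in 𝓝[≠] x, y ∈ ZS A σ := by
  obtain ⟨i, hi⟩ := A.cover x
  have hi : x ∈ (A.ch i).source := A.W_sub i (subset_closure hi)
  have h0 : lz A i (σ i) (A.ch i x) = 0 := by rw [d12_lz hi]; exact hx i hi
  have h1 := acc_zero_pr (hσ.sc.an i x hi) h0 (hσ.sm i x hi (hx i hi))
  have htgt : ∀ᶠ ξ in 𝓝[≠] (A.ch i x), ξ ∈ (A.ch i).target :=
    nhdsWithin_le_nhds ((A.ch i).open_target.mem_nhds ((A.ch i).map_source hi))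
  refine (d12_tend' hi).frequently ?_
  refine (h1.and_eventually htgt).mono ?_
  rintro ξ ⟨h2, h3⟩
  rw [mem_zs_pr hσ.sc ((A.ch i).map_target h3)]
  exact h2

theorem zs_fin_pr [CompactSpace X] {σ s : A.ι → X → ℂ} (hσ : Sm A σ) (hs : Sc A s)
    (hno : ∀ x ∈ ZS A σ, ¬ VN A σ s x) : (ZS A σ ∩ ZS A s).Finite := by
  by_contra hinf
  obtain ⟨x, hx⟩ := Set.Infinite.exists_accPt_principal hinf
  rw [accPt_iff_frequently_nhdsNE] at hx
  have hxσ : x ∈ ZS A σ := by
    rw [← (isClosed_zs_pr hσ.sc).closure_eq, mem_closure_iff_frequently]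
    exact (hx.filter_mono nhdsWithin_le_nhds).mono fun y hy => hy.1
  rcases vn_alt_pr hσ hs hxσ with h | h
  · exact hno x hxσ h
  · obtain ⟨y, hy, hy'⟩ := (hx.and_eventually h).exists
    exact hy' hy.1 hy.2

end surface

end Pool.Agent.GG.PD
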