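import Pool.Agent.Lib_helper80.GG.DDefs
import Pool.Agent.Lib_helper80.GG.B.D10
import Pool.Agent.Lib_helper80.GG.B.D11

/-! # GG D13a: accumulation points of a fibre form discs (helper30) -/

set_option autoImplicit false
set_option linter.unusedVariables false
set_option linter.unusedSectionVars false

open Filter Topology Metric Set

namespace Pool.Agent.GG.PD

open Pool.Agent.BR

section surface

variable {X : Type} [MetricSpace X] {A : Cha V2 X} {b : ℕ}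

theorem d13a_mem {T : Fin 3 → A.ι → X → ℂ} (hT : ∀ j, IS.PS A b (T j)) {x y : X} {i j : A.ι}
    (hx : x ∈ (A.ch i).source) (hy : y ∈ (A.ch j).source) :
    y ∈ FB A T x ↔ ∃ m : ℂ, ∀ l, T l j y = m * T l i x := by
  constructor
  · rintro ⟨i', j', hx', hy', m, hm⟩
    refine ⟨IS.jac A j j' y ^ b * m * IS.jac A i' i x ^ b, fun l => ?_⟩
    rw [(hT l).tr j j' y hy hy', hm l, (hT l).tr i' i x hx' hx]
    ring
  · rintro ⟨m, hm⟩
    exact ⟨i, j, hx, hy, m, hm⟩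

theorem d13a_mem' {T : Fin 3 → A.ι → X → ℂ} (hT : ∀ j, IS.PS A b (T j)) {x y : X} {i j : A.ι}
    (hx : x ∈ (A.ch i).source) (hy : y ∈ (A.ch j).source) {l₀ : Fin 3} (h0 : T l₀ i x ≠ 0) :
    y ∈ FB A T x ↔ ∀ l, T l j y - T l i x / T l₀ i x * T l₀ j y = 0 := by
  rw [d13a_mem hT hx hy]
  constructor
  · rintro ⟨m, hm⟩ l
    rw [hm l, hm l₀]
    field_simp
    ring
  · intro h
    refine ⟨T l₀ j y / T l₀ i x, fun l => ?_⟩
    rw [sub_eq_zero.1 (h l)]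
    ring

theorem d13a_src (A : Cha V2 X) (x : X) : ∃ i, x ∈ (A.ch i).source := by
  obtain ⟨i, hi⟩ := A.cover x
  exact ⟨i, A.W_sub i (subset_closure hi)⟩

/-- the punctured neighbourhoods in a chart -/
theorem d13a_ch {i : A.ι} {p : X} (hp : p ∈ (A.ch i).source) :
    Tendsto (A.ch i) (𝓝[≠] p) (𝓝[≠] (A.ch i p)) := by
  refine tendsto_nhdsWithin_iff.2 ⟨((A.ch i).continuousAt hp).tendsto.mono_left
    nhdsWithin_le_nhds, ?_⟩
  filter_upwards [nhdsWithin_le_nhds ((A.ch i).open_source.mem_nhds hp), self_mem_nhdsWithin]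
    with y hy hne h
  exact hne ((A.ch i).injOn hy hp h)

theorem d13a_symm {i : A.ι} {ξ : V2} (hξ : ξ ∈ (A.ch i).target) :
    Tendsto (A.ch i).symm (𝓝[≠] ξ) (𝓝[≠] ((A.ch i).symm ξ)) := by
  refine tendsto_nhdsWithin_iff.2 ⟨((A.ch i).continuousAt_symm hξ).tendsto.mono_left
    nhdsWithin_le_nhds, ?_⟩
  filter_upwards [nhdsWithin_le_nhds ((A.ch i).open_target.mem_nhds hξ), self_mem_nhdsWithin]
    with y hy hne h
  exact hne ((A.ch i).symm.injOn hy hξ h)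

theorem d13a_pd {f h : V2 → ℂ} {ξ : V2} (hf : AnalyticAt ℂ f ξ) (hh : AnalyticAt ℂ h ξ) (c : ℂ)
    (k : Fin 2) : pd k (fun η => f η - c * h η) ξ = pd k f ξ - c * pd k h ξ := by
  unfold pd
  rw [fderiv_fun_sub hf.differentiableAt (hh.differentiableAt.const_mul c),
    fderiv_const_mul hh.differentiableAt]
  rfl

theorem d13a_pd_an {f : V2 → ℂ} {ξ : V2} (hf : AnalyticAt ℂ f ξ) (k : Fin 2) :
    AnalyticAt ℂ (pd k f) ξ := by
  have h1 : AnalyticAt ℂ (fderiv ℂ f) ξ := hf.fderiv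
  exact (ContinuousLinearMap.apply ℂ ℂ (Pi.single k (1 : ℂ) : V2)).analyticAt _ |>.fun_comp h1

/-- BLOCK D13a. -/
theorem acc_disc_pr [CompactSpace X] {T : Fin 3 → A.ι → X → ℂ} (hT : ∀ j, IS.PS A b (T j))
    (hc : ∀ i, ∀ x ∈ (A.ch i).source, Gen1 (fun l => jet2 (lz A i (T l i)) (A.ch i x)))
    {x p : X} (hp : ∃ᶠ y in 𝓝[≠] p, y ∈ FB A T x) :
    p ∈ FB A T x ∧ ∀ i, p ∈ (A.ch i).source → ∃ γ : ℂ → V2, AnalyticAt ℂ γ 0 ∧ γ 0 = A.ch i p ∧
      deriv γ 0 ≠ 0 ∧ ∀ᶠ τ in 𝓝 (0 : ℂ), ∃ᶠ y in 𝓝[≠] ((A.ch i).symm (γ τ)), y ∈ FB A T x := by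
  obtain ⟨i₀, hx⟩ := d13a_src A x
  obtain ⟨l₀, hl₀⟩ : ∃ l, T l i₀ x ≠ 0 := by
    obtain ⟨l, hl⟩ := (hc i₀ x hx).g1
    refine ⟨l, fun h => hl ?_⟩
    change lz A i₀ (T l i₀) (A.ch i₀ x) = 0
    unfold lz
    rw [(A.ch i₀).left_inv hx, h]
  set c : Fin 3 → ℂ := fun l => T l i₀ x / T l₀ i₀ x with hcd
  have main : ∀ i, p ∈ (A.ch i).source → p ∈ FB A T x ∧
      ∃ γ : ℂ → V2, AnalyticAt ℂ γ 0 ∧ γ 0 = A.ch i p ∧ deriv γ 0 ≠ 0 ∧
        ∀ᶠ τ in 𝓝 (0 : ℂ), ∃ᶠ y in 𝓝[≠] ((A.ch i).symm (γ τ)), y ∈ FB A T x := by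
    intro i hi
    set f : Fin 3 → V2 → ℂ := fun l ξ => lz A i (T l i) ξ - c l * lz A i (T l₀ i) ξ with hf
    have han : ∀ l, AnalyticAt ℂ (lz A i (T l i)) (A.ch i p) := fun l => (hT l).an i p hi
    have hfan : ∀ l, AnalyticAt ℂ (f l) (A.ch i p) := fun l =>
      (han l).fun_sub (analyticAt_const.fun_mul (han l₀))
    have hmem : ∀ ξ ∈ (A.ch i).target, ((A.ch i).symm ξ ∈ FB A T x ↔ ∀ l, f l ξ = 0) := by
      intro ξ hξ
      exact d13a_mem' hT hx ((A.ch i).map_target hξ) hl₀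
    have hfr : ∃ᶠ ξ in 𝓝[≠] (A.ch i p), ∀ l, f l ξ = 0 := by
      refine (d13a_ch hi).frequently ?_
      refine (hp.and_eventually (nhdsWithin_le_nhds ((A.ch i).open_source.mem_nhds hi))).mono ?_
      rintro y ⟨hy1, hy2⟩
      refine (hmem _ ((A.ch i).map_source hy2)).1 ?_
      rw [(A.ch i).left_inv hy2]
      exact hy1
    have hval : ∀ l, f l (A.ch i p) = 0 := by
      intro l
      by_contra h
      have h1 : ∀ᶠ ξ in 𝓝[≠] (A.ch i p), f l ξ ≠ 0 :=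
        nhdsWithin_le_nhds ((hfan l).continuousAt.eventually_ne h)
      exact hfr (h1.mono fun ξ hξ hall => hξ (hall l))
    refine ⟨?_, ?_⟩
    · have := (hmem _ ((A.ch i).map_source hi)).2 hval
      rwa [(A.ch i).left_inv hi] at this
    -- some derivative does not vanish
    obtain ⟨l₁, k₁, hk₁⟩ : ∃ l k, pd k (f l) (A.ch i p) ≠ 0 := by
      by_contra hno
      push Not at hno
      refine (hc i p hi).rk (c, ![lz A i (T l₀ i) (A.ch i p), pd 0 (lz A i (T l₀ i)) (A.ch i p),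
        pd 1 (lz A i (T l₀ i)) (A.ch i p)], fun l => ![pd 0 (pd 0 (lz A i (T l i))) (A.ch i p),
        pd 0 (pd 1 (lz A i (T l i))) (A.ch i p), pd 1 (pd 1 (lz A i (T l i))) (A.ch i p)]) ?_
      have e0 : ∀ l, lz A i (T l i) (A.ch i p) = c l * lz A i (T l₀ i) (A.ch i p) :=
        fun l => sub_eq_zero.1 (hval l)
      have e1 : ∀ l k, pd k (lz A i (T l i)) (A.ch i p) =
          c l * pd k (lz A i (T l₀ i)) (A.ch i p) := by
        intro l k
        have := hno l k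
        rw [hf] at this
        simp only at this
        rw [d13a_pd (han l) (han l₀)] at this
        exact sub_eq_zero.1 this
      funext l m
      fin_cases m
      · exact e0 l
      · exact e1 l 0
      · exact e1 l 1
      · rfl
      · rfl
      · rfl
    have hg0 : f l₁ (A.ch i p) = 0 := hval l₁
    have hall : ∀ l, ∀ᶠ ξ in 𝓝 (A.ch i p), f l₁ ξ = 0 → f l ξ = 0 := by
      intro l
      rcases iso_alt_pr (hfan l₁) hg0 ⟨k₁, hk₁⟩ (hfan l) with h | h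
      · exact h
      · exact absurd hfr (not_frequently.2 (h.mono fun ξ h1 h2 => h1 (h2 l₁) (h2 l)))
    have hev : ∀ᶠ ξ in 𝓝 (A.ch i p), ξ ∈ (A.ch i).target ∧
        (f l₁ ξ = 0 → (A.ch i).symm ξ ∈ FB A T x) := by
      filter_upwards [(A.ch i).open_target.mem_nhds ((A.ch i).map_source hi),
        eventually_all.2 hall] with ξ h1 h2
      exact ⟨h1, fun h3 => (hmem ξ h1).2 fun l => h2 l h3⟩
    obtain ⟨γ, π, g1, g2, g3, g4, g5, g6, g7⟩ := disc_at_pr (hfan l₁) hg0 ⟨k₁, hk₁⟩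
    refine ⟨γ, g1, g2, g3, ?_⟩
    have hten : Tendsto γ (𝓝 0) (𝓝 (A.ch i p)) := by
      rw [← g2]
      exact g1.continuousAt
    have hA : ∀ᶠ ξ in 𝓝 (A.ch i p), AnalyticAt ℂ (f l₁) ξ := (hfan l₁).eventually_analyticAt
    have hD : ∀ᶠ ξ in 𝓝 (A.ch i p), pd k₁ (f l₁) ξ ≠ 0 :=
      (d13a_pd_an (hfan l₁) k₁).continuousAt.eventually_ne hk₁
    filter_upwards [g6, hten.eventually hA, hten.eventually hD,
      hten.eventually (eventually_eventually_nhds.2 hev)] with τ h1 h2 h3 h4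
    have h5 := acc_zero_pr h2 h1.1 ⟨k₁, h3⟩
    have h6 : γ τ ∈ (A.ch i).target := h4.self_of_nhds.1
    refine (d13a_symm h6).frequently ?_
    refine (h5.and_eventually (nhdsWithin_le_nhds h4)).mono ?_
    rintro ξ ⟨h7, h8⟩
    exact h8.2 h7
  obtain ⟨i, hi⟩ := d13a_src A p
  exact ⟨(main i hi).1, fun i hi => (main i hi).2⟩

end surface

end Pool.Agent.GG.PD
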