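import Pool.Agent.Lib_helper80.GG.DDefs
import Pool.Agent.Lib_helper80.GG.B.D07
import Pool.Agent.Lib_helper80.GG.B.D13a

set_option autoImplicit false
set_option linter.unusedSectionVars false

open Filter Topology Metric Set

namespace Pool.Agent.GG.PD

open Pool.Agent.BR

theorem d13b_lin (L : V2 →L[ℂ] ℂ) (v : V2) :
    L v = v 0 * L (Pi.single 0 1) + v 1 * L (Pi.single 1 1) := by
  have e : v = v 0 • (Pi.single 0 (1 : ℂ) : V2) + v 1 • (Pi.single 1 (1 : ℂ) : V2) := by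
    ext j
    fin_cases j <;> simp
  conv_lhs => rw [e]
  rw [map_add, map_smul, map_smul, smul_eq_mul, smul_eq_mul]

section surface

variable {X : Type} [MetricSpace X] {A : Cha V2 X} {b : ℕ}

/-- the quotient does not depend on the chart -/
theorem d13b_quot {s t : A.ι → X → ℂ} (hs : IS.PS A b s) (ht : IS.PS A b t) {i j : A.ι} {y : X}
    (hi : y ∈ (A.ch i).source) (hj : y ∈ (A.ch j).source) (h0 : y ∉ ZS A t) :
    s i y / t i y = s j y / t j y := by
  have h1 : t i y ≠ 0 := fun h => h0 ((mem_zs_pr (ps_sc_pr ht) hi).2 h)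
  rw [hs.tr i j y hi hj, ht.tr i j y hi hj]
  rw [ht.tr i j y hi hj] at h1
  exact mul_div_mul_left _ _ (left_ne_zero_of_mul h1)

theorem d13b_lz {s : A.ι → X → ℂ} {i : A.ι} {y : X} (hi : y ∈ (A.ch i).source) :
    lz A i (s i) (A.ch i y) = s i y := by
  unfold lz
  rw [(A.ch i).left_inv hi]

theorem d13b_ci (y : X) : y ∈ (A.ch (ci A y)).source :=
  A.W_sub _ (subset_closure (A.cover y).choose_spec)

theorem df_of_gen_pr [CompactSpace X] {M : ℕ} {a : Fin M → A.ι → X → ℂ} (ha : VV A b M a)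
    {c : Fin 3 → Fin M → ℂ} (hc : ∀ i, ∀ x ∈ (A.ch i).source,
      Gen1 (fun l => jet2 (lz A i (cmb a (c l) i)) (A.ch i x))) :
    DF A (fun l => cmb a (c l)) := by
  set T : Fin 3 → A.ι → X → ℂ := fun l => cmb a (c l) with hTdef
  have hT : ∀ l, IS.PS A b (T l) := fun l => ps_cmb_pr ha.ps (c l)
  have hg1 : ∀ i, ∀ y ∈ (A.ch i).source, ∃ l, T l i y ≠ 0 := by
    intro i y hy
    obtain ⟨l, hl⟩ := (hc i y hy).g1
    refine ⟨l, ?_⟩
    have h1 : jet2 (lz A i (T l i)) (A.ch i y) 0 = T l i y := d13b_lz (s := T l) hy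
    rw [← h1]
    exact hl
  intro x
  by_contra hx0
  have hx : ∃ᶠ y in 𝓝[≠] x, y ∈ FB A T x := by
    intro h
    exact hx0 h
  set F : Set X := {p | ∃ᶠ y in 𝓝[≠] p, y ∈ FB A T x} with hF
  have hFcl : IsClosed F := by
    have h1 : F = derivedSet (FB A T x) := by
      ext p
      rw [mem_derivedSet, accPt_iff_frequently_nhdsNE]
      rfl
    rw [h1]
    exact isClosed_derivedSet _
  have hFc : IsCompact F := hFcl.isCompact
  have hxF : x ∈ F := hx
  obtain ⟨l₀, hl₀⟩ := hg1 (ci A x) x (d13b_ci x)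
  have hx0' : x ∉ ZS A (T l₀) := fun h => hl₀ ((mem_zs_pr (ps_sc_pr (hT l₀)) (d13b_ci x)).1 h)
  have hdisc := fun (p : X) (hp : p ∈ F) => acc_disc_pr hT hc hp
  have hFZ : ∀ p ∈ F, p ∉ ZS A (T l₀) := by
    intro p hp hz
    obtain ⟨i, j, hi, hj, m, hm⟩ := (hdisc p hp).1
    obtain ⟨l, hl⟩ := hg1 j p hj
    have hm0 : m ≠ 0 := by
      rintro rfl
      rw [hm l, zero_mul] at hl
      exact hl rfl
    have h2 : T l₀ i x ≠ 0 := fun h => hx0' ((mem_zs_pr (ps_sc_pr (hT l₀)) hi).2 h)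
    have h3 := (mem_zs_pr (ps_sc_pr (hT l₀)) hj).1 hz
    rw [hm l₀] at h3
    exact mul_ne_zero hm0 h2 h3
  -- the functions
  set f : Fin M → X → ℂ := fun k y => a k (ci A y) y / T l₀ (ci A y) y with hf
  have hfi : ∀ k i y, y ∈ (A.ch i).source → y ∉ ZS A (T l₀) →
      f k y = a k i y / T l₀ i y := fun k i y hy h0 =>
    d13b_quot (ha.ps k) (hT l₀) (d13b_ci y) hy h0
  have hfc : ∀ k, ContinuousOn (f k) F := by
    intro k p hp
    refine ContinuousAt.continuousWithinAt ?_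
    set i := ci A p with hi
    have hpi : p ∈ (A.ch i).source := d13b_ci p
    have h1 : (fun y => lz A i (a k i) (A.ch i y) / lz A i (T l₀ i) (A.ch i y)) =ᶠ[𝓝 p] f k := by
      have h2 : (A.ch i).source ∈ 𝓝 p := (A.ch i).open_source.mem_nhds hpi
      have h3 : (ZS A (T l₀))ᶜ ∈ 𝓝 p :=
        (isClosed_zs_pr (ps_sc_pr (hT l₀))).isOpen_compl.mem_nhds (hFZ p hp)
      filter_upwards [h2, h3] with y hy hy0
      rw [hfi k i y hy hy0, d13b_lz hy, d13b_lz hy]
    refine ContinuousAt.congr ?_ h1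
    have h4 : ContinuousAt (A.ch i) p := (A.ch i).continuousAt hpi
    have h5 : ContinuousAt (lz A i (a k i)) (A.ch i p) :=
      ((ha.ps k).an i p hpi).continuousAt
    have h6 : ContinuousAt (lz A i (T l₀ i)) (A.ch i p) :=
      ((hT l₀).an i p hpi).continuousAt
    refine (h5.comp h4).div (h6.comp h4) ?_
    show lz A i (T l₀ i) (A.ch i p) ≠ 0
    rw [d13b_lz hpi]
    exact fun h => hFZ p hp ((mem_zs_pr (ps_sc_pr (hT l₀)) hpi).2 h)
  have hPhi : ContinuousOn (fun y => ∑ k, ‖f k y‖ ^ 2) F :=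
    continuousOn_finsetSum _ fun k _ => ((hfc k).norm).pow 2
  obtain ⟨p, hp, hmax⟩ := hFc.exists_isMaxOn ⟨x, hxF⟩ hPhi
  set i := ci A p with hi
  have hpi : p ∈ (A.ch i).source := d13b_ci p
  obtain ⟨γ, hγ, hγ0, hγ1, hγF⟩ := (hdisc p hp).2 i hpi
  have hT0 : lz A i (T l₀ i) (γ 0) ≠ 0 := by
    rw [hγ0, d13b_lz hpi]
    exact fun h => hFZ p hp ((mem_zs_pr (ps_sc_pr (hT l₀)) hpi).2 h)
  have haγ : ∀ k, AnalyticAt ℂ (fun τ => lz A i (a k i) (γ τ)) 0 := by
    intro k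
    have h1 : AnalyticAt ℂ (lz A i (a k i)) (γ 0) := by
      rw [hγ0]
      exact (ha.ps k).an i p hpi
    exact h1.comp hγ
  have hTγ : AnalyticAt ℂ (fun τ => lz A i (T l₀ i) (γ τ)) 0 := by
    have h1 : AnalyticAt ℂ (lz A i (T l₀ i)) (γ 0) := by
      rw [hγ0]
      exact (hT l₀).an i p hpi
    exact h1.comp hγ
  set g : ℂ → EuclideanSpace ℂ (Fin M) := fun τ =>
    WithLp.toLp 2 (fun k => lz A i (a k i) (γ τ) / lz A i (T l₀ i) (γ τ)) with hg
  have hga : AnalyticAt ℂ g 0 := by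
    have h1 : AnalyticAt ℂ (fun τ => fun k => lz A i (a k i) (γ τ) / lz A i (T l₀ i) (γ τ)) 0 :=
      AnalyticAt.pi fun k => (haγ k).div hTγ hT0
    exact ((EuclideanSpace.equiv (Fin M) ℂ).symm.toContinuousLinearMap.analyticAt _).comp h1
  have hgF : ∀ᶠ τ in 𝓝 (0 : ℂ), ‖g τ‖ ^ 2 = ∑ k, ‖f k ((A.ch i).symm (γ τ))‖ ^ 2 ∧
      (A.ch i).symm (γ τ) ∈ F := by
    have h1 : γ ⁻¹' (A.ch i).target ∈ 𝓝 (0 : ℂ) := by
      refine hγ.continuousAt.preimage_mem_nhds ((A.ch i).open_target.mem_nhds ?_)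
      rw [hγ0]
      exact (A.ch i).map_source hpi
    filter_upwards [h1, hγF] with τ h2 h3
    have h4 : (A.ch i).symm (γ τ) ∈ (A.ch i).source := (A.ch i).map_target h2
    refine ⟨?_, h3⟩
    rw [EuclideanSpace.norm_sq_eq]
    refine Finset.sum_congr rfl fun k _ => ?_
    rw [hfi k i _ h4 (hFZ _ h3)]
    rfl
  have hloc : IsLocalMax (norm ∘ g) 0 := by
    have h0 := hgF.self_of_nhds
    filter_upwards [hgF] with τ hτ
    have h1 : ∑ k, ‖f k ((A.ch i).symm (γ τ))‖ ^ 2 ≤ ∑ k, ‖f k p‖ ^ 2 := hmax hτ.2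
    have h2 : (A.ch i).symm (γ 0) = p := by
      rw [hγ0]
      exact (A.ch i).left_inv hpi
    rw [h2] at h0
    rw [← hτ.1, ← h0.1] at h1
    exact le_of_sq_le_sq h1 (norm_nonneg _)
  have hconst := Complex.eventually_eq_of_isLocalMax_norm
    (hga.eventually_analyticAt.mono fun τ h => h.differentiableAt) hloc
  -- the derivatives
  set v := deriv γ 0 with hv
  have hder : ∀ k, fderiv ℂ (lz A i (a k i)) (A.ch i p) v =
      (fderiv ℂ (lz A i (T l₀ i)) (A.ch i p) v / T l₀ i p) * a k i p := by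
    intro k
    have h1 : (fun τ => lz A i (a k i) (γ τ)) =ᶠ[𝓝 0]
        fun τ => (a k i p / T l₀ i p) * lz A i (T l₀ i) (γ τ) := by
      have h2 : ∀ᶠ τ in 𝓝 (0 : ℂ), lz A i (T l₀ i) (γ τ) ≠ 0 :=
        hTγ.continuousAt.eventually_ne hT0
      filter_upwards [hconst, h2] with τ h3 h4
      have h5 : (g τ) k = (g 0) k := by rw [h3]
      have h6 : lz A i (a k i) (γ τ) / lz A i (T l₀ i) (γ τ) =
          lz A i (a k i) (γ 0) / lz A i (T l₀ i) (γ 0) := h5
      rw [hγ0, d13b_lz hpi, d13b_lz hpi] at h6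
      rw [← h6, div_mul_cancel₀ _ h4]
    have hγd : HasDerivAt γ v 0 := hγ.differentiableAt.hasDerivAt
    have hda : HasDerivAt (fun τ => lz A i (a k i) (γ τ))
        (fderiv ℂ (lz A i (a k i)) (A.ch i p) v) 0 := by
      have h7 : HasFDerivAt (lz A i (a k i)) (fderiv ℂ (lz A i (a k i)) (A.ch i p)) (γ 0) := by
        rw [hγ0]
        exact ((ha.ps k).an i p hpi).differentiableAt.hasFDerivAt
      exact h7.comp_hasDerivAt (0 : ℂ) hγd
    have hdT : HasDerivAt (fun τ => lz A i (T l₀ i) (γ τ))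
        (fderiv ℂ (lz A i (T l₀ i)) (A.ch i p) v) 0 := by
      have h7 : HasFDerivAt (lz A i (T l₀ i)) (fderiv ℂ (lz A i (T l₀ i)) (A.ch i p)) (γ 0) := by
        rw [hγ0]
        exact ((hT l₀).an i p hpi).differentiableAt.hasFDerivAt
      exact h7.comp_hasDerivAt (0 : ℂ) hγd
    have h8 := hdT.const_mul (a k i p / T l₀ i p)
    have h9 := (hda.congr_of_eventuallyEq h1.symm).unique h8
    rw [h9]
    ring
  have hvne : ∃ q, v q ≠ 0 := by
    by_contra hcon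
    push Not at hcon
    exact hγ1 (funext hcon)
  obtain ⟨q, hq⟩ := hvne
  obtain ⟨c', h1, h2, h3, _⟩ := ha.jet i p hpi
    ![0, if q = 0 then 1 else 0, if q = 1 then 1 else 0, 0, 0, 0]
  have h4 : ∑ k, c' k * fderiv ℂ (lz A i (a k i)) (A.ch i p) v = 0 := by
    have h5 : ∑ k, c' k * fderiv ℂ (lz A i (a k i)) (A.ch i p) v =
        (fderiv ℂ (lz A i (T l₀ i)) (A.ch i p) v / T l₀ i p) * ∑ k, c' k * a k i p := by
      rw [Finset.mul_sum]
      refine Finset.sum_congr rfl fun k _ => ?_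
      rw [hder k]
      ring
    rw [h5, h1]
    simp
  have h6 : ∑ k, c' k * fderiv ℂ (lz A i (a k i)) (A.ch i p) v =
      v 0 * (∑ k, c' k * ds A (a k) 0 i p) + v 1 * (∑ k, c' k * ds A (a k) 1 i p) := by
    rw [Finset.mul_sum, Finset.mul_sum, ← Finset.sum_add_distrib]
    refine Finset.sum_congr rfl fun k _ => ?_
    rw [d13b_lin (fderiv ℂ (lz A i (a k i)) (A.ch i p)) v]
    unfold ds pd
    ring
  rw [h6, h2, h3] at h4
  fin_cases q
  · simp at h4 hq
    exact hq h4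
  · simp at h4 hq
    exact hq h4

end surface


end Pool.Agent.GG.PD
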