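import Pool.Agent.Lib_helper80.GG.DDefs
import Pool.Agent.Lib_helper80.GG.B.D07
import Pool.Agent.Lib_helper80.GG.B.D12

/-! # Block D14 of project GG (helper80): countably many arcs -/

set_option autoImplicit false

open Filter Topology Metric Set

namespace Pool.Agent.GG.PD

open Pool.Agent.BR

theorem d14_alg {s t a a' : Fin 3 → ℂ} (h1 : ∑ l, a l * s l = 0) (h2 : ∑ l, a l * t l = 0)
    (h3 : ∑ l, a' l * s l = 0) (h4 : ∑ l, a' l * t l = 0) (ha' : a' ≠ 0)
    (hn : ¬ ∃ z : ℂ, a = z • a') (hs : s ≠ 0) : ∃ m : ℂ, ∀ l, t l = m * s l := by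
  rw [Fin.sum_univ_three] at h1 h2 h3 h4
  -- the cross product
  set c0 := a 1 * a' 2 - a 2 * a' 1 with hc0
  set c1 := a 2 * a' 0 - a 0 * a' 2 with hc1
  set c2 := a 0 * a' 1 - a 1 * a' 0 with hc2
  have hc : ¬ (c0 = 0 ∧ c1 = 0 ∧ c2 = 0) := by
    rintro ⟨z0, z1, z2⟩
    apply hn
    have hex : ∃ l, a' l ≠ 0 := by
      by_contra hcon
      push Not at hcon
      exact ha' (funext hcon)
    obtain ⟨l, hl⟩ := hex
    refine ⟨a l / a' l, ?_⟩
    funext k
    simp only [Pi.smul_apply, smul_eq_mul]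
    rw [div_mul_eq_mul_div, eq_div_iff hl]
    fin_cases l <;> fin_cases k <;> simp only [Fin.zero_eta, Fin.mk_one, Fin.reduceFinMk]
    · linear_combination -z2
    · linear_combination z1
    · linear_combination z2
    · linear_combination -z0
    · linear_combination -z1
    · linear_combination z0
  have hmin : ∀ k l, t k * s l = t l * s k := by
    -- c × s = 0, c × t = 0
    have es0 : c1 * s 2 - c2 * s 1 = 0 := by
      rw [hc1, hc2]; linear_combination (a' 0) * h1 - (a 0) * h3
    have es1 : c2 * s 0 - c0 * s 2 = 0 := by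
      rw [hc0, hc2]; linear_combination (a' 1) * h1 - (a 1) * h3
    have es2 : c0 * s 1 - c1 * s 0 = 0 := by
      rw [hc1, hc0]; linear_combination (a' 2) * h1 - (a 2) * h3
    have et0 : c1 * t 2 - c2 * t 1 = 0 := by
      rw [hc1, hc2]; linear_combination (a' 0) * h2 - (a 0) * h4
    have et1 : c2 * t 0 - c0 * t 2 = 0 := by
      rw [hc0, hc2]; linear_combination (a' 1) * h2 - (a 1) * h4
    have et2 : c0 * t 1 - c1 * t 0 = 0 := by
      rw [hc1, hc0]; linear_combination (a' 2) * h2 - (a 2) * h4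
    have key : ∀ d : ℂ, d ≠ 0 → ∀ z w : ℂ, d * (z - w) = 0 → z = w := by
      intro d hd z w h
      exact sub_eq_zero.1 ((mul_eq_zero.1 h).resolve_left hd)
    by_cases z0 : c0 = 0
    · by_cases z1 : c1 = 0
      · have z2 : c2 ≠ 0 := fun z2 => hc ⟨z0, z1, z2⟩
        have a1 : s 1 = 0 := by
          have : c2 * (s 1 - 0) = 0 := by linear_combination -es0 + (s 2) * z1
          exact key c2 z2 _ _ this
        have a2 : s 0 = 0 := by
          have : c2 * (s 0 - 0) = 0 := by linear_combination es1 + (s 2) * z0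
          exact key c2 z2 _ _ this
        have b1 : t 1 = 0 := by
          have : c2 * (t 1 - 0) = 0 := by linear_combination -et0 + (t 2) * z1
          exact key c2 z2 _ _ this
        have b2 : t 0 = 0 := by
          have : c2 * (t 0 - 0) = 0 := by linear_combination et1 + (t 2) * z0
          exact key c2 z2 _ _ this
        intro k l
        fin_cases k <;> fin_cases l <;> simp [a1, a2, b1, b2, mul_comm]
      · intro k l
        apply key c1 z1
        fin_cases k <;> fin_cases l <;> simp only [Fin.zero_eta, Fin.mk_one, Fin.reduceFinMk]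
        · ring
        · linear_combination (-(s 1)) * et2 + (t 1) * es2
        · linear_combination (t 0) * es0 + (t 2) * es2 + (s 1) * et1
        · linear_combination (s 1) * et2 - (t 1) * es2
        · ring
        · linear_combination (-(s 1)) * et0 + (t 1) * es0
        · linear_combination -(t 0) * es0 - (t 2) * es2 - (s 1) * et1
        · linear_combination (s 1) * et0 - (t 1) * es0
        · ring
    · intro k l
      apply key c0 z0
      fin_cases k <;> fin_cases l <;> simp only [Fin.zero_eta, Fin.mk_one, Fin.reduceFinMk]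
      · ring
      · linear_combination (-(s 0)) * et2 + (t 0) * es2
      · linear_combination (s 0) * et1 - (t 0) * es1
      · linear_combination (s 0) * et2 - (t 0) * es2
      · ring
      · linear_combination -(t 1) * es1 - (t 2) * es2 - (s 0) * et0
      · linear_combination (-(s 0)) * et1 + (t 0) * es1
      · linear_combination (t 1) * es1 + (t 2) * es2 + (s 0) * et0
      · ring
  have hex : ∃ l, s l ≠ 0 := by
    by_contra hcon
    push Not at hcon
    exact hs (funext hcon)
  obtain ⟨l, hl⟩ := hex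
  refine ⟨t l / s l, fun k => ?_⟩
  rw [div_mul_eq_mul_div, eq_div_iff hl]
  exact hmin k l

section surface

variable {X : Type} [MetricSpace X] {A : Cha V2 X} {b : ℕ}

theorem arc_count_pr [CompactSpace X] {T : Fin 3 → A.ι → X → ℂ} (hT : ∀ j, IS.PS A b (T j))
    (h1 : ∀ x, ∃ j, x ∉ ZS A (T j)) (hf : DF A T) {σ : A.ι → X → ℂ} (hσ : Sm A σ) :
    ∃ v : ℕ → Fin 3 → ℂ, (∀ n, v n ≠ 0) ∧ ∀ a : Fin 3 → ℂ, a ≠ 0 →
      (∃ x ∈ ZS A σ, VN A σ (cmb T a) x) → ∃ n, ∃ z : ℂ, a = z • v n := by
  let S : Set (Projectivization ℂ (Fin 3 → ℂ)) := {p | ∃ x ∈ ZS A σ, VN A σ (cmb T p.rep) x}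
  let U : Projectivization ℂ (Fin 3 → ℂ) → Set (ZS A σ) :=
    fun p => {x | VN A σ (cmb T p.rep) x.1}
  have hS : S.Countable := by
    refine Set.PairwiseDisjoint.countable_of_isOpen (s := U) ?_ ?_ ?_
    · intro p hp q hq hpq
      rw [Function.onFun, Set.disjoint_left]
      rintro ⟨x, hx⟩ hxp hxq
      change VN A σ (cmb T p.rep) x at hxp
      change VN A σ (cmb T q.rep) x at hxq
      have e1 : ∀ᶠ y in 𝓝[≠] x, y ∈ ZS A σ → y ∈ ZS A (cmb T p.rep) :=
        hxp.filter_mono nhdsWithin_le_nhds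
      have e2 : ∀ᶠ y in 𝓝[≠] x, y ∈ ZS A σ → y ∈ ZS A (cmb T q.rep) :=
        hxq.filter_mono nhdsWithin_le_nhds
      obtain ⟨y, hyσ, hy1, hy2, hy3⟩ :=
        ((acc_zs_pr hσ hx).and_eventually (e1.and (e2.and (hf x)))).exists
      obtain ⟨i, hi⟩ := A.cover x
      have hi : x ∈ (A.ch i).source := A.W_sub i (subset_closure hi)
      obtain ⟨j, hj⟩ := A.cover y
      have hj : y ∈ (A.ch j).source := A.W_sub j (subset_closure hj)
      apply hy3
      refine ⟨i, j, hi, hj, ?_⟩
      refine d14_alg (s := fun l => T l i x) (t := fun l => T l j y) (a := p.rep) (a' := q.rep)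
        (hxp.self_of_nhds hx i hi) (hy1 hyσ j hj) (hxq.self_of_nhds hx i hi) (hy2 hyσ j hj)
        q.rep_nonzero ?_ ?_
      · rintro ⟨z, hz⟩
        apply hpq
        have hz0 : z ≠ 0 := by
          rintro rfl
          rw [zero_smul] at hz
          exact p.rep_nonzero hz
        rw [← p.mk_rep, ← q.mk_rep, Projectivization.mk_eq_mk_iff']
        exact ⟨z, hz.symm⟩
      · intro h0
        obtain ⟨l, hl⟩ := h1 x
        exact hl ((mem_zs_pr (ps_sc_pr (hT l)) hi).2 (congrFun h0 l))
    · intro p hp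
      have h2 : IsOpen {x : X | VN A σ (cmb T p.rep) x} := isOpen_setOfPred_eventually_nhds
      exact h2.preimage continuous_subtype_val
    · rintro p ⟨x, hx, h⟩
      exact ⟨⟨x, hx⟩, h⟩
  have hmem : ∀ (a : Fin 3 → ℂ) (ha : a ≠ 0), (∃ x ∈ ZS A σ, VN A σ (cmb T a) x) →
      Projectivization.mk ℂ a ha ∈ S := by
    rintro a ha ⟨x, hx, h⟩
    refine ⟨x, hx, ?_⟩
    obtain ⟨u, hu⟩ := Projectivization.exists_smul_eq_mk_rep ℂ a ha
    filter_upwards [h] with y hy hyσ i hi
    have h3 := hy hyσ i hi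
    rw [← hu]
    simp only [cmb] at h3 ⊢
    have : ∑ j, (u • a) j * T j i y = (u : ℂ) * ∑ j, a j * T j i y := by
      rw [Finset.mul_sum]
      refine Finset.sum_congr rfl fun j _ => ?_
      simp only [Pi.smul_apply, Units.smul_def, smul_eq_mul]
      ring
    rw [this, h3, mul_zero]
  rcases S.eq_empty_or_nonempty with hE | hN
  · refine ⟨fun _ _ => 1, fun _ h => one_ne_zero (congrFun h 0), ?_⟩
    intro a ha hx
    have := hmem a ha hx
    rw [hE] at this
    exact absurd this (Set.notMem_empty _)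
  · obtain ⟨f, hf⟩ := hS.exists_eq_range hN
    refine ⟨fun n => (f n).rep, fun n => (f n).rep_nonzero, ?_⟩
    intro a ha hx
    have := hmem a ha hx
    rw [hf] at this
    obtain ⟨n, hn⟩ := this
    obtain ⟨u, hu⟩ := Projectivization.exists_smul_eq_mk_rep ℂ a ha
    refine ⟨n, ((u⁻¹ : ℂˣ) : ℂ), ?_⟩
    show a = ((u⁻¹ : ℂˣ) : ℂ) • (f n).rep
    rw [hn, ← hu]
    funext j
    simp [Units.smul_def]

end surface

end Pool.Agent.GG.PD
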