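import Pool.Agent.Lib_helper80.GG.DDefs

/-! # GG, block D15 (helper69): avoiding countably many subspaces -/

set_option autoImplicit false

open Filter Topology Metric Set

namespace Pool.Agent.GG.PD

open Pool.Agent.BR

theorem avoid_pr {F : Type} [NormedAddCommGroup F] [NormedSpace ℂ F] [FiniteDimensional ℂ F]
    {S : ℕ → Submodule ℂ F} (hS : ∀ n, S n ≠ ⊤) (x : F) {ε : ℝ} (hε : 0 < ε) :
    ∃ y, ‖y - x‖ < ε ∧ ∀ n, y ∉ S n := by
  have : CompleteSpace F := FiniteDimensional.complete ℂ F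
  have h1 : ∀ n, IsOpen ((S n : Set F)ᶜ) := fun n =>
    (Submodule.closed_of_finiteDimensional (S n)).isOpen_compl
  have h2 : ∀ n, Dense ((S n : Set F)ᶜ) := fun n => by
    rw [← interior_eq_empty_iff_dense_compl]
    by_contra h
    exact hS n ((S n).eq_top_of_nonempty_interior' (nonempty_iff_ne_empty.2 h))
  obtain ⟨y, hy, hy'⟩ := (dense_iInter_of_isOpen_nat h1 h2).exists_dist_lt x hε
  refine ⟨y, by rwa [dist_comm, dist_eq_norm] at hy', fun n hn => ?_⟩
  exact (mem_iInter.1 hy n) hn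

end Pool.Agent.GG.PD
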