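import Pool.Agent.Lib_helper80.GG.DDefs
import Pool.Agent.Lib_helper80.GG.B.D15

/-! # Block D16: choice of a basis -/

set_option autoImplicit false

open Filter Topology Metric Set

namespace Pool.Agent.GG.PD

open Pool.Agent.BR

/-- the linear form `a ↦ ∑ a l * w l` -/
private noncomputable def d16_form (w : Fin 3 → ℂ) : (Fin 3 → ℂ) →ₗ[ℂ] ℂ where
  toFun a := ∑ l, a l * w l
  map_add' a b := by simp [add_mul, Finset.sum_add_distrib]
  map_smul' c a := by simp [Finset.mul_sum, mul_assoc]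

private theorem d16_span (a b : Fin 3 → ℂ) : Submodule.span ℂ {a, b} ≠ (⊤ : Submodule ℂ (Fin 3 → ℂ)) := by
  intro h
  have h1 : Module.finrank ℂ (Submodule.span ℂ ({a, b} : Set (Fin 3 → ℂ))) ≤ 2 := by
    classical
    have := finrank_span_finset_le_card (R := ℂ) ({a, b} : Finset (Fin 3 → ℂ))
    rw [Finset.coe_insert, Finset.coe_singleton] at this
    exact this.trans Finset.card_le_two
  rw [h, finrank_top] at h1
  simp at h1

private theorem d16_ker {w : Fin 3 → ℂ} (hw : w ≠ 0) :
    LinearMap.ker (d16_form w) ≠ ⊤ := by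
  intro h
  apply hw
  funext l
  have : (Pi.single l (1 : ℂ) : Fin 3 → ℂ) ∈ LinearMap.ker (d16_form w) := by
    rw [h]; trivial
  rw [LinearMap.mem_ker] at this
  simpa [d16_form, Pi.single_apply] using this

/-- BLOCK D16. -/
theorem choose_basis_pr {v : ℕ → Fin 3 → ℂ} (hv : ∀ n, v n ≠ 0) {a₀ : Fin 3 → ℂ}
    (ha : ∀ n, ∀ z : ℂ, a₀ ≠ z • v n) {W : Set (Fin 3 → ℂ)} (hW : W.Finite) (hW0 : ∀ w ∈ W, w ≠ 0) :
    ∃ a₁ a₂ : Fin 3 → ℂ, Matrix.det (Matrix.of ![a₀, a₁, a₂]) ≠ 0 ∧
      (∀ n, ∀ z z' : ℂ, v n ≠ z • a₀ + z' • a₁) ∧ ∀ w ∈ W, ∑ l, a₁ l * w l ≠ 0 := by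
  have hcount : (insert (Pi.single 0 (1 : ℂ)) W : Set (Fin 3 → ℂ)).Countable :=
    (hW.insert _).countable
  obtain ⟨f, hf⟩ := hcount.exists_eq_range ⟨_, mem_insert _ _⟩
  have hf0 : ∀ m, f m ≠ 0 := by
    intro m
    have : f m ∈ (insert (Pi.single 0 (1 : ℂ)) W : Set (Fin 3 → ℂ)) := by
      rw [hf]; exact mem_range_self m
    rcases this with h | h
    · rw [h]
      intro hc
      simpa using congrFun hc 0
    · exact hW0 _ h
  obtain ⟨a₁, -, h1⟩ := avoid_pr (S := fun m : ℕ => if m % 2 = 0 then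
      Submodule.span ℂ {a₀, v (m / 2)} else LinearMap.ker (d16_form (f (m / 2))))
    (fun m => by
      split_ifs
      · exact d16_span _ _
      · exact d16_ker (hf0 _)) 0 one_pos
  have hspan : ∀ n, a₁ ∉ Submodule.span ℂ {a₀, v n} := by
    intro n hn
    apply h1 (2 * n)
    have e1 : 2 * n % 2 = 0 := by omega
    have e2 : 2 * n / 2 = n := by omega
    simpa only [e1, e2, if_true] using hn
  have hker : ∀ n, ∑ l, a₁ l * f n l ≠ 0 := by
    intro n hn
    apply h1 (2 * n + 1)
    have e1 : ¬ (2 * n + 1) % 2 = 0 := by omega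
    have e2 : (2 * n + 1) / 2 = n := by omega
    simp only [e1, e2, if_false, LinearMap.mem_ker]
    exact hn
  obtain ⟨a₂, -, h2⟩ := avoid_pr (S := fun _ : ℕ => Submodule.span ℂ {a₀, a₁})
    (fun _ => d16_span _ _) 0 one_pos
  have h2' : a₂ ∉ Submodule.span ℂ {a₀, a₁} := h2 0
  have ha0 : a₀ ≠ 0 := by
    intro h
    exact ha 0 0 (by rw [h, zero_smul])
  refine ⟨a₁, a₂, ?_, ?_, ?_⟩
  · intro hdet
    obtain ⟨u, hu0, hu⟩ := Matrix.exists_vecMul_eq_zero_iff.mpr hdet
    have hcomb : u 0 • a₀ + u 1 • a₁ + u 2 • a₂ = 0 := by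
      funext k
      have := congrFun hu k
      simpa [Matrix.vecMul, dotProduct, Fin.sum_univ_three] using this
    by_cases hu2 : u 2 = 0
    · by_cases hu1 : u 1 = 0
      · rw [hu1, hu2, zero_smul, zero_smul, add_zero, add_zero] at hcomb
        rcases smul_eq_zero.mp hcomb with h | h
        · apply hu0
          funext i
          fin_cases i
          · exact h
          · exact hu1
          · exact hu2
        · exact ha0 h
      · apply hspan 0
        have : a₁ = (-((u 1)⁻¹ * u 0)) • a₀ := by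
          rw [hu2, zero_smul, add_zero] at hcomb
          have h3 : u 1 • a₁ = -(u 0 • a₀) := by
            rw [eq_neg_iff_add_eq_zero, add_comm]; exact hcomb
          calc a₁ = (u 1)⁻¹ • (u 1 • a₁) := by rw [smul_smul, inv_mul_cancel₀ hu1, one_smul]
            _ = _ := by rw [h3, smul_neg, smul_smul, neg_smul]
        rw [this]
        exact Submodule.smul_mem _ _ (Submodule.subset_span (mem_insert _ _))
    · apply h2'
      have : a₂ = (u 2)⁻¹ • (-(u 0 • a₀ + u 1 • a₁)) := by
        have h3 : u 2 • a₂ = -(u 0 • a₀ + u 1 • a₁) := by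
          rw [eq_neg_iff_add_eq_zero, add_comm]; exact hcomb
        rw [← h3, smul_smul, inv_mul_cancel₀ hu2, one_smul]
      rw [this]
      refine Submodule.smul_mem _ _ (Submodule.neg_mem _ (Submodule.add_mem _ ?_ ?_))
      · exact Submodule.smul_mem _ _ (Submodule.subset_span (mem_insert _ _))
      · exact Submodule.smul_mem _ _ (Submodule.subset_span (by simp))
  · intro n z z' h
    by_cases hz' : z' = 0
    · rw [hz', zero_smul, add_zero] at h
      have hz : z ≠ 0 := by
        intro hz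
        exact hv n (by rw [h, hz, zero_smul])
      exact ha n z⁻¹ (by rw [h, smul_smul, inv_mul_cancel₀ hz, one_smul])
    · apply hspan n
      have : a₁ = z'⁻¹ • (v n - z • a₀) := by
        rw [h, add_sub_cancel_left, smul_smul, inv_mul_cancel₀ hz', one_smul]
      rw [this]
      refine Submodule.smul_mem _ _ (Submodule.sub_mem _ ?_ ?_)
      · exact Submodule.subset_span (by simp)
      · exact Submodule.smul_mem _ _ (Submodule.subset_span (mem_insert _ _))
  · intro w hw
    have : w ∈ (insert (Pi.single 0 (1 : ℂ)) W : Set (Fin 3 → ℂ)) := mem_insert_of_mem _ hw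
    rw [hf] at this
    obtain ⟨m, rfl⟩ := this
    exact hker m

end Pool.Agent.GG.PD
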