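import Pool.Agent.Lib_helper80.GG.DDefs
import Pool.Agent.Lib_helper80.GG.B.D07
import Pool.Agent.Lib_helper80.GG.B.D10
import Pool.Agent.Lib_helper80.GG.B.D11

/-! # GG, block D18: the set of the condition g5 is finite (helper16) -/

set_option autoImplicit false
set_option linter.unusedSectionVars false

open Filter Topology Metric Set
open scoped Manifold ContDiff

namespace Pool.Agent.GG.PD

open Pool.Agent.BR

theorem d18_pd_an {f : V2 → ℂ} {z₀ : V2} (hf : AnalyticAt ℂ f z₀) (j : Fin 2) :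
    AnalyticAt ℂ (pd j f) z₀ := by
  have h1 : AnalyticAt ℂ (fderiv ℂ f) z₀ := hf.fderiv
  have h2 := (ContinuousLinearMap.apply ℂ ℂ (Pi.single j (1 : ℂ) : V2)).analyticAt (fderiv ℂ f z₀)
  exact h2.comp h1

/-- the chain rule along a curve -/
theorem d18_chain {f : V2 → ℂ} {γ : ℂ → V2} {τ : ℂ} (hf : AnalyticAt ℂ f (γ τ))
    (hγ : AnalyticAt ℂ γ τ) :
    HasDerivAt (fun t => f (γ t)) (pd 0 f (γ τ) * deriv γ τ 0 + pd 1 f (γ τ) * deriv γ τ 1) τ := by
  have h1 := hf.differentiableAt.hasFDerivAt.comp_hasDerivAt τ hγ.differentiableAt.hasDerivAt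
  have h2 : fderiv ℂ f (γ τ) (deriv γ τ) =
      pd 0 f (γ τ) * deriv γ τ 0 + pd 1 f (γ τ) * deriv γ τ 1 := by
    have e : deriv γ τ = deriv γ τ 0 • (Pi.single 0 (1 : ℂ) : V2) +
        deriv γ τ 1 • (Pi.single 1 (1 : ℂ) : V2) := by
      ext j
      fin_cases j <;> simp
    conv_lhs => rw [e]
    rw [map_add, map_smul, map_smul]
    unfold pd
    simp only [smul_eq_mul]
    ring
  rw [h2] at h1
  exact h1

/-- two analytic functions with vanishing wronskian are proportional -/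
theorem d18_wronski {a c : ℂ → ℂ} (ha : AnalyticAt ℂ a 0) (hc : AnalyticAt ℂ c 0)
    (hW : ∀ᶠ τ in 𝓝 (0 : ℂ), a τ * deriv c τ - c τ * deriv a τ = 0)
    (hne : ¬ ∀ᶠ τ in 𝓝 (0 : ℂ), a τ = 0) : ∃ z : ℂ, ∀ᶠ τ in 𝓝 (0 : ℂ), c τ - z * a τ = 0 := by
  obtain ⟨r, hr, hball⟩ := Metric.eventually_nhds_iff_ball.1
    ((ha.eventually_analyticAt.and hc.eventually_analyticAt).and hW)
  -- a point of the ball where `a` does not vanish
  have hex : ∃ τ₀ ∈ ball (0 : ℂ) r, a τ₀ ≠ 0 := by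
    by_contra hcon
    push Not at hcon
    exact hne (Filter.mem_of_superset (ball_mem_nhds 0 hr) hcon)
  obtain ⟨τ₀, h1, h2⟩ := hex
  refine ⟨c τ₀ / a τ₀, ?_⟩
  set z := c τ₀ / a τ₀ with hz
  set f : ℂ → ℂ := fun τ => c τ - z * a τ with hf
  have hfan : AnalyticOnNhd ℂ f (ball 0 r) := fun τ hτ =>
    ((hball τ hτ).1.2).sub (analyticAt_const.mul (hball τ hτ).1.1)
  -- `f` vanishes near `τ₀`
  have hnear : f =ᶠ[𝓝 τ₀] 0 := by
    have hb1 : ∀ᶠ τ in 𝓝 τ₀, τ ∈ ball (0 : ℂ) r := isOpen_ball.mem_nhds h1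
    have hev : ∀ᶠ τ in 𝓝 τ₀, τ ∈ ball (0 : ℂ) r ∧ a τ ≠ 0 :=
      hb1.and (((hball τ₀ h1).1.1).continuousAt.eventually_ne h2)
    obtain ⟨ε, hε, hb2⟩ := Metric.eventually_nhds_iff_ball.1 hev
    have hder : ∀ τ ∈ ball τ₀ ε, HasDerivAt (fun t => f t / a t) 0 τ := by
      intro τ hτ
      obtain ⟨k1, k2⟩ := hb2 τ hτ
      obtain ⟨⟨k3, k4⟩, k5⟩ := hball τ k1
      have d1 : HasDerivAt f (deriv c τ - z * deriv a τ) τ :=
        k4.differentiableAt.hasDerivAt.sub (k3.differentiableAt.hasDerivAt.const_mul z)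
      have d2 := d1.fun_div k3.differentiableAt.hasDerivAt k2
      have this : (deriv c τ - z * deriv a τ) * a τ - f τ * deriv a τ =
          a τ * deriv c τ - c τ * deriv a τ := by
        simp only [hf]; ring
      rw [this, k5, zero_div] at d2
      exact d2
    have hconst : ∀ τ ∈ ball τ₀ ε, f τ / a τ = f τ₀ / a τ₀ := by
      intro τ hτ
      exact (convex_ball τ₀ ε).is_const_of_fderivWithin_eq_zero (𝕜 := ℂ)
        (fun t ht => (hder t ht).differentiableAt.differentiableWithinAt)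
        (fun t ht => by
          rw [fderivWithin_of_isOpen isOpen_ball ht]
          have := (hder t ht).hasFDerivAt.fderiv
          rw [this]
          ext
          simp) hτ (mem_ball_self hε)
    have hf0 : f τ₀ = 0 := by
      simp only [hf, hz]
      field_simp
      ring
    filter_upwards [ball_mem_nhds τ₀ hε] with τ hτ
    have := hconst τ hτ
    rw [hf0, zero_div, div_eq_zero_iff] at this
    rcases this with h | h
    · exact h
    · exact absurd h (hb2 τ hτ).2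
  have hall := hfan.eqOn_zero_of_preconnected_of_eventuallyEq_zero
    (convex_ball (0 : ℂ) r).isPreconnected h1 hnear
  exact Filter.mem_of_superset (ball_mem_nhds 0 hr) hall

section surface

variable {X : Type} [MetricSpace X] {A : Cha V2 X} {b : ℕ}

theorem d18_chart (A : Cha V2 X) (x : X) : ∃ i, x ∈ (A.ch i).source := by
  obtain ⟨i, hi⟩ := A.cover x
  exact ⟨i, A.W_sub i (subset_closure hi)⟩

/-- vanishing on the curve, seen in a chart along the disc -/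
theorem d18_vn {σ s : A.ι → X → ℂ} (hσ : Sc A σ) (hs : Sc A s) {x : X} {i : A.ι}
    (hi : x ∈ (A.ch i).source) {γ : ℂ → V2} {π : V2 → ℂ} (hπ : ContinuousAt π (A.ch i x))
    (hπ0 : π (A.ch i x) = 0)
    (hγ : ∀ᶠ ξ in 𝓝 (A.ch i x), lz A i (σ i) ξ = 0 → γ (π ξ) = ξ)
    (h : ∀ᶠ τ in 𝓝 (0 : ℂ), lz A i (s i) (γ τ) = 0) : VN A σ s x := by
  have hch : ContinuousAt (A.ch i) x := (A.ch i).continuousAt hi
  have hπt : Tendsto π (𝓝 (A.ch i x)) (𝓝 0) := by
    have := hπ.tendsto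
    rwa [hπ0] at this
  have h1 : ∀ᶠ ξ in 𝓝 (A.ch i x), lz A i (s i) (γ (π ξ)) = 0 := hπt.eventually h
  unfold VN
  filter_upwards [hch.eventually hγ, hch.eventually h1, (A.ch i).open_source.mem_nhds hi]
    with y k1 k2 k3 hy
  have hsy : (A.ch i).symm (A.ch i y) = y := (A.ch i).left_inv k3
  have k4 : lz A i (σ i) (A.ch i y) = 0 := by
    unfold lz
    rw [hsy]
    exact hy i k3
  rw [k1 k4] at k2
  unfold lz at k2
  rw [hsy] at k2
  exact (mem_zs_pr hs k3).2 k2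

/-- BLOCK D18. -/
theorem g5_fin_pr [CompactSpace X] {T : Fin 3 → A.ι → X → ℂ} (hT : ∀ j, IS.PS A b (T j))
    {σ : A.ι → X → ℂ} (hσ : Sm A σ) (h0 : ∀ x ∈ ZS A σ, ¬ VN A σ (T 0) x)
    (h1 : ∀ z : ℂ, ∀ x ∈ ZS A σ, ¬ VN A σ (fun i y => T 1 i y - z * T 0 i y) x) :
    {x | x ∈ ZS A σ ∧ x ∉ ZS A (T 0) ∧ ∀ i, x ∈ (A.ch i).source →
      ds A σ 0 i x * (T 0 i x * ds A (T 1) 1 i x - T 1 i x * ds A (T 0) 1 i x) -
      ds A σ 1 i x * (T 0 i x * ds A (T 1) 0 i x - T 1 i x * ds A (T 0) 0 i x) = 0}.Finite := by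
  set Q : Set X := {x | x ∈ ZS A σ ∧ x ∉ ZS A (T 0) ∧ ∀ i, x ∈ (A.ch i).source →
      ds A σ 0 i x * (T 0 i x * ds A (T 1) 1 i x - T 1 i x * ds A (T 0) 1 i x) -
      ds A σ 1 i x * (T 0 i x * ds A (T 1) 0 i x - T 1 i x * ds A (T 0) 0 i x) = 0} with hQ
  by_contra hinf
  have hinf' : Q.Infinite := hinf
  obtain ⟨x, hacc⟩ := hinf'.exists_accPt_principal
  have hfr : ∃ᶠ y in 𝓝[≠] x, y ∈ Q := accPt_iff_frequently_nhdsNE.1 hacc
  have hxσ : x ∈ ZS A σ := by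
    have hcl := isClosed_zs_pr hσ.sc
    rw [← hcl.closure_eq]
    refine mem_closure_iff_frequently.2 ?_
    exact (hfr.mono fun y hy => hy.1).filter_mono nhdsWithin_le_nhds
  obtain ⟨i, hi⟩ := d18_chart A x
  set ξ₀ : V2 := A.ch i x with hξ₀
  have hsx : (A.ch i).symm ξ₀ = x := (A.ch i).left_inv hi
  set g : V2 → ℂ := lz A i (σ i) with hg
  set t0 : V2 → ℂ := lz A i (T 0 i) with ht0
  set t1 : V2 → ℂ := lz A i (T 1 i) with ht1
  have ag : AnalyticAt ℂ g ξ₀ := hσ.sc.an i x hi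
  have a0 : AnalyticAt ℂ t0 ξ₀ := (hT 0).an i x hi
  have a1 : AnalyticAt ℂ t1 ξ₀ := (hT 1).an i x hi
  have g0 : g ξ₀ = 0 := by
    show σ i ((A.ch i).symm ξ₀) = 0
    rw [hsx]
    exact hxσ i hi
  have gd : ∃ j, pd j g ξ₀ ≠ 0 := hσ.sm i x hi (hxσ i hi)
  set E : V2 → ℂ := fun ξ => pd 0 g ξ * (t0 ξ * pd 1 t1 ξ - t1 ξ * pd 1 t0 ξ) -
    pd 1 g ξ * (t0 ξ * pd 0 t1 ξ - t1 ξ * pd 0 t0 ξ) with hE
  have aE : AnalyticAt ℂ E ξ₀ :=
    ((d18_pd_an ag 0).mul ((a0.mul (d18_pd_an a1 1)).sub (a1.mul (d18_pd_an a0 1)))).sub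
      ((d18_pd_an ag 1).mul ((a0.mul (d18_pd_an a1 0)).sub (a1.mul (d18_pd_an a0 0))))
  -- `E` vanishes on the curve
  have hEv : ∀ᶠ ξ in 𝓝 ξ₀, g ξ = 0 → E ξ = 0 := by
    rcases iso_alt_pr ag g0 gd aE with h | h
    · exact h
    · exfalso
      have hch : ContinuousAt (A.ch i) x := (A.ch i).continuousAt hi
      have hfr2 : ∃ᶠ y in 𝓝[≠] x, y ∈ Q ∧ y ∈ (A.ch i).source :=
        hfr.and_eventually (nhdsWithin_le_nhds ((A.ch i).open_source.mem_nhds hi))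
      have htend : Tendsto (A.ch i) (𝓝[≠] x ⊓ 𝓟 (A.ch i).source) (𝓝[≠] ξ₀) := by
        rw [tendsto_nhdsWithin_iff]
        constructor
        · exact hch.tendsto.mono_left (inf_le_left.trans nhdsWithin_le_nhds)
        · have m1 : ∀ᶠ y in 𝓝[≠] x ⊓ 𝓟 (A.ch i).source, y ≠ x :=
            (eventually_mem_nhdsWithin (a := x) (s := {x}ᶜ)).filter_mono inf_le_left
          have m2 : ∀ᶠ y in 𝓝[≠] x ⊓ 𝓟 (A.ch i).source, y ∈ (A.ch i).source :=
            (eventually_principal.2 fun y hy => hy).filter_mono inf_le_right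
          filter_upwards [m1, m2] with y k1 k2 k3
          exact k1 ((A.ch i).injOn k2 hi k3)
      have hev := htend.eventually h
      have hev2 : ∀ᶠ y in 𝓝[≠] x, y ∈ (A.ch i).source →
          (g (A.ch i y) = 0 → E (A.ch i y) ≠ 0) := by
        rw [Filter.eventually_inf_principal] at hev
        exact hev
      obtain ⟨y, ⟨hyQ, hys⟩, hy2⟩ := (hfr2.and_eventually hev2).exists
      have hsy : (A.ch i).symm (A.ch i y) = y := (A.ch i).left_inv hys
      have e1 : g (A.ch i y) = 0 := by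
        show σ i ((A.ch i).symm (A.ch i y)) = 0
        rw [hsy]; exact hyQ.1 i hys
      apply hy2 hys e1
      have e2 := hyQ.2.2 i hys
      have e3 : t0 (A.ch i y) = T 0 i y := by
        show T 0 i ((A.ch i).symm (A.ch i y)) = _
        rw [hsy]
      have e4 : t1 (A.ch i y) = T 1 i y := by
        show T 1 i ((A.ch i).symm (A.ch i y)) = _
        rw [hsy]
      simp only [hE]
      rw [e3, e4]
      exact e2
  -- the disc
  obtain ⟨γ, π, aγ, γ0, _, aπ, π0, hγ1, hγ2⟩ := disc_at_pr ag g0 gd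
  have cγ : ContinuousAt γ 0 := aγ.continuousAt
  have cγt : Tendsto γ (𝓝 0) (𝓝 ξ₀) := by
    have := cγ.tendsto
    rwa [γ0] at this
  have aa : AnalyticAt ℂ (fun τ => t0 (γ τ)) 0 := by
    refine AnalyticAt.comp (g := t0) (f := γ) ?_ aγ
    rw [γ0]; exact a0
  have ac : AnalyticAt ℂ (fun τ => t1 (γ τ)) 0 := by
    refine AnalyticAt.comp (g := t1) (f := γ) ?_ aγ
    rw [γ0]; exact a1
  have hgd : ∀ᶠ ξ in 𝓝 ξ₀, pd 0 g ξ ≠ 0 ∨ pd 1 g ξ ≠ 0 := by
    obtain ⟨j, hj⟩ := gd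
    have := (d18_pd_an ag j).continuousAt.eventually_ne hj
    filter_upwards [this] with ξ hξ
    fin_cases j
    · exact Or.inl hξ
    · exact Or.inr hξ
  have hW : ∀ᶠ τ in 𝓝 (0 : ℂ), (fun τ => t0 (γ τ)) τ * deriv (fun τ => t1 (γ τ)) τ -
      (fun τ => t1 (γ τ)) τ * deriv (fun τ => t0 (γ τ)) τ = 0 := by
    have hg0 : ∀ᶠ τ in 𝓝 (0 : ℂ), g (γ τ) = 0 := hγ1.mono fun τ h => h.1
    filter_upwards [aγ.eventually_analyticAt, cγt.eventually a0.eventually_analyticAt,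
      cγt.eventually a1.eventually_analyticAt, cγt.eventually ag.eventually_analyticAt,
      hg0.eventually_nhds, cγt.eventually hEv, cγt.eventually hgd]
      with τ k1 k2 k3 k4 k5 k6 k7
    have c0 := (d18_chain k2 k1).deriv
    have c1 := (d18_chain k3 k1).deriv
    have c2 := (d18_chain k4 k1).deriv
    have hz : deriv (fun t => g (γ t)) τ = 0 := by
      have : (fun t => g (γ t)) =ᶠ[𝓝 τ] fun _ => 0 := k5
      rw [this.deriv_eq]
      simp
    rw [c2] at hz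
    have hEz := k6 k5.self_of_nhds
    simp only [hE] at hEz
    show t0 (γ τ) * deriv (fun τ => t1 (γ τ)) τ - t1 (γ τ) * deriv (fun τ => t0 (γ τ)) τ = 0
    rw [c0, c1]
    set u := deriv γ τ 0
    set v := deriv γ τ 1
    set G0 := pd 0 g (γ τ)
    set G1 := pd 1 g (γ τ)
    set P0 := t0 (γ τ) * pd 0 t1 (γ τ) - t1 (γ τ) * pd 0 t0 (γ τ) with hP0
    set P1 := t0 (γ τ) * pd 1 t1 (γ τ) - t1 (γ τ) * pd 1 t0 (γ τ) with hP1
    have goal' : t0 (γ τ) * (pd 0 t1 (γ τ) * u + pd 1 t1 (γ τ) * v) -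
        t1 (γ τ) * (pd 0 t0 (γ τ) * u + pd 1 t0 (γ τ) * v) = P0 * u + P1 * v := by
      rw [hP0, hP1]; ring
    rw [goal']
    rcases k7 with hG | hG
    · apply mul_left_cancel₀ hG
      rw [mul_zero]
      linear_combination v * hEz + P0 * hz
    · apply mul_left_cancel₀ hG
      rw [mul_zero]
      linear_combination (-u) * hEz + P1 * hz
  have hne : ¬ ∀ᶠ τ in 𝓝 (0 : ℂ), (fun τ => t0 (γ τ)) τ = 0 := fun h =>
    h0 x hxσ (d18_vn hσ.sc (ps_sc_pr (hT 0)) hi aπ.continuousAt π0 hγ2 h)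
  obtain ⟨z, hz⟩ := d18_wronski aa ac hW hne
  have hps : IS.PS A b (fun i y => T 1 i y - z * T 0 i y) := by
    constructor
    · intro j y hy
      exact ((hT 1).an j y hy).sub (analyticAt_const.mul ((hT 0).an j y hy))
    · intro j l y hj hl
      rw [(hT 1).tr j l y hj hl, (hT 0).tr j l y hj hl]
      ring
  exact h1 z x hxσ (d18_vn hσ.sc (ps_sc_pr hps) hi aπ.continuousAt π0 hγ2 hz)

end surface


end Pool.Agent.GG.PD
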