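import Pool.Agent.Lib_helper80.GG.DDefs

set_option autoImplicit false
set_option linter.unusedVariables false
set_option linter.unusedSectionVars false

open Filter Topology Metric Set
open scoped Manifold ContDiff

namespace Pool.Agent.GG.PD

open Pool.Agent.BR

section surface

variable {X : Type} [MetricSpace X]

theorem d21_dtr {E : Type} [NormedAddCommGroup E] [NormedSpace ℂ E] (e : E ≃L[ℂ] V2)
    (A : Cha E X) (i j : A.ι) (x : X) :
    IS.dtr (trC e A) i j x =
      (e : E →L[ℂ] V2).comp ((IS.dtr A i j x).comp (e.symm : V2 →L[ℂ] E)) := by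
  have h1 : (fun ξ => (trC e A).ch j (((trC e A).ch i).symm ξ)) =
      e ∘ ((fun ξ => A.ch j ((A.ch i).symm ξ)) ∘ e.symm) := rfl
  have h2 : (trC e A).ch i x = e (A.ch i x) := rfl
  unfold IS.dtr
  rw [h1, h2, e.comp_fderiv, e.symm.comp_right_fderiv, e.symm_apply_apply]

theorem d21_jac {E : Type} [NormedAddCommGroup E] [NormedSpace ℂ E] (e : E ≃L[ℂ] V2)
    (A : Cha E X) (i j : A.ι) (x : X) : IS.jac (trC e A) i j x = IS.jac A i j x := by
  unfold IS.jac
  rw [d21_dtr]
  exact LinearMap.det_conj (IS.dtr A i j x : E →ₗ[ℂ] E) e.toLinearEquiv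

theorem af_trC_pr {E : Type} [NormedAddCommGroup E] [NormedSpace ℂ E] [FiniteDimensional ℂ E]
    (e : E ≃L[ℂ] V2) {A : Cha E X} {n k : ℕ} {a : A.ι → X → Fin (n + 1) → ℂ}
    (ha : IS.AF A n k a) : IS.AF (trC e A) n k a where
  an := by
    intro i x hx
    have h1 : AnalyticAt ℂ (fun ξ : V2 => e.symm ξ) (e (A.ch i x)) :=
      (e.symm : V2 →L[ℂ] E).analyticAt _
    have h2 : AnalyticAt ℂ (fun ξ => a i ((A.ch i).symm ξ)) (e.symm (e (A.ch i x))) := by
      rw [e.symm_apply_apply]
      exact ha.an i x hx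
    exact AnalyticAt.fun_comp (g := fun ξ => a i ((A.ch i).symm ξ)) h2 h1
  tr := by
    intro i j x hi hj
    exact (ha.tr i j x hi hj).trans
      (congrArg (fun g : ℂ => g ^ k • a j x) (d21_jac e A i j x).symm)
  ne := ha.ne
  imm := by
    intro i x hx ξ m h
    have h1 : (fun ξ => a i (((trC e A).ch i).symm ξ)) =
      (fun ξ => a i ((A.ch i).symm ξ)) ∘ e.symm := rfl
    have h2 : (trC e A).ch i x = e (A.ch i x) := rfl
    rw [h1, h2, e.symm.comp_right_fderiv, e.symm_apply_apply] at h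
    have h3 := ha.imm i x hx (e.symm ξ) m h
    simpa using h3

end surface

end Pool.Agent.GG.PD
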