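import Pool.Agent.Lib_helper80.GG.DDefs

/-! # Block D20a: three coordinates with independent one-jets -/

set_option autoImplicit false

open Filter Topology Metric Set

namespace Pool.Agent.GG.PD

open Pool.Agent.BR

private theorem d20a_rows {ι : Type} {R : ι → Fin 3 → ℂ}
    (h : ∀ w : Fin 3 → ℂ, (∀ p, w 0 * R p 0 + w 1 * R p 1 + w 2 * R p 2 = 0) → w = 0) :
    ∃ p : Fin 3 → ι, Matrix.det (Matrix.of fun l => R (p l)) ≠ 0 := by
  have key : ∀ w : Fin 3 → ℂ, w ≠ 0 → ∃ p, w 0 * R p 0 + w 1 * R p 1 + w 2 * R p 2 ≠ 0 := by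
    intro w hw
    by_contra hcon
    push Not at hcon
    exact hw (h w hcon)
  obtain ⟨p0, h0⟩ := key ![1, 0, 0] (fun hc => by simpa using congrFun hc 0)
  have h0' : R p0 0 ≠ 0 := by simpa using h0
  obtain ⟨p1, h1⟩ := key ![-(R p0 1), R p0 0, 0] (fun hc => h0' (by simpa using congrFun hc 1))
  have h1' : R p0 0 * R p1 1 - R p0 1 * R p1 0 ≠ 0 := by
    intro hc
    apply h1
    simp only [Matrix.cons_val_zero, Matrix.cons_val_one, Matrix.cons_val]
    linear_combination hc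
  obtain ⟨p2, h2⟩ := key ![R p0 1 * R p1 2 - R p0 2 * R p1 1, R p0 2 * R p1 0 - R p0 0 * R p1 2,
    R p0 0 * R p1 1 - R p0 1 * R p1 0] (fun hc => h1' (by simpa using congrFun hc 2))
  refine ⟨![p0, p1, p2], fun hdet => h2 ?_⟩
  rw [Matrix.det_fin_three] at hdet
  simp only [Matrix.of_apply, Matrix.cons_val_zero, Matrix.cons_val_one, Matrix.cons_val] at hdet ⊢
  linear_combination hdet

/-- BLOCK D20a. -/
theorem minor_ne_pr {n : ℕ} {y : Fin (n + 1) → V2 → ℂ} {ξ : V2} (hy : ∀ p, AnalyticAt ℂ (y p) ξ)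
    (hne : ∃ p, y p ξ ≠ 0)
    (himm : ∀ (u : V2) (m : ℂ), (∀ p, fderiv ℂ (y p) ξ u = m * y p ξ) → u = 0) :
    ∃ p : Fin 3 → Fin (n + 1), dlj (fun l => jet2 (y (p l)) ξ) ≠ 0 := by
  have hinj : ∀ w : Fin 3 → ℂ, (∀ p : Fin (n + 1), w 0 * rw1 (jet2 (y p) ξ) 0 +
      w 1 * rw1 (jet2 (y p) ξ) 1 + w 2 * rw1 (jet2 (y p) ξ) 2 = 0) → w = 0 := by
    intro w hw
    have hrow : ∀ p, w 0 * y p ξ + w 1 * pd 0 (y p) ξ + w 2 * pd 1 (y p) ξ = 0 := by
      intro p
      have := hw p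
      simpa [rw1, jet2] using this
    have hfd : ∀ p, fderiv ℂ (y p) ξ (![w 1, w 2] : V2) = -(w 0) * y p ξ := by
      intro p
      have hdec : (![w 1, w 2] : V2) = w 1 • (Pi.single 0 (1 : ℂ) : V2) +
          w 2 • (Pi.single 1 (1 : ℂ) : V2) := by
        funext i
        fin_cases i <;> simp
      rw [hdec, map_add, map_smul, map_smul]
      have := hrow p
      simp only [pd, smul_eq_mul] at this ⊢
      linear_combination this
    have hu := himm _ _ hfd
    have h1 : w 1 = 0 := by simpa using congrFun hu 0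
    have h2 : w 2 = 0 := by simpa using congrFun hu 1
    obtain ⟨p, hp⟩ := hne
    have h0 : w 0 = 0 := by
      have := hrow p
      rw [h1, h2] at this
      simpa [hp] using this
    funext i
    fin_cases i
    · exact h0
    · exact h1
    · exact h2
  obtain ⟨p, hp⟩ := d20a_rows (R := fun p : Fin (n + 1) => rw1 (jet2 (y p) ξ)) hinj
  exact ⟨p, hp⟩

end Pool.Agent.GG.PD
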