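import Pool.Agent.Lib_helper80.GG.DDefs

set_option autoImplicit false
set_option linter.unusedVariables false

open Filter Topology Metric Set
open scoped Manifold ContDiff

namespace Pool.Agent.GG.PD

open Pool.Agent.BR

private theorem d20b_pd_an {f : V2 → ℂ} {ξ : V2} (hf : AnalyticAt ℂ f ξ) (d : Fin 2) :
    AnalyticAt ℂ (pd d f) ξ := by
  have h1 := hf.fderiv
  exact ((ContinuousLinearMap.apply ℂ ℂ (Pi.single d (1 : ℂ) : V2)).analyticAt _).comp h1

private theorem d20b_pd_mul {f g : V2 → ℂ} {ξ : V2} (hf : AnalyticAt ℂ f ξ)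
    (hg : AnalyticAt ℂ g ξ) (d : Fin 2) :
    pd d (fun η => f η * g η) ξ = f ξ * pd d g ξ + pd d f ξ * g ξ := by
  unfold pd
  rw [fderiv_fun_mul hf.differentiableAt hg.differentiableAt]
  simp
  ring

private theorem d20b_pd_add {f g : V2 → ℂ} {ξ : V2} (hf : AnalyticAt ℂ f ξ)
    (hg : AnalyticAt ℂ g ξ) (d : Fin 2) :
    pd d (fun η => f η + g η) ξ = pd d f ξ + pd d g ξ := by
  unfold pd
  rw [fderiv_fun_add hf.differentiableAt hg.differentiableAt]
  simp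

private theorem d20b_pd_congr {f g : V2 → ℂ} {ξ : V2} (h : f =ᶠ[𝓝 ξ] g) (d : Fin 2) :
    pd d f ξ = pd d g ξ := by
  unfold pd
  rw [h.fderiv_eq]

private theorem d20b_pd_mul2 {f g : V2 → ℂ} {ξ : V2} (hf : AnalyticAt ℂ f ξ)
    (hg : AnalyticAt ℂ g ξ) (e d : Fin 2) :
    pd e (pd d (fun η => f η * g η)) ξ =
      f ξ * pd e (pd d g) ξ + pd e f ξ * pd d g ξ + (pd d f ξ * pd e g ξ +
        pd e (pd d f) ξ * g ξ) := by
  have h1 : pd d (fun η => f η * g η) =ᶠ[𝓝 ξ] fun η => f η * pd d g η + pd d f η * g η := by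
    filter_upwards [hf.eventually_analyticAt, hg.eventually_analyticAt] with η h h'
    exact d20b_pd_mul h h' d
  rw [d20b_pd_congr h1, d20b_pd_add (hf.fun_mul (d20b_pd_an hg d)) ((d20b_pd_an hf d).fun_mul hg),
    d20b_pd_mul hf (d20b_pd_an hg d), d20b_pd_mul (d20b_pd_an hf d) hg]

/-- the product of two-jets -/
private def d20bP (u w : Fin 6 → ℂ) : Fin 6 → ℂ :=
  ![u 0 * w 0, u 0 * w 1 + u 1 * w 0, u 0 * w 2 + u 2 * w 0,
    u 0 * w 3 + u 1 * w 1 + (u 1 * w 1 + u 3 * w 0),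
    u 0 * w 4 + u 1 * w 2 + (u 2 * w 1 + u 4 * w 0),
    u 0 * w 5 + u 2 * w 2 + (u 2 * w 2 + u 5 * w 0)]

private theorem d20b_jet {f g : V2 → ℂ} {ξ : V2} (hf : AnalyticAt ℂ f ξ)
    (hg : AnalyticAt ℂ g ξ) :
    jet2 (fun η => f η * g η) ξ = d20bP (jet2 f ξ) (jet2 g ξ) := by
  funext i
  fin_cases i
  · rfl
  · exact d20b_pd_mul hf hg 0
  · exact d20b_pd_mul hf hg 1
  · exact d20b_pd_mul2 hf hg 0 0
  · exact d20b_pd_mul2 hf hg 0 1
  · exact d20b_pd_mul2 hf hg 1 1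

/-- the product as a bilinear map -/
private noncomputable def d20bB : (Fin 6 → ℂ) →ₗ[ℂ] (Fin 6 → ℂ) →ₗ[ℂ] (Fin 6 → ℂ) :=
  LinearMap.mk₂ ℂ d20bP
    (by
      intro a b c
      funext i
      fin_cases i <;> simp [d20bP] <;> ring)
    (by
      intro t a c
      funext i
      fin_cases i <;> simp [d20bP] <;> ring)
    (by
      intro a b c
      funext i
      fin_cases i <;> simp [d20bP] <;> ring)
    (by
      intro t a c
      funext i
      fin_cases i <;> simp [d20bP] <;> ring)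

theorem prod_three_pr {g : Fin 3 → V2 → ℂ} {ξ : V2} (hg : ∀ l, AnalyticAt ℂ (g l) ξ)
    (h : dlj (fun l => jet2 (g l) ξ) ≠ 0) (v : Fin 6 → ℂ) :
    ∃ c : Fin 3 → Fin 3 → ℂ, ∑ p, ∑ q, c p q • jet2 (fun η => g p η * g q η) ξ = v := by
  set J : Fin 3 → Fin 6 → ℂ := fun l => jet2 (g l) ξ with hJ
  set N : Matrix (Fin 3) (Fin 3) ℂ := Matrix.of fun l => rw1 (J l) with hN
  have hdet : IsUnit N.det := isUnit_iff_ne_zero.2 h
  set B : Matrix (Fin 3) (Fin 3) ℂ := N⁻¹ with hB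
  have hBN : B * N = 1 := Matrix.nonsing_inv_mul N hdet
  set H : Fin 3 → Fin 6 → ℂ := fun a => ∑ p, B a p • J p with hH
  have hHa : ∀ a, H a 0 = (1 : Matrix (Fin 3) (Fin 3) ℂ) a 0 ∧
      H a 1 = (1 : Matrix (Fin 3) (Fin 3) ℂ) a 1 ∧
      H a 2 = (1 : Matrix (Fin 3) (Fin 3) ℂ) a 2 := by
    intro a
    refine ⟨?_, ?_, ?_⟩
    · rw [← hBN, Matrix.mul_apply]
      simp [hH, Finset.sum_apply, hN, rw1]
    · rw [← hBN, Matrix.mul_apply]
      simp [hH, Finset.sum_apply, hN, rw1]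
    · rw [← hBN, Matrix.mul_apply]
      simp [hH, Finset.sum_apply, hN, rw1]
  have hprod : ∀ a b, d20bP (H a) (H b) = ∑ p, ∑ q, (B a p * B b q) • d20bP (J p) (J q) := by
    intro a b
    have e1 : d20bP (H a) (H b) = d20bB (H a) (H b) := rfl
    have e2 : ∀ w, d20bB (H a) w = ∑ p, B a p • d20bB (J p) w := by
      intro w
      have : d20bB (H a) = ∑ p, B a p • d20bB (J p) := by
        rw [hH]
        simp only [map_sum, map_smul]
      rw [this, LinearMap.sum_apply]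
      rfl
    rw [e1, e2]
    refine Finset.sum_congr rfl fun p _ => ?_
    have e3 : d20bB (J p) (H b) = ∑ q, B b q • d20bB (J p) (J q) := by
      rw [hH]
      simp only [map_sum, map_smul]
    rw [e3, Finset.smul_sum]
    refine Finset.sum_congr rfl fun q _ => ?_
    rw [smul_smul]
    rfl
  -- the coefficients
  obtain ⟨d, hd⟩ : ∃ d : Fin 3 → Fin 3 → ℂ, ∑ a, ∑ b, d a b • d20bP (H a) (H b) = v := by
    have h00 := (hHa 0).1
    have h01 := (hHa 0).2.1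
    have h02 := (hHa 0).2.2
    have h10 := (hHa 1).1
    have h11 := (hHa 1).2.1
    have h12 := (hHa 1).2.2
    have h20 := (hHa 2).1
    have h21 := (hHa 2).2.1
    have h22 := (hHa 2).2.2
    simp at h00 h01 h02 h10 h11 h12 h20 h21 h22
    refine ⟨![![v 0, v 1, v 2],
      ![0, (v 3 - 2 * v 0 * H 0 3 - v 1 * H 1 3 - v 2 * H 2 3) / 2,
        v 4 - 2 * v 0 * H 0 4 - v 1 * H 1 4 - v 2 * H 2 4],
      ![0, 0, (v 5 - 2 * v 0 * H 0 5 - v 1 * H 1 5 - v 2 * H 2 5) / 2]], ?_⟩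
    funext i
    fin_cases i <;>
      simp [Fin.sum_univ_three, d20bP, h00, h01, h02, h10, h11, h12, h20, h21, h22] <;> ring
  refine ⟨fun p q => ∑ a, ∑ b, d a b * (B a p * B b q), ?_⟩
  rw [← hd]
  have e1 : ∀ p q, jet2 (fun η => g p η * g q η) ξ = d20bP (J p) (J q) :=
    fun p q => d20b_jet (hg p) (hg q)
  simp_rw [e1, hprod, Finset.smul_sum, Finset.sum_smul, smul_smul]
  calc ∑ p, ∑ q, ∑ a, ∑ b, (d a b * (B a p * B b q)) • d20bP (J p) (J q)
      = ∑ p, ∑ a, ∑ q, ∑ b, (d a b * (B a p * B b q)) • d20bP (J p) (J q) := by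
        refine Finset.sum_congr rfl fun p _ => ?_
        rw [Finset.sum_comm]
    _ = ∑ a, ∑ p, ∑ q, ∑ b, (d a b * (B a p * B b q)) • d20bP (J p) (J q) := by
        rw [Finset.sum_comm]
    _ = ∑ a, ∑ p, ∑ b, ∑ q, (d a b * (B a p * B b q)) • d20bP (J p) (J q) := by
        refine Finset.sum_congr rfl fun a _ => Finset.sum_congr rfl fun p _ => ?_
        rw [Finset.sum_comm]
    _ = ∑ a, ∑ b, ∑ p, ∑ q, (d a b * (B a p * B b q)) • d20bP (J p) (J q) := by
        refine Finset.sum_congr rfl fun a _ => ?_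
        rw [Finset.sum_comm]

end Pool.Agent.GG.PD
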