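import Pool.Agent.Lib_helper80.GG.DDefs
import Pool.Agent.Lib_helper80.GG.B.D20a
import Pool.Agent.Lib_helper80.GG.B.D20b

/-! # Existence of invariant jet differentials (MP_45e720_ag), block D20c: the two-jets are
generated by the products of the coordinates -/

set_option autoImplicit false

namespace Pool.Agent.GG.PD

open Pool.Agent.BR

theorem prod_jets_pr {n : ℕ} {y : Fin (n + 1) → V2 → ℂ} {ξ : V2} (hy : ∀ p, AnalyticAt ℂ (y p) ξ)
    (hne : ∃ p, y p ξ ≠ 0)
    (himm : ∀ (u : V2) (m : ℂ), (∀ p, fderiv ℂ (y p) ξ u = m * y p ξ) → u = 0) (v : Fin 6 → ℂ) :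
    ∃ c : Fin (n + 1) × Fin (n + 1) → ℂ,
      ∑ p, c p • jet2 (fun η => y p.1 η * y p.2 η) ξ = v := by
  obtain ⟨p, hp⟩ := minor_ne_pr hy hne himm
  obtain ⟨c, hc⟩ := prod_three_pr (g := fun l => y (p l)) (fun l => hy (p l)) hp v
  refine ⟨fun qr => ∑ s, ∑ t, if (p s, p t) = qr then c s t else 0, ?_⟩
  rw [← hc]
  calc ∑ qr : Fin (n + 1) × Fin (n + 1), (∑ s, ∑ t, if (p s, p t) = qr then c s t else 0) •
        jet2 (fun η => y qr.1 η * y qr.2 η) ξ
      = ∑ qr : Fin (n + 1) × Fin (n + 1), ∑ s, ∑ t, (if (p s, p t) = qr then c s t else 0) •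
        jet2 (fun η => y qr.1 η * y qr.2 η) ξ := by
        refine Finset.sum_congr rfl (fun qr _ => ?_)
        rw [Finset.sum_smul]
        exact Finset.sum_congr rfl (fun s _ => Finset.sum_smul)
    _ = ∑ s, ∑ t, ∑ qr : Fin (n + 1) × Fin (n + 1), (if (p s, p t) = qr then c s t else 0) •
        jet2 (fun η => y qr.1 η * y qr.2 η) ξ := by
        rw [Finset.sum_comm]
        exact Finset.sum_congr rfl (fun s _ => Finset.sum_comm)
    _ = ∑ s, ∑ t, c s t • jet2 (fun η => y (p s) η * y (p t) η) ξ := by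
        refine Finset.sum_congr rfl (fun s _ => Finset.sum_congr rfl (fun t _ => ?_))
        rw [Finset.sum_eq_single (p s, p t)]
        · rw [if_pos rfl]
        · intro qr _ h
          rw [if_neg (Ne.symm h), zero_smul]
        · intro h
          exact absurd (Finset.mem_univ _) h


end Pool.Agent.GG.PD
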