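import Pool.Agent.Lib_helper80.GG.DDefs
import Pool.Agent.Lib_helper80.GG.B.D20c

/-! GG, block D22 (helper35): from an embedding to sections which generate the two-jets. -/

set_option autoImplicit false

open Filter Topology Metric Set

namespace Pool.Agent.GG.PD

open Pool.Agent.BR

variable {X : Type} [MetricSpace X] {A : Cha V2 X}

/-- the products of the sections -/
noncomputable def d22_a {n : ℕ} (a : A.ι → X → Fin (n + 1) → ℂ) :
    Fin ((n + 1) * (n + 1)) → A.ι → X → ℂ :=
  fun P i x => a i x (finProdFinEquiv.symm P).1 * a i x (finProdFinEquiv.symm P).2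

theorem d22_sum {n : ℕ} (c : Fin (n + 1) × Fin (n + 1) → ℂ)
    (g : Fin (n + 1) × Fin (n + 1) → ℂ) :
    ∑ P : Fin ((n + 1) * (n + 1)), c (finProdFinEquiv.symm P) * g (finProdFinEquiv.symm P) =
      ∑ p, c p * g p :=
  Equiv.sum_comp finProdFinEquiv.symm (fun p => c p * g p)

theorem d22_an {n k : ℕ} {a : A.ι → X → Fin (n + 1) → ℂ} (ha : IS.AF A n k a) {i : A.ι} {x : X}
    (hx : x ∈ (A.ch i).source) (p : Fin (n + 1)) :
    AnalyticAt ℂ (lz A i (fun x => a i x p)) (A.ch i x) :=
  ((ContinuousLinearMap.proj p : (Fin (n + 1) → ℂ) →L[ℂ] ℂ).analyticAt _).comp (ha.an i x hx)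

theorem vv_of_af_pr {n k : ℕ} (hk : 0 < k) {a : A.ι → X → Fin (n + 1) → ℂ} (ha : IS.AF A n k a)
    (hsep : ∀ x y, x ≠ y → ∀ i j, x ∈ (A.ch i).source → y ∈ (A.ch j).source →
      ¬ ∃ m : ℂ, a i x = m • a j y) :
    ∃ (M : ℕ) (a' : Fin M → A.ι → X → ℂ), VV A (2 * k) M a' := by
  refine ⟨(n + 1) * (n + 1), d22_a a, by omega, ?_, ?_, ?_⟩
  · intro P
    refine ⟨fun i x hx => ?_, fun i j x hi hj => ?_⟩
    · exact (d22_an ha hx (finProdFinEquiv.symm P).1).mul (d22_an ha hx (finProdFinEquiv.symm P).2)
    · have h := ha.tr i j x hi hj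
      unfold d22_a
      rw [h]
      simp only [Pi.smul_apply, smul_eq_mul]
      ring
  · intro i x hx v
    have hinv : (A.ch i).symm (A.ch i x) = x := (A.ch i).left_inv hx
    obtain ⟨c, hc⟩ := prod_jets_pr (y := fun p => lz A i (fun x => a i x p)) (ξ := A.ch i x)
      (fun p => d22_an ha hx p) (by
        have h := ha.ne i x hx
        obtain ⟨p, hp⟩ := Function.ne_iff.1 h
        refine ⟨p, ?_⟩
        show a i ((A.ch i).symm (A.ch i x)) p ≠ 0
        rw [hinv]
        exact hp) (by
        intro u m hum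
        apply ha.imm i x hx u m
        have hd : DifferentiableAt ℂ (fun ξ => a i ((A.ch i).symm ξ)) (A.ch i x) :=
          (ha.an i x hx).differentiableAt
        funext p
        have h1 : HasFDerivAt (fun ξ => a i ((A.ch i).symm ξ) p)
            ((ContinuousLinearMap.proj p : (Fin (n + 1) → ℂ) →L[ℂ] ℂ).comp
              (fderiv ℂ (fun ξ => a i ((A.ch i).symm ξ)) (A.ch i x))) (A.ch i x) :=
          (ContinuousLinearMap.proj p : (Fin (n + 1) → ℂ) →L[ℂ] ℂ).hasFDerivAt.comp _
            hd.hasFDerivAt
        have h2 := hum p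
        have h3 : fderiv ℂ (lz A i (fun x => a i x p)) (A.ch i x) = _ := h1.fderiv
        rw [h3] at h2
        have h4 : lz A i (fun x => a i x p) (A.ch i x) = a i x p := by
          show a i ((A.ch i).symm (A.ch i x)) p = a i x p
          rw [hinv]
        rw [h4] at h2
        exact h2) v
    refine ⟨fun P => c (finProdFinEquiv.symm P), ?_⟩
    have key : ∀ r : Fin 6, ∑ P : Fin ((n + 1) * (n + 1)), c (finProdFinEquiv.symm P) *
        jet2 (fun η => lz A i (fun x => a i x (finProdFinEquiv.symm P).1) η *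
          lz A i (fun x => a i x (finProdFinEquiv.symm P).2) η) (A.ch i x) r = v r := by
      intro r
      rw [d22_sum c (fun p => jet2 (fun η => lz A i (fun x => a i x p.1) η *
          lz A i (fun x => a i x p.2) η) (A.ch i x) r), ← hc, Finset.sum_apply]
      rfl
    have h0 := key 0
    have h1 := key 1
    have h2 := key 2
    have h3 := key 3
    have h4 := key 4
    have h5 := key 5
    refine ⟨?_, h1, h2, h3, h4, h5⟩
    rw [← h0]
    apply Finset.sum_congr rfl
    intro P _
    show c _ * (a i x _ * a i x _) = c _ * (a i ((A.ch i).symm (A.ch i x)) _ *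
      a i ((A.ch i).symm (A.ch i x)) _)
    rw [hinv]
  · intro x y hxy i j hx hy
    by_contra hcon
    push Not at hcon
    apply hsep x y hxy i j hx hy
    have hall : ∀ p q r s : Fin (n + 1), a i x p * a i x q * (a j y r * a j y s) =
        a i x r * a i x s * (a j y p * a j y q) := by
      intro p q r s
      have h := hcon (finProdFinEquiv (p, q)) (finProdFinEquiv (r, s))
      simpa [d22_a] using h
    obtain ⟨r, hr⟩ := Function.ne_iff.1 (ha.ne j y hy)
    obtain ⟨p, hp⟩ := Function.ne_iff.1 (ha.ne i x hx)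
    simp only [Pi.zero_apply] at hr hp
    have hr' : a i x r ≠ 0 := by
      intro h0
      have h := hall p p r r
      rw [h0] at h
      have h1 : a i x p * a i x p * (a j y r * a j y r) ≠ 0 := by positivity
      exact h1 (by rw [h]; ring)
    refine ⟨a i x r / a j y r, ?_⟩
    funext q
    have h := hall q r r r
    simp only [Pi.smul_apply, smul_eq_mul]
    rw [div_mul_eq_mul_div, eq_div_iff hr]
    have h2 : a i x r * a j y r * (a i x q * a j y r) = a i x r * a j y r * (a i x r * a j y q) := by
      linear_combination h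
    exact mul_left_cancel₀ (mul_ne_zero hr' hr) h2

end Pool.Agent.GG.PD
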