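import Pool.Agent.Lib_helper80.GG.DDefs
import Pool.Agent.Lib_helper80.IS.L.V3
import Pool.Agent.Lib_helper82.BR.B.FRM
import Pool.Agent.Lib_helper82.BR.Final

set_option autoImplicit false
set_option linter.unusedSectionVars false

open Filter Topology Metric Set
open scoped Manifold ContDiff Bundle

namespace Pool.Agent.GG.PD

open Pool.Agent.BR

section vec

variable {E X : Type} [NormedAddCommGroup E] [NormedSpace ℂ E] [FiniteDimensional ℂ E]
  [MetricSpace X] {A : Cha E X} {n k : ℕ}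

/-- the coordinates from the forms, explicitly -/
theorem d23_af (e : Module.Basis (Fin 2) ℂ E) (F : A.Frm (n + 1) k) :
    IS.AF A n k (fun i x => EuclideanSpace.equiv (Fin (n + 1)) ℂ (F.T i (A.ch i x) (e 0) (e 1))) := by
  let φ : EuclideanSpace ℂ (Fin (n + 1)) ≃L[ℂ] (Fin (n + 1) → ℂ) :=
    EuclideanSpace.equiv (Fin (n + 1)) ℂ
  let g : A.ι → E → (Fin (n + 1) → ℂ) := fun i ξ => φ (F.T i ξ (e 0) (e 1))
  have hg : ∀ i, ∀ x ∈ (A.ch i).source,
      (fun ξ => g i (A.ch i ((A.ch i).symm ξ))) =ᶠ[𝓝 (A.ch i x)] g i := by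
    intro i x hx
    filter_upwards [(A.ch i).open_target.mem_nhds ((A.ch i).map_source hx)] with ξ hξ
    rw [(A.ch i).right_inv hξ]
  have hd : ∀ i, ∀ x ∈ (A.ch i).source, HasFDerivAt (g i)
      ((φ : EuclideanSpace ℂ (Fin (n + 1)) →L[ℂ] (Fin (n + 1) → ℂ)).comp
        ((fderiv ℂ (fun p : E × E × E => F.T i p.1 p.2.1 p.2.2) (A.ch i x, e 0, e 1)).comp
          (ContinuousLinearMap.inl ℂ E (E × E)))) (A.ch i x) := by
    intro i x hx
    exact (φ : EuclideanSpace ℂ (Fin (n + 1)) →L[ℂ] (Fin (n + 1) → ℂ)).hasFDerivAt.comp _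
      (IS.v3_an e F i ((A.ch i).map_source hx)).1
  show IS.AF A n k (fun i x => g i (A.ch i x))
  refine ⟨?_, ?_, ?_, ?_⟩
  · intro i x hx
    refine AnalyticAt.congr ?_ (hg i x hx).symm
    exact (φ : EuclideanSpace ℂ (Fin (n + 1)) →L[ℂ] (Fin (n + 1) → ℂ)).analyticAt _ |>.comp
      (IS.v3_an e F i ((A.ch i).map_source hx)).2
  · intro i j x hi hj
    set D := IS.dtr A i j x with hD
    have h1 := F.compat i j x hi hj (e 0) (e 1)
    have h2 : ∀ v : E, D v = e.repr (D v) 0 • e 0 + e.repr (D v) 1 • e 1 := by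
      intro v
      have := e.sum_repr (D v)
      rw [Fin.sum_univ_two] at this
      exact this.symm
    have h3 : IS.jac A i j x = e.repr (D (e 0)) 0 * e.repr (D (e 1)) 1 -
        e.repr (D (e 0)) 1 * e.repr (D (e 1)) 0 := by
      have h4 := LinearMap.det_toMatrix e (D : E →ₗ[ℂ] E)
      rw [Matrix.det_fin_two] at h4
      simp only [LinearMap.toMatrix_apply] at h4
      unfold IS.jac
      rw [← hD, ← h4]
      simp only [ContinuousLinearMap.coe_coe]
      ring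
    have h5 := (F.tf j).equi (A.ch j x) ((A.ch j).map_source hj) (e.repr (D (e 0)) 0)
      (e.repr (D (e 0)) 1) (e.repr (D (e 1)) 0) (e.repr (D (e 1)) 1) (e 0) (e 1)
    rw [← h2, ← h2, ← h3] at h5
    show φ (F.T i (A.ch i x) (e 0) (e 1)) = IS.jac A i j x ^ k • φ (F.T j (A.ch j x) (e 0) (e 1))
    rw [h1, ← map_smul, ← h5]
    rfl
  · intro i x hx h0
    have h1 : F.T i (A.ch i x) (e 0) (e 1) = 0 := φ.injective (h0.trans (map_zero φ).symm)
    exact (F.tf i).ne _ ((A.ch i).map_source hx) _ _ (IS.v3_indep e) h1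
  · intro i x hx ξ m h
    rw [(hg i x hx).fderiv_eq, (hd i x hx).fderiv] at h
    have h1 : fderiv ℂ (fun p : E × E × E => F.T i p.1 p.2.1 p.2.2) (A.ch i x, e 0, e 1)
        (ξ, 0, 0) = m • F.T i (A.ch i x) (e 0) (e 1) := by
      apply φ.injective
      rw [map_smul]
      exact h
    exact ((F.tf i).imm _ ((A.ch i).map_source hx) _ _ (IS.v3_indep e) _ _ _ _ h1).1

end vec

/-- D23: coordinates from the canonical forms, with separation of points -/
theorem exists_af_sep_pr {E X : Type} [NormedAddCommGroup E] [NormedSpace ℂ E]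
    [FiniteDimensional ℂ E]
    [MetricSpace X] [CompactSpace X] [Nonempty X] [ChartedSpace E X] [IsManifold 𝓘(ℂ, E) ω X]
    (A : Cha E X) (hA : ∀ i, ∃ y, A.ch i = chartAt E y) (h : CanonicalVeryAmple E X) :
    ∃ (k n : ℕ) (a : A.ι → X → Fin (n + 1) → ℂ), 0 < k ∧ IS.AF A n k a ∧
      ∀ x y, x ≠ y → ∀ i j, x ∈ (A.ch i).source → y ∈ (A.ch j).source →
        ¬ ∃ m : ℂ, a i x = m • a j y := by
  obtain ⟨hE, k, L, τ, hk, hτ, h1, hsep⟩ := h
  -- a basis
  have e : Module.Basis (Fin 2) ℂ E := Module.finBasisOfFinrankEq ℂ E hE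
  have hind : LinearIndependent ℂ ![e 0, e 1] := IS.v3_indep e
  -- the number of forms is positive
  have hL : L ≠ 0 := by
    rintro rfl
    obtain ⟨x⟩ := ‹Nonempty X›
    obtain ⟨i, -⟩ := (h1 x _ _ hind).1
    exact i.elim0
  obtain ⟨n, rfl⟩ := Nat.exists_eq_succ_of_ne_zero hL
  let τ' : Fin (n + 1) → BR.TangentPairs E X → ℂ := τ
  have hτ' : ∀ i, BR.IsPlaneForm E X k (τ' i) := fun i =>
    (BrodyRigid.isPlaneForm_iff k (τ i)).1 (hτ i)
  have h1' : ∀ (x : X) (u v : E), LinearIndependent ℂ ![u, v] →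
      (∃ i, τ' i ⟨x, (u, v)⟩ ≠ 0) ∧
      ∀ (ξ' u' v' : E) (m : ℂ),
        (∀ i, (mfderiv (𝓘(ℂ, E).prod 𝓘(ℂ, E × E)) 𝓘(ℂ, ℂ) (τ' i) ⟨x, (u, v)⟩ (ξ', (u', v')) : ℂ) =
          m * τ' i ⟨x, (u, v)⟩) →
        ξ' = 0 ∧ u' ∈ Submodule.span ℂ {u, v} ∧ v' ∈ Submodule.span ℂ {u, v} := by
    intro x u v huv
    refine ⟨(h1 x u v huv).1, fun ξ' u' v' m hm => ?_⟩
    have hspan : Submodule.span ℂ {u, v} = ⊤ := by
      have h2 := huv.span_eq_top_of_card_eq_finrank' (by rw [hE]; rfl)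
      rwa [Matrix.range_cons, Matrix.range_cons, Matrix.range_empty, union_empty,
        singleton_union] at h2
    rw [hspan]
    exact ⟨(h1 x u v huv).2 ξ' u' v' m hm, Submodule.mem_top, Submodule.mem_top⟩
  choose y hy using hA
  let F : A.Frm (n + 1) k := { T := fun i => frm_T τ' (y i), tf := fun i => (by
      rw [hy i]
      exact frm_tform hτ' h1' (y i)), compat := (by
      intro i j x hi hj u v
      rw [hy i] at hi ⊢
      rw [hy j] at hj ⊢
      exact frm_compat τ' (y i) (y j) x hi hj u v) }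
  refine ⟨k, n, fun i x => EuclideanSpace.equiv (Fin (n + 1)) ℂ (F.T i (A.ch i x) (e 0) (e 1)), hk,
    d23_af e F, ?_⟩
  intro x x' hxx i j hi hj ⟨m, hm⟩
  -- the value in the chart
  have key : ∀ (i : A.ι) (x : X), x ∈ (A.ch i).source → ∃ u v : E, LinearIndependent ℂ ![u, v] ∧
      ∀ p, EuclideanSpace.equiv (Fin (n + 1)) ℂ (F.T i (A.ch i x) (e 0) (e 1)) p =
        τ p (BrodyRigid.pair x u v) := by
    intro i x hi
    rw [hy i] at hi ⊢
    have hD : ∀ w, tangentCoordChange 𝓘(ℂ, E) (y i) x x w = 0 → w = 0 :=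
      fun w hw => frm_tcc_inj hi (mem_chart_source E _) hw
    refine ⟨_, _, frm_li hD hind, fun p => ?_⟩
    show τ' p ((frm_chart (E := E) (y i)).symm (chartAt E (y i) x, (e 0, e 1))) = _
    rw [frm_symm (y i) ((chartAt E (y i)).map_source hi), (chartAt E (y i)).left_inv hi]
    rfl
  obtain ⟨u, v, huv, h3⟩ := key i x hi
  obtain ⟨u', v', huv', h4⟩ := key j x' hj
  refine hxx (hsep x x' u v u' v' m huv huv' fun p => ?_)
  rw [← h3, ← h4]
  have h5 := congrFun hm p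
  exact h5

end Pool.Agent.GG.PD
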