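import Pool.Agent.Lib_helper80.GG.DDefs
import Pool.Agent.Lib_helper80.GG.B.D07

/-! GG, block D17 (helper4): openness of the condition G2. -/

set_option autoImplicit false

open Filter Topology Metric Set
open scoped Manifold ContDiff

namespace Pool.Agent.GG.PD

open Pool.Agent.BR

theorem d17_fd {f : V2 → ℂ} {z : V2} (h : ∀ l, pd l f z = 0) : fderiv ℂ f z = 0 := by
  have key : ∀ v : V2, fderiv ℂ f z v = 0 := by
    intro v
    have e : v = v 0 • (Pi.single 0 1 : V2) + v 1 • (Pi.single 1 1 : V2) := by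
      ext i
      fin_cases i <;> simp
    have h0 : fderiv ℂ f z (Pi.single 0 1) = 0 := h 0
    have h1 : fderiv ℂ f z (Pi.single 1 1) = 0 := h 1
    rw [e, map_add, map_smul, map_smul, h0, h1]
    simp
  exact ContinuousLinearMap.ext key

section

variable {X : Type} [MetricSpace X] {A : Cha V2 X}

theorem d17_transfer {s : A.ι → X → ℂ} {w : ℕ} (hs : IS.PS A w s) {i j : A.ι} {y : X}
    (hi : y ∈ (A.ch i).source) (hj : y ∈ (A.ch j).source) (h0 : s i y = 0)
    (hd : ∀ l, ds A s l i y = 0) (l : Fin 2) : ds A s l j y = 0 := by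
  have htc : AnalyticAt ℂ (fun ξ => A.ch i ((A.ch j).symm ξ)) (A.ch j y) := A.trans j i y hj hi
  have hz : A.ch i ((A.ch j).symm (A.ch j y)) = A.ch i y := by rw [(A.ch j).left_inv hj]
  have hf : HasFDerivAt (lz A i (s i)) (0 : V2 →L[ℂ] ℂ) (A.ch i y) := by
    have h1 : AnalyticAt ℂ (lz A i (s i)) (A.ch i y) := hs.an i y hi
    have h2 := h1.differentiableAt.hasFDerivAt
    rwa [d17_fd hd] at h2
  have hc : HasFDerivAt (fun z => lz A i (s i) (A.ch i ((A.ch j).symm z))) (0 : V2 →L[ℂ] ℂ)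
      (A.ch j y) := by
    have h1 : HasFDerivAt (lz A i (s i)) (0 : V2 →L[ℂ] ℂ) (A.ch i ((A.ch j).symm (A.ch j y))) := by
      rw [hz]; exact hf
    have h2 := HasFDerivAt.comp (A.ch j y) h1 htc.differentiableAt.hasFDerivAt
    rw [ContinuousLinearMap.zero_comp] at h2
    exact h2
  have ht : ∀ᶠ z in 𝓝 (A.ch j y), z ∈ (A.ch j).target :=
    (A.ch j).open_target.mem_nhds ((A.ch j).map_source hj)
  have hs' : ∀ᶠ z in 𝓝 (A.ch j y), (A.ch j).symm z ∈ (A.ch i).source := by
    have h1 : ContinuousAt (A.ch j).symm (A.ch j y) :=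
      (A.ch j).symm.continuousAt ((A.ch j).map_source hj)
    have h2 : (A.ch i).source ∈ 𝓝 ((A.ch j).symm (A.ch j y)) := by
      rw [(A.ch j).left_inv hj]
      exact (A.ch i).open_source.mem_nhds hi
    exact h1 h2
  have he : lz A j (s j) =ᶠ[𝓝 (A.ch j y)] fun z =>
      (fderiv ℂ (fun ξ => A.ch i ((A.ch j).symm ξ)) z).det ^ w *
        lz A i (s i) (A.ch i ((A.ch j).symm z)) := by
    filter_upwards [ht, hs'] with z h1 h2
    have h3 := hs.tr j i ((A.ch j).symm z) ((A.ch j).map_target h1) h2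
    unfold lz
    rw [(A.ch i).left_inv h2, h3]
    unfold IS.jac IS.dtr
    rw [(A.ch j).right_inv h1]
  have hJ : ContinuousAt (fun z =>
      (fderiv ℂ (fun ξ => A.ch i ((A.ch j).symm ξ)) z).det ^ w) (A.ch j y) := by
    have h1 : ContinuousAt (fderiv ℂ (fun ξ => A.ch i ((A.ch j).symm ξ))) (A.ch j y) :=
      htc.fderiv.continuousAt
    exact (ContinuousLinearMap.continuous_det.continuousAt.comp h1).pow w
  have hv : lz A i (s i) (A.ch i ((A.ch j).symm (A.ch j y))) = 0 := by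
    unfold lz
    rw [(A.ch j).left_inv hj, (A.ch i).left_inv hi, h0]
  have hp : HasFDerivAt (fun z => (fderiv ℂ (fun ξ => A.ch i ((A.ch j).symm ξ)) z).det ^ w *
      lz A i (s i) (A.ch i ((A.ch j).symm z))) (0 : V2 →L[ℂ] ℂ) (A.ch j y) := by
    rw [hasFDerivAt_iff_isLittleO] at hc ⊢
    simp only [hv, mul_zero, sub_zero, ContinuousLinearMap.zero_apply] at hc ⊢
    have h1 : (fun z => (fderiv ℂ (fun ξ => A.ch i ((A.ch j).symm ξ)) z).det ^ w)
        =O[𝓝 (A.ch j y)] (fun _ => (1 : ℝ)) := hJ.isBigO_one ℝ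
    have h2 := h1.mul_isLittleO hc.norm_right
    simpa using h2
  have h4 : fderiv ℂ (lz A j (s j)) (A.ch j y) = 0 := by
    rw [he.fderiv_eq]
    exact hp.fderiv
  unfold ds pd
  rw [h4]
  rfl

theorem open_g2_pr {b : ℕ} [CompactSpace X] {T : Fin 3 → A.ι → X → ℂ} (hT : ∀ j, IS.PS A b (T j))
    (h2 : ∀ i, ∀ x ∈ (A.ch i).source, T 0 i x = 0 → ∃ j, ds A (T 0) j i x ≠ 0) :
    ∃ ε > 0, ∀ a : Fin 3 → ℂ, ‖a - Pi.single 0 1‖ < ε → ∀ i, ∀ x ∈ (A.ch i).source,
      cmb T a i x = 0 → ∃ j, ds A (cmb T a) j i x ≠ 0 := by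
  have key : ∀ᶠ a in 𝓝 (Pi.single 0 1 : Fin 3 → ℂ), ∀ x ∈ (univ : Set X),
      ∀ i, x ∈ (A.ch i).source → cmb T a i x = 0 → ∃ j, ds A (cmb T a) j i x ≠ 0 := by
    refine isCompact_univ.eventually_forall_of_forall_eventually ?_
    intro x₀ _
    obtain ⟨i₀, hi₀⟩ := A.cover x₀
    have hx₀ : x₀ ∈ (A.ch i₀).source := A.W_sub i₀ (subset_closure hi₀)
    set f : Fin 3 → V2 → ℂ := fun l => lz A i₀ (T l i₀) with hf
    set z₀ : V2 := A.ch i₀ x₀ with hz₀
    have hfa : ∀ l, AnalyticAt ℂ (f l) z₀ := fun l => (hT l).an i₀ x₀ hx₀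
    have hpa : ∀ j l, ContinuousAt (pd j (f l)) z₀ := by
      intro j l
      exact (((ContinuousLinearMap.apply ℂ ℂ (Pi.single j (1 : ℂ) : V2)).analyticAt _).comp
        (hfa l).fderiv).continuousAt
    -- continuity of the functions of two variables
    have hcont : ∀ g : Fin 3 → V2 → ℂ, (∀ l, ContinuousAt (g l) z₀) →
        ContinuousAt (fun p : (Fin 3 → ℂ) × X => ∑ l, p.1 l * g l (A.ch i₀ p.2))
          (Pi.single 0 1, x₀) := by
      intro g hg
      have h1 : ContinuousAt (fun p : (Fin 3 → ℂ) × X => A.ch i₀ p.2) (Pi.single 0 1, x₀) :=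
        ContinuousAt.comp (f := fun p : (Fin 3 → ℂ) × X => p.2)
          (g := A.ch i₀) ((A.ch i₀).continuousAt hx₀) continuousAt_snd
      refine tendsto_finsetSum _ fun l _ => ?_
      have h3 : ContinuousAt (fun p : (Fin 3 → ℂ) × X => p.1 l) (Pi.single 0 1, x₀) :=
        (continuous_apply l).continuousAt.comp continuousAt_fst
      have h4 : ContinuousAt (fun p : (Fin 3 → ℂ) × X => g l (A.ch i₀ p.2))
          (Pi.single 0 1, x₀) :=
        ContinuousAt.comp (f := fun p : (Fin 3 → ℂ) × X => A.ch i₀ p.2) (g := g l) (hg l) h1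
      exact h3.mul h4
    have hval : ∀ g : Fin 3 → V2 → ℂ, ∑ l, (Pi.single 0 1 : Fin 3 → ℂ) l * g l z₀ = g 0 z₀ := by
      intro g
      rw [Fin.sum_univ_three]
      simp
    -- the values near the point
    have hev : ∀ᶠ p in 𝓝 ((Pi.single 0 1 : Fin 3 → ℂ), x₀),
        ∑ l, p.1 l * f l (A.ch i₀ p.2) = 0 → ∃ j, ∑ l, p.1 l * pd j (f l) (A.ch i₀ p.2) ≠ 0 := by
      by_cases h0 : f 0 z₀ = 0
      · obtain ⟨j, hj⟩ := h2 i₀ x₀ hx₀ (by
          have : f 0 z₀ = T 0 i₀ x₀ := by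
            simp only [hf, lz, hz₀]
            rw [(A.ch i₀).left_inv hx₀]
          rw [← this]; exact h0)
        have h3 := hcont (fun l => pd j (f l)) (hpa j)
        have h4 : ∑ l, (Pi.single 0 1 : Fin 3 → ℂ) l * pd j (f l) z₀ ≠ 0 := by
          rw [hval fun l => pd j (f l)]
          exact hj
        filter_upwards [h3.eventually_ne h4] with p hp _ using ⟨j, hp⟩
      · have h3 := hcont f (fun l => (hfa l).continuousAt)
        have h4 : ∑ l, (Pi.single 0 1 : Fin 3 → ℂ) l * f l z₀ ≠ 0 := by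
          rw [hval f]
          exact h0
        filter_upwards [h3.eventually_ne h4] with p hp hp' using absurd hp' hp
    have hsrc : ∀ᶠ p in 𝓝 ((Pi.single 0 1 : Fin 3 → ℂ), x₀), p.2 ∈ (A.ch i₀).source :=
      continuousAt_snd.eventually ((A.ch i₀).open_source.mem_nhds hx₀)
    filter_upwards [hev, hsrc] with p hp hps i hi hc
    obtain ⟨a, x⟩ := p
    simp only at hp hps hi hc ⊢
    have hcs : IS.PS A b (cmb T a) := ps_cmb_pr hT a
    have hxa : ∀ l, AnalyticAt ℂ (f l) (A.ch i₀ x) := fun l => (hT l).an i₀ x hps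
    have hlz : lz A i₀ (cmb T a i₀) = fun z => ∑ l, a l * f l z := by
      funext z
      rfl
    have hc0 : cmb T a i₀ x = 0 := by
      have := hcs.tr i₀ i x hps hi
      rw [this, hc, mul_zero]
    have hds : ∀ j, ds A (cmb T a) j i₀ x = ∑ l, a l * pd j (f l) (A.ch i₀ x) := by
      intro j
      unfold ds pd
      rw [hlz, fderiv_fun_sum fun l _ => ((hxa l).differentiableAt.const_mul (a l))]
      rw [ContinuousLinearMap.sum_apply]
      refine Finset.sum_congr rfl fun l _ => ?_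
      rw [fderiv_const_mul (hxa l).differentiableAt]
      rfl
    have hv0 : ∑ l, a l * f l (A.ch i₀ x) = 0 := by
      have : ∑ l, a l * f l (A.ch i₀ x) = cmb T a i₀ x := by
        unfold cmb
        refine Finset.sum_congr rfl fun l _ => ?_
        simp only [hf, lz]
        rw [(A.ch i₀).left_inv hps]
      rw [this, hc0]
    obtain ⟨j, hj⟩ := hp hv0
    by_contra hcon
    push Not at hcon
    exact hj ((hds j).symm.trans (d17_transfer hcs hi hps hc hcon j))
  obtain ⟨ε, hε, h⟩ := Metric.eventually_nhds_iff.1 key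
  refine ⟨ε, hε, fun a ha i x hx hc => h ?_ x (mem_univ _) i hx hc⟩
  rw [dist_eq_norm]
  exact ha

end


end Pool.Agent.GG.PD
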